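import Pool.Agent.X324.CF.Mir

/-!
# Automorphisms of `(V × F) / Γ` and the boundary divisor
-/

set_option autoImplicit false

namespace Pool.Agent.X324.CF

open Finset Filter Topology
open Pool.Agent.W594.SYZ2 Pool.Agent.W594.SYZ2.TQ Pool.Agent.TH735.AQ
open Pool.Agent.Y167 (Rel Pol MirrorFixed mirrorFixed mirror_zero section_ker)

variable {V E R : Type*} [NormedAddCommGroup V] [NormedSpace ℂ V] [FiniteDimensional ℂ V]
  [NormedAddCommGroup E] [NormedSpace ℂ E] [FiniteDimensional ℂ E] [CommRing R]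
  [Algebra ℂ R] {ρ n : ℕ}
  {𝒜 : Cl ρ → Submodule ℂ R} {Γ : Grp V R} {x : Fin n → R} {w : Fin n → Cl ρ}
  {u : Cl ρ} {j : E →ₗ[ℂ] V} {H₀ : V → V → ℂ}

/-- A good unit extends to an automorphism of `(V × F) / Γ`. -/
theorem exists_aut2 (hQ : IsQuotient 𝒜 u Γ) (Rl : Rel (base Γ) j H₀) :
    ∃ m : ℕ, 0 < m ∧ ∀ g, Pol.IsGood (Pool.Agent.Y167.lattE (base Γ) j)
      (Pool.Agent.Y167.opE (base Γ) j) m g →
      ∃ f : V ≃ᵃ[ℂ] V, Normalizes Γ f ∧ Pool.Agent.Y167.Normalizes (base Γ) f ∧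
        (∀ e, f.linear (j e) = j (g e)) ∧ ∀ v, ∃ e, f v = v + j (g e - e) := by
  obtain ⟨q, hq1, hq2, hq3, m₁, hm₁, hmq⟩ := Rl.exists_q
  obtain ⟨t₀, ht₀⟩ := Pool.Agent.Y167.exists_center Rl.tq
  set n := Nat.card (Lin (base Γ)) with hn
  have hnpos : 0 < n := Pool.Agent.Y167.card_pos Rl.tq
  have := hQ.fin_gal
  set N := Nat.card (gal Γ) with hN
  have hNpos : 0 < N := Nat.card_pos
  have hmr : (((m₁ * n : ℕ) : ℝ)) ≠ 0 := by positivity
  refine ⟨m₁ * n * N, Nat.mul_pos (Nat.mul_pos hm₁ hnpos) hNpos, fun g hu => ?_⟩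
  let ut : V ≃ₗ[ℂ] V :=
    { toFun := fun v => v + j (g (q v) - q v)
      map_add' := fun v w => by
        simp only [map_add, map_sub]
        abel
      map_smul' := fun c v => by
        simp only [map_smul, map_sub, RingHom.id_apply, smul_add, smul_sub]
      invFun := fun v => v + j (g.symm (q v) - q v)
      left_inv := fun v => by
        change (v + j (g (q v) - q v)) + j (g.symm (q (v + j (g (q v) - q v)))
          - q (v + j (g (q v) - q v))) = v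
        have h1 : q (v + j (g (q v) - q v)) = g (q v) := by
          rw [map_add, hq2]
          abel
        rw [h1, g.symm_apply_apply, add_assoc, ← map_add]
        have h2 : g (q v) - q v + (q v - g (q v)) = 0 := by abel
        rw [h2, map_zero, add_zero]
      right_inv := fun v => by
        change (v + j (g.symm (q v) - q v)) + j (g (q (v + j (g.symm (q v) - q v)))
          - q (v + j (g.symm (q v) - q v))) = v
        have h1 : q (v + j (g.symm (q v) - q v)) = g.symm (q v) := by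
          rw [map_add, hq2]
          abel
        rw [h1, g.apply_symm_apply, add_assoc, ← map_add]
        have h2 : g.symm (q v) - q v + (q v - g.symm (q v)) = 0 := by abel
        rw [h2, map_zero, add_zero] }
  have hut : ∀ v, ut v = v + j (g (q v) - q v) := fun v => rfl
  let f : V ≃ᵃ[ℂ] V :=
    AffineEquiv.constVAdd ℂ V t₀ * ut.toAffineEquiv * AffineEquiv.constVAdd ℂ V (-t₀)
  have hfv : ∀ v, f v = t₀ + ut (-t₀ + v) := fun v => rfl
  have hflin : ∀ v, f.linear v = ut v := fun v => rfl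
  -- commutation
  have hug : ∀ γ ∈ base Γ, ∀ v, ut (γ.linear v) = γ.linear (ut v) := by
    intro γ hγ v
    obtain ⟨y, hx1, hx2⟩ := Rl.exists_opE γ hγ
    rw [hut, hut, hq3 γ hγ y hx2, hu.unit.comm y hx1, map_add, ← map_sub, hx2]
  have hc : ∀ γ ∈ base Γ, ∃ c' ∈ Pool.Agent.Y167.lattE (base Γ) j,
      ut (γ t₀ - t₀) - (γ t₀ - t₀) = j ((N : ℝ) • c') := by
    intro γ hγ
    have h1 := hmq _ (ht₀ γ hγ)
    have h2 : (m₁ : ℝ) • q ((n : ℝ) • (γ t₀ - t₀)) = ((m₁ * n : ℕ) : ℝ) • q (γ t₀ - t₀) := by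
      have h3 : q ((n : ℝ) • (γ t₀ - t₀)) = (n : ℝ) • q (γ t₀ - t₀) := by
        rw [← Complex.coe_smul, map_smul, Complex.coe_smul]
      rw [h3, smul_smul]
      push_cast
      rfl
    rw [h2] at h1
    obtain ⟨c', hc', h3⟩ := hu.cong _ h1
    refine ⟨c', hc', ?_⟩
    rw [hut, add_sub_cancel_left]
    congr 1
    have h4 : g (((m₁ * n : ℕ) : ℝ) • q (γ t₀ - t₀)) - ((m₁ * n : ℕ) : ℝ) • q (γ t₀ - t₀)
        = ((m₁ * n : ℕ) : ℝ) • (g (q (γ t₀ - t₀)) - q (γ t₀ - t₀)) := by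
      rw [← Complex.coe_smul, map_smul, Complex.coe_smul, smul_sub]
      rfl
    have h5 : ((m₁ * n * N : ℕ) : ℝ) • c' = ((m₁ * n : ℕ) : ℝ) • ((N : ℝ) • c') := by
      rw [smul_smul]
      push_cast
      rfl
    rw [h4, h5] at h3
    exact smul_right_injective E hmr h3
  have hNl : ∀ c ∈ Pool.Agent.Y167.lattE (base Γ) j, j ((N : ℝ) • c) ∈ latt (trans Γ) := by
    intro c hc
    have h1 := card_smul_latt hQ (b := j c) hc
    have h2 : j ((N : ℝ) • c) = Nat.card (gal Γ) • j c := by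
      rw [Nat.cast_smul_eq_nsmul, map_nsmul]
    rw [h2]
    exact h1
  have hkey : ∀ γ ∈ base Γ, ∃ c' ∈ Pool.Agent.Y167.lattE (base Γ) j,
      ∀ v, f (γ v) = j ((N : ℝ) • c') + γ (f v) := by
    intro γ hγ
    obtain ⟨c', hc', h1⟩ := hc γ hγ
    refine ⟨c', hc', fun v => ?_⟩
    have h2 : γ v = γ t₀ + γ.linear (-t₀ + v) := by
      have : v = t₀ + (-t₀ + v) := by abel
      conv_lhs => rw [this, act_add]
    have h3 : -t₀ + γ v = (γ t₀ - t₀) + γ.linear (-t₀ + v) := by rw [h2]; abel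
    rw [hfv, hfv, h3, map_add, hug γ hγ, act_add]
    have h4 : ut (γ t₀ - t₀) = j ((N : ℝ) • c') + (γ t₀ - t₀) := by rw [← h1]; abel
    rw [h4]
    abel
  have hfwd : ∀ γ : V ≃ᵃ[ℂ] V, γ ∈ base Γ → ∃ b ∈ latt (trans Γ),
      f * γ * f⁻¹ = AffineEquiv.constVAdd ℂ V b * γ := by
    intro γ hγ
    obtain ⟨c', hc', h1⟩ := hkey γ hγ
    refine ⟨_, hNl c' hc', ?_⟩
    apply AffineEquiv.ext
    intro v
    change f (γ (f.symm v)) = j ((N : ℝ) • c') + γ v
    rw [h1, f.apply_symm_apply]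
  have hbwd : ∀ γ : V ≃ᵃ[ℂ] V, f * γ * f⁻¹ ∈ base Γ → ∃ b ∈ latt (trans Γ),
      γ = AffineEquiv.constVAdd ℂ V b * (f * γ * f⁻¹) := by
    intro γ hγ'
    obtain ⟨c', hc', h1⟩ := hkey _ hγ'
    refine ⟨j ((N : ℝ) • (-g.symm c')), hNl _ ?_, ?_⟩
    · exact (Pool.Agent.Y167.lattE (base Γ) j).neg_mem (hu.unit.symm _ hc')
    · apply AffineEquiv.ext
      intro v
      apply f.injective
      change f (γ v) = f (j ((N : ℝ) • (-g.symm c')) + (f * γ * f⁻¹) v)
      have h3 : f (j ((N : ℝ) • (-g.symm c')) + (f * γ * f⁻¹) v)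
          = f ((f * γ * f⁻¹) v) + ut (j ((N : ℝ) • (-g.symm c'))) := by
        rw [add_comm, act_add, hflin]
      have h4 : ut (j ((N : ℝ) • (-g.symm c'))) = -j ((N : ℝ) • c') := by
        have h5 : g ((N : ℝ) • (-g.symm c')) = (N : ℝ) • (-c') := by
          rw [← Complex.coe_smul, map_smul, map_neg, g.apply_symm_apply, Complex.coe_smul]
        rw [hut, hq2, ← map_add, h5]
        have h6 : (N : ℝ) • (-g.symm c') + ((N : ℝ) • (-c') - (N : ℝ) • (-g.symm c'))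
            = -((N : ℝ) • c') := by
          rw [smul_neg, smul_neg]
          abel
        rw [h6, map_neg]
      rw [h3, h4, h1]
      change f (γ v) = j ((N : ℝ) • c') + f (γ (f.symm (f v))) + -j ((N : ℝ) • c')
      rw [f.symm_apply_apply]
      abel
  refine ⟨f, fun γ => ⟨fun hγ => ?_, fun hγ' => ?_⟩, fun γ => ⟨fun hγ => ?_, fun hγ' => ?_⟩,
    fun e => ?_, fun v => ⟨q (-t₀ + v), ?_⟩⟩
  · obtain ⟨b, hb, h1⟩ := hfwd γ.1 (mem_base hγ)
    have h2 : (f, (1 : R ≃ₐ[ℂ] R)) * γ * (f, 1)⁻¹ = (AffineEquiv.constVAdd ℂ V b, 1) * γ := by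
      refine Prod.ext h1 ?_
      change 1 * γ.2 * 1⁻¹ = 1 * γ.2
      rw [inv_one, mul_one]
    rw [h2]
    exact Γ.mul_mem (mem_latt_trans.1 hb) hγ
  · have h0 : f * γ.1 * f⁻¹ ∈ base Γ := mem_base hγ'
    obtain ⟨b, hb, h1⟩ := hbwd γ.1 h0
    have h2 : γ = (AffineEquiv.constVAdd ℂ V b, 1) * ((f, (1 : R ≃ₐ[ℂ] R)) * γ * (f, 1)⁻¹) := by
      refine Prod.ext h1 ?_
      change γ.2 = 1 * (1 * γ.2 * 1⁻¹)
      rw [inv_one, mul_one, one_mul, one_mul]
    rw [h2]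
    exact Γ.mul_mem (mem_latt_trans.1 hb) hγ'
  · obtain ⟨b, hb, h1⟩ := hfwd γ hγ
    rw [h1]
    exact (base Γ).mul_mem (latt_trans_le hb) hγ
  · obtain ⟨b, hb, h1⟩ := hbwd γ hγ'
    rw [h1]
    exact (base Γ).mul_mem (latt_trans_le hb) hγ'
  · rw [hflin, hut, hq2, map_sub]
    abel
  · rw [hfv, hut]
    abel

/-! ### The boundary divisor -/

omit [FiniteDimensional ℂ V] in
theorem vert_le : vert 𝒜 Γ ≤ base Γ := by
  rintro _ ⟨γ, ⟨hγ, -⟩, rfl⟩
  exact ⟨γ, hγ, rfl⟩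

omit [FiniteDimensional ℂ V] in
theorem trans_le_vert : trans Γ ≤ vert 𝒜 Γ := by
  rintro t ⟨-, ht⟩
  exact ⟨(t, 1), ⟨ht, (Scal 𝒜).one_mem⟩, rfl⟩

omit [FiniteDimensional ℂ V] in
theorem vert_torus (hQ : IsQuotient 𝒜 u Γ) : IsTorusQuotient (vert 𝒜 Γ) where
  discrete := by
    have hd := hQ.torus.discrete
    let f : latt (vert 𝒜 Γ) → latt (base Γ) := fun e => ⟨e.1, vert_le e.2⟩
    have hf : Continuous f := continuous_subtype_val.subtype_mk _
    exact DiscreteTopology.of_continuous_injective hf (fun e e' h =>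
      Subtype.ext (congrArg (fun z : latt (base Γ) => z.1) h))
  span_top := by
    rw [eq_top_iff, ← (trans_torus hQ).span_top]
    refine Submodule.span_mono fun b hb => ?_
    exact trans_le_vert hb
  finite_linear := hQ.torus.finite_linear.subset (by
    rintro A ⟨γ, hγ, h⟩
    exact ⟨γ, vert_le hγ, h⟩)

/-- The displacement of a good unit lies in the kernels of the Chern forms of the components of
the boundary. -/
theorem ker_of_good2 (hQ : IsQuotient 𝒜 u Γ) (Rl : Rel (base Γ) j H₀) {ι : Type*} [Fintype ι]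
    (Δ : EffDiv 𝒜 Γ ι) (hΔ : NumTrivial Δ j) {m : ℕ} {g : E ≃ₗ[ℂ] E}
    (hu : Pol.IsGood (Pool.Agent.Y167.lattE (base Γ) j) (Pool.Agent.Y167.opE (base Γ) j) m g)
    (e : E) (i : ι) (hi : Δ.r i ≠ 0) (y : V) : Δ.H i (j (g e - e)) y = 0 := by
  obtain ⟨HK, hHK, hCY⟩ := hΔ
  have hmf : MirrorFixed (vert 𝒜 Γ) (j (g e - e)) := fun γ hγ h1 h2 =>
    mirrorFixed Rl hu e γ (vert_le hγ) h1 h2
  have h1 := canonical_zero (vert_torus hQ) hHK hmf
  set k := j (g e - e) with hk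
  have h2 := congrArg Complex.re (hCY (g e - e) (g e - e))
  rw [← hk, Complex.add_re, h1, zero_add, Complex.zero_re] at h2
  have h3 : (∑ i, (Δ.r i : ℂ) * Δ.H i k k).re = ∑ i, Δ.r i * (Δ.H i k k).re := by
    rw [Complex.re_sum]
    exact Finset.sum_congr rfl fun i _ => Complex.re_ofReal_mul _ _
  rw [h3] at h2
  have hnef : ∀ i, IsNefForm (Δ.H i) := fun i =>
    Sheaf.nef_of_section hQ (Δ.chern i) (Δ.sect i) (Δ.ne_zero i)
  have h5 := (Finset.sum_eq_zero_iff_of_nonneg fun i _ =>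
    mul_nonneg (Δ.nonneg i) (hnef i k)).1 h2 i (Finset.mem_univ _)
  have h6 := (mul_eq_zero.1 h5).resolve_left hi
  exact h_isotropic (Δ.chern i).1 (hnef i) k h6 y

/-- The automorphism given by a good unit preserves the boundary. -/
theorem fixed_of_good (hQ : IsQuotient 𝒜 u Γ) (Rl : Rel (base Γ) j H₀) {ι : Type*} [Fintype ι]
    (Δ : EffDiv 𝒜 Γ ι) (hΔ : NumTrivial Δ j) {m : ℕ} {g : E ≃ₗ[ℂ] E}
    (hu : Pol.IsGood (Pool.Agent.Y167.lattE (base Γ) j) (Pool.Agent.Y167.opE (base Γ) j) m g)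
    {f : V ≃ᵃ[ℂ] V} (hf : ∀ v, ∃ e, f v = v + j (g e - e)) : Δ.Fixed f := by
  intro i hi
  obtain ⟨hH, F, hF, hFe⟩ := Δ.chern i
  obtain ⟨-, hpot⟩ := Sheaf.resT_chern (Δ.chern i)
  have hpot' : IsPot (Δ.L i).resT (Δ.H i) F := by
    refine ⟨hF, fun t v => ?_⟩
    exact hFe ⟨(t.1, 1), t.2.2⟩ v
  have hfd : Differentiable ℂ f := affine_differentiable f
  refine ⟨fun v => Complex.exp (F (f v) - F v), ((hF.comp hfd).sub hF).cexp,
    fun v => Complex.exp_ne_zero _, fun v => ?_⟩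
  rw [← sub_eq_zero]
  refine (Module.forall_dual_apply_eq_zero_iff ℂ _).1 fun ℓ => ?_
  rw [map_sub, map_smul, sub_eq_zero, smul_eq_mul]
  obtain ⟨e, he⟩ := hf v
  have h1 := section_ker (trans_torus hQ) hH hpot' (Sheaf.resT_section (Δ.sect i) ℓ)
    (k := j (g e - e)) (fun y => ker_of_good2 hQ Rl Δ hΔ hu e i hi y) v
  rw [← he] at h1
  have h2 : ℓ (Δ.s i (f v)) = ℓ (Δ.s i (f v)) * Complex.exp (-F (f v)) * Complex.exp (F (f v)) := by
    rw [mul_assoc, ← Complex.exp_add, neg_add_cancel, Complex.exp_zero, mul_one]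
  rw [h2, h1]
  beta_reduce
  rw [sub_eq_add_neg, Complex.exp_add]
  ring

end Pool.Agent.X324.CF
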