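import Pool.Agent.X324.CF.Shf

/-!
# The space of numerical classes and the cones
-/

set_option autoImplicit false

namespace Pool.Agent.X324.CF

open Finset Filter Topology
open Pool.Agent.W594.SYZ2 Pool.Agent.W594.SYZ2.TQ Pool.Agent.TH735.AQ
open Pool.Agent.Y167 (cone cone_add cone_smul cone_le cone_mono cone_sum mem_cone_self
  zero_mem_cone cone_image cone_ind cone_of_scaled Rel Pol Cp)

/-! ### The convex cone spanned by a set -/

section Hull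

variable {W : Type*} [AddCommGroup W] [Module ℝ W] {P Q : Set W}

theorem hull_mem {a : W} (h : a ∈ P) : a ∈ coneHull P :=
  ⟨{a}, by simpa using h, mem_cone_self (Finset.mem_singleton_self a)⟩

theorem hull_zero : (0 : W) ∈ coneHull P := ⟨∅, by simp, zero_mem_cone _⟩

theorem hull_add {a b : W} (ha : a ∈ coneHull P) (hb : b ∈ coneHull P) : a + b ∈ coneHull P := by
  classical
  obtain ⟨S, hS, h1⟩ := ha
  obtain ⟨T, hT, h2⟩ := hb
  refine ⟨S ∪ T, ?_, cone_add (cone_mono Finset.subset_union_left h1)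
    (cone_mono Finset.subset_union_right h2)⟩
  rw [Finset.coe_union]
  exact Set.union_subset hS hT

theorem hull_smul {a : W} {t : ℝ} (ht : 0 ≤ t) (ha : a ∈ coneHull P) : t • a ∈ coneHull P := by
  obtain ⟨S, hS, h1⟩ := ha
  exact ⟨S, hS, cone_smul h1 ht⟩

theorem hull_scaled {a : W} {k : ℝ} (hk : 0 < k) (h : k • a ∈ P) : a ∈ coneHull P := by
  have h1 := hull_smul (inv_nonneg.2 hk.le) (hull_mem h)
  rwa [smul_smul, inv_mul_cancel₀ hk.ne', one_smul] at h1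

theorem hull_of_cone {S : Finset W} (hS : ∀ a ∈ S, a ∈ coneHull P) {x : W} (hx : x ∈ cone S) :
    x ∈ coneHull P :=
  cone_ind (p := fun x => x ∈ coneHull P) hull_zero (fun _ _ h1 h2 => hull_add h1 h2)
    (fun _ _ ht h => hull_smul ht h) hS hx

theorem hull_le (h : ∀ a ∈ P, a ∈ coneHull Q) : coneHull P ⊆ coneHull Q := by
  rintro x ⟨S, hS, hx⟩
  exact hull_of_cone (fun a ha => h a (hS ha)) hx

/-- A property preserved by sums and nonnegative multiples. -/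
theorem hull_ind {p : W → Prop} (h0 : p 0) (hadd : ∀ x y, p x → p y → p (x + y))
    (hsmul : ∀ (t : ℝ) (x : W), 0 ≤ t → p x → p (t • x)) (hP : ∀ a ∈ P, p a) {x : W}
    (hx : x ∈ coneHull P) : p x := by
  obtain ⟨S, hS, hx⟩ := hx
  exact cone_ind (p := p) h0 hadd hsmul (fun a ha => hP a (hS ha)) hx

end Hull

variable {V E R : Type*} [NormedAddCommGroup V] [NormedSpace ℂ V]
  [NormedAddCommGroup E] [NormedSpace ℂ E] [CommRing R] [Algebra ℂ R] {ρ n : ℕ}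
  {𝒜 : Cl ρ → Submodule ℂ R} {Γ : Grp V R} {x : Fin n → R} {w : Fin n → Cl ρ} {u : Cl ρ}
  {j : E →ₗ[ℂ] V}

/-- The lattice of invariant classes. -/
def invL (𝒜 : Cl ρ → Submodule ℂ R) (Γ : Grp V R) : AddSubgroup (Fin ρ → ℝ) where
  carrier := {b | ∃ β, Inv 𝒜 Γ β ∧ b = rv β}
  zero_mem' := ⟨0, Inv.zero, rv_zero.symm⟩
  add_mem' := by
    rintro _ _ ⟨β, h, rfl⟩ ⟨β', h', rfl⟩
    exact ⟨β + β', h.add h', (rv_add _ _).symm⟩
  neg_mem' := by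
    rintro _ ⟨β, h, rfl⟩
    exact ⟨-β, h.neg, (rv_neg _).symm⟩

/-- The real space of invariant classes. -/
noncomputable def Bs (𝒜 : Cl ρ → Submodule ℂ R) (Γ : Grp V R) : Submodule ℝ (Fin ρ → ℝ) :=
  Submodule.span ℝ (invL 𝒜 Γ : Set (Fin ρ → ℝ))

theorem expo_ne (hQ : IsQuotient 𝒜 u Γ) : (expo Γ : ℝ) ≠ 0 := by
  have := expo_pos hQ
  exact_mod_cast this.ne'

theorem isClass_toLB (hQ : IsQuotient 𝒜 u Γ) {𝓛 : Sheaf 𝒜 Γ} {h : Pairs E ρ}
    (hc : IsClass j 𝓛 h) : Pool.Agent.Y167.IsClass j (𝓛.toLB hQ) ((expo Γ : ℝ) • h.1) := by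
  obtain ⟨⟨H, hH, h1⟩, -⟩ := hc
  refine ⟨_, 𝓛.toLB_chern hQ hH, fun u w => ?_⟩
  change (expo Γ : ℝ) • h.1 u w = (expo Γ : ℂ) * H (j u) (j w)
  rw [h1, Complex.real_smul]
  push_cast
  rfl

theorem mem_form (hQ : IsQuotient 𝒜 u Γ) {h : Pairs E ρ} (hh : h ∈ N1s 𝒜 Γ j) :
    h.1 ∈ Pool.Agent.Y167.N1s (base Γ) j := by
  induction hh using Submodule.span_induction with
  | mem h hh =>
    obtain ⟨𝓛, hc⟩ := hh
    have h1 : (expo Γ : ℝ) • h.1 ∈ Pool.Agent.Y167.N1s (base Γ) j :=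
      Submodule.subset_span ⟨_, isClass_toLB hQ hc⟩
    have h2 := Submodule.smul_mem _ (expo Γ : ℝ)⁻¹ h1
    rwa [smul_smul, inv_mul_cancel₀ (expo_ne hQ), one_smul] at h2
  | zero => exact Submodule.zero_mem _
  | add a b _ _ ha hb => exact Submodule.add_mem _ ha hb
  | smul c a _ ha => exact Submodule.smul_mem _ c ha

theorem mem_deg {h : Pairs E ρ} (hh : h ∈ N1s 𝒜 Γ j) : h.2 ∈ Bs 𝒜 Γ := by
  induction hh using Submodule.span_induction with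
  | mem h hh =>
    obtain ⟨𝓛, -, hc⟩ := hh
    exact Submodule.subset_span ⟨𝓛.deg, 𝓛.inv, funext hc⟩
  | zero => exact Submodule.zero_mem _
  | add a b _ _ ha hb => exact Submodule.add_mem _ ha hb
  | smul c a _ ha => exact Submodule.smul_mem _ c ha

theorem isClass_ofLB {L : LineBundle (base Γ)} {h : E → E → ℂ}
    (hc : Pool.Agent.Y167.IsClass j L h) :
    IsClass j (Sheaf.ofLB L : Sheaf 𝒜 Γ) ((h, 0) : Pairs E ρ) := by
  obtain ⟨H, hH, h1⟩ := hc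
  exact ⟨⟨H, Sheaf.ofLB_chern hH, h1⟩, fun i => by simp [Sheaf.ofLB]⟩

theorem mem_of_form {a : E → E → ℂ} (ha : a ∈ Pool.Agent.Y167.N1s (base Γ) j) :
    ((a, 0) : Pairs E ρ) ∈ N1s 𝒜 Γ j := by
  induction ha using Submodule.span_induction with
  | mem a ha =>
    obtain ⟨L, hL⟩ := ha
    exact Submodule.subset_span ⟨_, isClass_ofLB hL⟩
  | zero => exact Submodule.zero_mem _
  | add a b _ _ ha hb =>
    have h1 : ((a + b, 0) : Pairs E ρ) = (a, 0) + (b, 0) := by rw [Prod.mk_add_mk, add_zero]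
    rw [h1]
    exact Submodule.add_mem _ ha hb
  | smul c a _ ha =>
    have h1 : ((c • a, 0) : Pairs E ρ) = c • (a, 0) := by rw [Prod.smul_mk, smul_zero]
    rw [h1]
    exact Submodule.smul_mem _ c ha

theorem isClass_ofDeg (D : Base 𝒜 w) (hQ : IsQuotient 𝒜 u Γ) {β : Cl ρ}
    (hβ : Inv 𝒜 Γ β) :
    IsClass j (ofDeg D hQ β hβ) ((0, (Nat.card (gal Γ) : ℝ) • rv β) : Pairs E ρ) := by
  refine ⟨⟨_, ofDeg_chern, fun _ _ => rfl⟩, fun i => ?_⟩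
  simp [ofDeg, rv]

theorem card_ne (hQ : IsQuotient 𝒜 u Γ) : (Nat.card (gal Γ) : ℝ) ≠ 0 := by
  have := hQ.fin_gal
  have : 0 < Nat.card (gal Γ) := Nat.card_pos
  exact_mod_cast this.ne'

theorem mem_of_deg (D : Base 𝒜 w) (hQ : IsQuotient 𝒜 u Γ) {b : Fin ρ → ℝ}
    (hb : b ∈ Bs 𝒜 Γ) : ((0, b) : Pairs E ρ) ∈ N1s 𝒜 Γ j := by
  induction hb using Submodule.span_induction with
  | mem b hb =>
    obtain ⟨β, hβ, rfl⟩ := hb
    have h1 : ((0, (Nat.card (gal Γ) : ℝ) • rv β) : Pairs E ρ) ∈ N1s 𝒜 Γ j :=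
      Submodule.subset_span ⟨_, isClass_ofDeg D hQ hβ⟩
    have h2 := Submodule.smul_mem _ (Nat.card (gal Γ) : ℝ)⁻¹ h1
    rwa [Prod.smul_mk, smul_zero, smul_smul, inv_mul_cancel₀ (card_ne hQ), one_smul] at h2
  | zero => exact Submodule.zero_mem _
  | add a b _ _ ha hb =>
    have h1 : ((0, a + b) : Pairs E ρ) = (0, a) + (0, b) := by rw [Prod.mk_add_mk, add_zero]
    rw [h1]
    exact Submodule.add_mem _ ha hb
  | smul c a _ ha =>
    have h1 : ((0, c • a) : Pairs E ρ) = c • (0, a) := by rw [Prod.smul_mk, smul_zero]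
    rw [h1]
    exact Submodule.smul_mem _ c ha

/-- The form of a class. -/
noncomputable def p1 (hQ : IsQuotient 𝒜 u Γ) : N1 𝒜 Γ j →ₗ[ℝ] Pool.Agent.Y167.N1 (base Γ) j where
  toFun x := ⟨(val x).1, mem_form hQ x.2⟩
  map_add' _ _ := rfl
  map_smul' _ _ := rfl

/-- The degree of a class. -/
noncomputable def p2 : N1 𝒜 Γ j →ₗ[ℝ] Bs 𝒜 Γ where
  toFun x := ⟨(val x).2, mem_deg x.2⟩
  map_add' _ _ := rfl
  map_smul' _ _ := rfl

/-- The class with a given form and degree zero. -/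
noncomputable def i1 : Pool.Agent.Y167.N1 (base Γ) j →ₗ[ℝ] N1 𝒜 Γ j where
  toFun a := ⟨(a.1, 0), mem_of_form a.2⟩
  map_add' a b := Subtype.ext (by
    change ((a.1 + b.1, 0) : Pairs E ρ) = (a.1, 0) + (b.1, 0)
    rw [Prod.mk_add_mk, add_zero])
  map_smul' c a := Subtype.ext (by
    change ((c • a.1, 0) : Pairs E ρ) = c • (a.1, 0)
    rw [Prod.smul_mk, smul_zero])

/-- The class with a given degree and the form zero. -/
noncomputable def i2 (D : Base 𝒜 w) (hQ : IsQuotient 𝒜 u Γ) :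
    Bs 𝒜 Γ →ₗ[ℝ] N1 𝒜 Γ j where
  toFun a := ⟨(0, a.1), mem_of_deg D hQ a.2⟩
  map_add' a b := Subtype.ext (by
    change ((0, a.1 + b.1) : Pairs E ρ) = (0, a.1) + (0, b.1)
    rw [Prod.mk_add_mk, add_zero])
  map_smul' c a := Subtype.ext (by
    change ((0, c • a.1) : Pairs E ρ) = c • (0, a.1)
    rw [Prod.smul_mk, smul_zero])

theorem val_ext {a b : N1 𝒜 Γ j} (h : val a = val b) : a = b := Subtype.ext h

theorem val_i1 (a : Pool.Agent.Y167.N1 (base Γ) j) : val (i1 a : N1 𝒜 Γ j) = (a.1, 0) := rfl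

theorem val_i2 (D : Base 𝒜 w) (hQ : IsQuotient 𝒜 u Γ) (b : Bs 𝒜 Γ) :
    val (i2 D hQ b : N1 𝒜 Γ j) = (0, b.1) := rfl

theorem split (D : Base 𝒜 w) (hQ : IsQuotient 𝒜 u Γ) (a : N1 𝒜 Γ j) :
    i1 (p1 hQ a) + i2 D hQ (p2 a) = a := by
  apply val_ext
  change (((val a).1, 0) : Pairs E ρ) + (0, (val a).2) = val a
  rw [Prod.mk_add_mk, add_zero, zero_add]

/-! ### Integral classes -/

theorem Int.add {a b : N1 𝒜 Γ j} (ha : a ∈ integral 𝒜 Γ j) (hb : b ∈ integral 𝒜 Γ j) :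
    a + b ∈ integral 𝒜 Γ j := by
  obtain ⟨𝓛, ⟨H, hH, h1⟩, h2⟩ := ha
  obtain ⟨𝓜, ⟨H', hH', h1'⟩, h2'⟩ := hb
  refine ⟨𝓛.tensor 𝓜, ⟨_, Sheaf.chern_tensor hH hH', fun u w => ?_⟩, fun i => ?_⟩
  · change (val a).1 u w + (val b).1 u w = _
    rw [h1, h1']
  · change (val a).2 i + (val b).2 i = _
    rw [h2, h2']
    simp [Sheaf.tensor]

theorem Int.neg {a : N1 𝒜 Γ j} (ha : a ∈ integral 𝒜 Γ j) : -a ∈ integral 𝒜 Γ j := by
  obtain ⟨𝓛, ⟨H, hH, h1⟩, h2⟩ := ha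
  refine ⟨𝓛.dual, ⟨_, Sheaf.chern_dual hH, fun u w => ?_⟩, fun i => ?_⟩
  · change -(val a).1 u w = _
    rw [h1]
  · change -(val a).2 i = _
    rw [h2]
    simp [Sheaf.dual]

theorem Int.i1 {a : Pool.Agent.Y167.N1 (base Γ) j} (ha : Pool.Agent.Y167.Integral a) :
    (CF.i1 a : N1 𝒜 Γ j) ∈ integral 𝒜 Γ j := by
  obtain ⟨L, hL⟩ := ha
  exact ⟨_, isClass_ofLB hL⟩

theorem Int.zero : (0 : N1 𝒜 Γ j) ∈ integral 𝒜 Γ j := by
  have h1 := Int.i1 (𝒜 := 𝒜) (j := j) (Γ := Γ) Pool.Agent.Y167.Integral.zero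
  rwa [map_zero] at h1

/-- The group of integral classes. -/
noncomputable def intL (𝒜 : Cl ρ → Submodule ℂ R) (Γ : Grp V R) (j : E →ₗ[ℂ] V) :
    AddSubgroup (N1 𝒜 Γ j) where
  carrier := integral 𝒜 Γ j
  zero_mem' := Int.zero
  add_mem' := Int.add
  neg_mem' := Int.neg

theorem Int.p1 (hQ : IsQuotient 𝒜 u Γ) {a : N1 𝒜 Γ j} (ha : a ∈ integral 𝒜 Γ j) :
    Pool.Agent.Y167.Integral ((expo Γ : ℝ) • CF.p1 hQ a) := by
  obtain ⟨𝓛, hc⟩ := ha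
  exact ⟨_, isClass_toLB hQ hc⟩

theorem Int.p2 {a : N1 𝒜 Γ j} (ha : a ∈ integral 𝒜 Γ j) :
    ∃ β, Inv 𝒜 Γ β ∧ (val a).2 = rv β := by
  obtain ⟨𝓛, -, hc⟩ := ha
  exact ⟨𝓛.deg, 𝓛.inv, funext hc⟩

theorem Int.i2 (D : Base 𝒜 w) (hQ : IsQuotient 𝒜 u Γ) {b : Bs 𝒜 Γ} {β : Cl ρ}
    (hβ : Inv 𝒜 Γ β) (hb : b.1 = rv β) :
    ((Nat.card (gal Γ) : ℝ) • CF.i2 D hQ b : N1 𝒜 Γ j) ∈ integral 𝒜 Γ j := by
  refine ⟨ofDeg D hQ β hβ, ?_⟩
  have h1 : val ((Nat.card (gal Γ) : ℝ) • CF.i2 D hQ b : N1 𝒜 Γ j)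
      = (0, (Nat.card (gal Γ) : ℝ) • rv β) := by
    rw [← map_smul, val_i2]
    change ((0, (Nat.card (gal Γ) : ℝ) • b.1) : Pairs E ρ) = _
    rw [hb]
  rw [h1]
  exact isClass_ofDeg D hQ hβ

/-! ### The cones -/

/-- The cone of the classes with semidefinite form and degree in the cone of the family. -/
def KK (𝒜 : Cl ρ → Submodule ℂ R) (Γ : Grp V R) (j : E →ₗ[ℂ] V) (w : Fin n → Cl ρ)
    (𝓘 : Finset (Finset (Fin n))) : Set (N1 𝒜 Γ j) :=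
  {a | (∀ e, 0 ≤ ((val a).1 e e).re) ∧ ∀ I ∈ 𝓘, (val a).2 ∈ CI w I}

variable {𝓘 : Finset (Finset (Fin n))}

theorem KK_zero : (0 : N1 𝒜 Γ j) ∈ KK 𝒜 Γ j w 𝓘 :=
  ⟨fun _ => le_refl (0 : ℝ), fun _ _ => CI_zero⟩

theorem KK_add {a b : N1 𝒜 Γ j} (ha : a ∈ KK 𝒜 Γ j w 𝓘) (hb : b ∈ KK 𝒜 Γ j w 𝓘) :
    a + b ∈ KK 𝒜 Γ j w 𝓘 := by
  refine ⟨fun e => ?_, fun I hI => CI_add (ha.2 I hI) (hb.2 I hI)⟩
  change 0 ≤ ((val a).1 e e + (val b).1 e e).re
  rw [Complex.add_re]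
  exact add_nonneg (ha.1 e) (hb.1 e)

theorem KK_smul {a : N1 𝒜 Γ j} {t : ℝ} (ht : 0 ≤ t) (ha : a ∈ KK 𝒜 Γ j w 𝓘) :
    t • a ∈ KK 𝒜 Γ j w 𝓘 := by
  refine ⟨fun e => ?_, fun I hI => CI_smul (ha.2 I hI) ht⟩
  change 0 ≤ (t • (val a).1 e e).re
  rw [Complex.smul_re]
  exact mul_nonneg ht (ha.1 e)

theorem KK_closed : IsClosed (KK 𝒜 Γ j w 𝓘) := by
  have hval : Continuous (val : N1 𝒜 Γ j → Pairs E ρ) := continuous_subtype_val
  have h1 : KK 𝒜 Γ j w 𝓘 = (⋂ e : E, {a : N1 𝒜 Γ j | 0 ≤ ((val a).1 e e).re}) ∩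
      ⋂ I ∈ 𝓘, {a : N1 𝒜 Γ j | (val a).2 ∈ CI w I} := by
    ext a
    simp [KK]
  rw [h1]
  refine IsClosed.inter (isClosed_iInter fun e => ?_) (isClosed_biInter fun I _ => ?_)
  · refine isClosed_le continuous_const (Complex.continuous_re.comp ?_)
    exact (continuous_apply e).comp ((continuous_apply e).comp (continuous_fst.comp hval))
  · exact (CI_closed w I).preimage (continuous_snd.comp hval)

/-- The closure of the cone spanned by a subset of `KK` is contained in `KK`. -/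
theorem closure_sub {P : Set (N1 𝒜 Γ j)} (hP : P ⊆ KK 𝒜 Γ j w 𝓘) :
    closure (coneHull P) ⊆ KK 𝒜 Γ j w 𝓘 :=
  closure_minimal (fun _ ha => hull_ind (p := fun a => a ∈ KK 𝒜 Γ j w 𝓘) KK_zero
    (fun _ _ h1 h2 => KK_add h1 h2) (fun _ _ ht h => KK_smul ht h) (fun a ha => hP ha) ha) KK_closed

section Sets

variable [FiniteDimensional ℂ V] [IsDomain R] [GradedAlgebra 𝒜]

omit [IsDomain R] in
theorem effective_form (hQ : IsQuotient 𝒜 u Γ) {a : N1 𝒜 Γ j} (ha : a ∈ effective 𝒜 Γ j) (e : E) :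
    0 ≤ ((val a).1 e e).re := by
  obtain ⟨𝓛, f, ⟨⟨H, hH, h1⟩, -⟩, hf, h0⟩ := ha
  rw [h1]
  exact Sheaf.nef_of_section hQ hH hf h0 (j e)

omit [FiniteDimensional ℂ V] in
theorem effective_deg (D : IsMoriDream 𝒜 x w u) {a : N1 𝒜 Γ j} (ha : a ∈ effective 𝒜 Γ j) :
    (val a).2 ∈ CI w Finset.univ := by
  obtain ⟨𝓛, f, ⟨-, h2⟩, hf, v, hv⟩ := ha
  have h3 : (val a).2 = rv 𝓛.deg := funext h2
  rw [h3]
  obtain ⟨c, hc⟩ := exists_mon_ne D.mem D.gen (hf.mem v) hv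
  exact CI_of_nat one_pos (fun i hi => absurd (Finset.mem_univ i) hi)
    (by rw [one_smul]; exact hc.symm)

theorem movable_sub (D : IsMoriDream 𝒜 x w u) (hQ : IsQuotient 𝒜 u Γ) :
    movable 𝒜 Γ j ⊆ KK 𝒜 Γ j w (movF n) := by
  classical
  rintro a ⟨𝓛, hc, hm⟩
  -- a section which is not zero
  have h1 : ∃ f, 𝓛.IsSection f ∧ ∃ v, f v ≠ 0 := by
    by_contra hcon
    push Not at hcon
    have h2 := hm 0 (fun _ => 0) (fun _ => Submodule.zero_mem _) (holo_const 0)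
      (fun f hf v => by rw [hcon f hf v]) 0
    exact not_isUnit_zero h2
  obtain ⟨f, hf, h0⟩ := h1
  have heff : a ∈ effective 𝒜 Γ j := ⟨𝓛, f, hc, hf, h0⟩
  refine ⟨effective_form hQ heff, fun I hI => ?_⟩
  rcases Finset.mem_insert.1 hI with rfl | hI
  · exact effective_deg D heff
  · obtain ⟨i, -, rfl⟩ := Finset.mem_image.1 hI
    have h3 : (val a).2 = rv 𝓛.deg := funext hc.2
    by_contra hcon
    have h4 : ∀ c : Fin n → ℕ, ∑ i, c i • w i = 𝓛.deg → c i ≠ 0 := by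
      intro c hc' hci
      apply hcon
      rw [h3]
      refine CI_of_nat one_pos (c := c) (fun k hk => ?_) (by rw [one_smul]; exact hc'.symm)
      have : k = i := by
        by_contra hne
        exact hk (Finset.mem_erase.2 ⟨hne, Finset.mem_univ _⟩)
      rw [this, hci]
    have h5 := hm (w i) (fun _ => x i) (fun _ => D.mem i) (holo_const _)
      (fun f hf v => dvd_of_no_mon D.mem D.gen h4 (hf.mem v)) 0
    exact (D.prime i).not_isUnit h5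

theorem Sheaf.chern_pow {𝓛 : Sheaf 𝒜 Γ} {H : V → V → ℂ} (h : 𝓛.IsChern H) (m : ℕ) :
    (𝓛.pow m).IsChern (fun v w => (m : ℂ) * H v w) := by
  obtain ⟨hH, F, hF, hFe⟩ := h
  refine ⟨⟨?_, ?_, ?_⟩, fun v => (m : ℂ) * F v, hF.const_mul _, ?_⟩
  · intro u v w
    rw [hH.add_left, mul_add]
  · intro c v w
    rw [hH.smul_left]
    ring
  · intro v w
    rw [map_mul, ← hH.symm, Complex.conj_natCast]
  · intro γ v
    change ‖𝓛.e γ v ^ m‖ ^ 2 = _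
    rw [norm_pow, ← pow_mul, mul_comm, pow_mul, hFe, ← Real.exp_nat_mul]
    congr 1
    have e1 : ∀ z : ℂ, ((m : ℂ) * z).re = (m : ℝ) * z.re := by
      intro z
      have e2 : (m : ℂ) = ((m : ℝ) : ℂ) := by push_cast; rfl
      rw [e2, Complex.re_ofReal_mul]
    rw [e1, e1, e1, e1]
    ring

theorem semiample_sub (D : IsMoriDream 𝒜 x w u) (hQ : IsQuotient 𝒜 u Γ) :
    semiample 𝒜 Γ j u ⊆ KK 𝒜 Γ j w (nefF 𝒜 x u) := by
  classical
  rintro a ⟨𝓛, hc, m, hm, h1⟩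
  have hmr : (0 : ℝ) < m := by exact_mod_cast hm
  have h3 : (val a).2 = rv 𝓛.deg := funext hc.2
  have key : ∀ p, Semistable 𝒜 u p → (val a).2 ∈ CI w (supp x p) := by
    intro p hp
    obtain ⟨f, hf, hf0⟩ := h1 0 p hp
    obtain ⟨c, hc', hc0⟩ := exists_mon D.mem D.gen (hf.mem 0) hf0
    rw [h3]
    refine CI_of_nat hm (fun i hi => hc0 i ?_) hc'.symm
    rw [mem_supp] at hi
    push Not at hi
    exact hi
  refine ⟨fun e => ?_, fun I hI => ?_⟩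
  · obtain ⟨p, hp⟩ := D.point
    obtain ⟨f, hf, hf0⟩ := h1 0 p hp
    obtain ⟨⟨H, hH, h2⟩, -⟩ := hc
    have h4 := Sheaf.nef_of_section hQ (Sheaf.chern_pow hH m) hf.sec ⟨0, fun h => hf0 (by
      rw [h, map_zero])⟩ (j e)
    have e2 : (m : ℂ) = ((m : ℝ) : ℂ) := by push_cast; rfl
    rw [e2, Complex.re_ofReal_mul] at h4
    rw [h2]
    exact nonneg_of_mul_nonneg_right h4 hmr
  · rcases Finset.mem_insert.1 hI with rfl | hI
    · obtain ⟨p, hp⟩ := D.point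
      exact CI_mono (Finset.subset_univ _) (key p hp)
    · obtain ⟨p, hp, rfl⟩ := (Finset.mem_filter.1 hI).2
      exact key p hp

/-! ### Classes of base point free line bundles, and of invariant classes of `F` -/

omit [FiniteDimensional ℂ V] [IsDomain R] in
theorem bpf_effective {L : LineBundle (base Γ)} (hs : ∀ v, ∃ s, L.IsSection s ∧ s v ≠ 0)
    [Nontrivial R] {a : N1 𝒜 Γ j} (ha : IsClass j (Sheaf.ofLB L : Sheaf 𝒜 Γ) (val a)) :
    a ∈ effective 𝒜 Γ j := by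
  obtain ⟨s, hs1, hs2⟩ := hs 0
  refine ⟨_, _, ha, Sheaf.ofLB_section hs1, 0, ?_⟩
  intro h
  rcases smul_eq_zero.1 h with h1 | h1
  · exact hs2 h1
  · exact one_ne_zero h1

omit [FiniteDimensional ℂ V] in
theorem bpf_movable {L : LineBundle (base Γ)} (hs : ∀ v, ∃ s, L.IsSection s ∧ s v ≠ 0)
    {a : N1 𝒜 Γ j} (ha : IsClass j (Sheaf.ofLB L : Sheaf 𝒜 Γ) (val a)) :
    a ∈ movable 𝒜 Γ j := by
  refine ⟨_, ha, fun β F _ _ hdiv v => ?_⟩
  obtain ⟨s, hs1, hs2⟩ := hs v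
  have h1 := hdiv _ (Sheaf.ofLB_section hs1) v
  refine isUnit_of_dvd_unit h1 ?_
  rw [Algebra.smul_def, mul_one]
  exact (IsUnit.mk0 _ hs2).map (algebraMap ℂ R)

omit [FiniteDimensional ℂ V] [IsDomain R] in
theorem bpf_semiample {L : LineBundle (base Γ)} (hs : ∀ v, ∃ s, L.IsSection s ∧ s v ≠ 0)
    {a : N1 𝒜 Γ j} (ha : IsClass j (Sheaf.ofLB L : Sheaf 𝒜 Γ) (val a)) :
    a ∈ semiample 𝒜 Γ j u := by
  refine ⟨_, ha, 1, one_pos, fun v p _ => ?_⟩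
  obtain ⟨s, hs1, hs2⟩ := hs v
  refine ⟨_, Sheaf.pow_one_section (Sheaf.ofLB_section hs1), ?_⟩
  rw [map_smul, map_one, smul_eq_mul, mul_one]
  exact hs2

end Sets

end Pool.Agent.X324.CF
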