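import Pool.Agent.Y167.CCMain

/-!
# Cones of divisors on quotients `(A × F) / G`: definitions

`A = V / Λ` is an abelian variety and `F` a Mori dream space (projective, `ℚ`-factorial, with free
class group `Cl(F) = ℤ^ρ`) with Cox ring `R = ⨁ 𝒜 β`; here `𝒜 β = H⁰(F, O_F(β))`, and `F` is the
quotient of the set of semistable points of `Spec R` by the torus. `X = (A × F) / G` is the quotient of
`V × F` by a group `Γ` of pairs `(a, φ)`, where `a` is an affine transformation of `V` and `φ` an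
automorphism of `R` which permutes the homogeneous pieces, and so gives an automorphism of `F`.
-/

set_option autoImplicit false

namespace Pool.Agent.X324.CF

open Pool.Agent.W594.SYZ2 Pool.Agent.TH735.AQ
open Pool.Agent.Y167 (cone)

/-- The class group of `F`. -/
abbrev Cl (ρ : ℕ) : Type := Fin ρ → ℤ

section Cox

variable {ρ : ℕ} {R : Type*} [CommRing R] [Algebra ℂ R] (𝒜 : Cl ρ → Submodule ℂ R)

/-- The point `p` of `Spec R` is semistable for the class `u`: it lies over a point of `F`, if `u` is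
the class of an ample divisor. -/
def Semistable (u : Cl ρ) (p : R →ₐ[ℂ] ℂ) : Prop := ∃ m : ℕ, 0 < m ∧ ∃ r ∈ 𝒜 (m • u), p r ≠ 0

/-- The class `β` is semiample on `F`: some multiple `O_F(m β)`, `m > 0`, has at each point of `F` a
section which does not vanish there. -/
def SemiampleF (u β : Cl ρ) : Prop :=
  ∃ m : ℕ, 0 < m ∧ ∀ p : R →ₐ[ℂ] ℂ, Semistable 𝒜 u p → ∃ r ∈ 𝒜 (m • β), p r ≠ 0

/-- `F` is a Mori dream space with ample class `u` and Cox ring `R`: `R` is factorial and generated by
finitely many homogeneous prime elements `x i`, pairwise not associated, which define nonempty prime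
divisors of `F`; the classes of these divisors generate `Cl(F)`; `F` is not empty, and the only
functions on `F` are the constants; every class becomes semiample when a multiple of `u` is added
(`u` is ample, and `F` is `ℚ`-factorial). -/
structure IsMoriDream {n : ℕ} (x : Fin n → R) (w : Fin n → Cl ρ) (u : Cl ρ) : Prop where
  ufd : UniqueFactorizationMonoid R
  point : ∃ p : R →ₐ[ℂ] ℂ, Semistable 𝒜 u p
  span : ∀ β : Cl ρ, ∃ c : Fin n → ℤ, β = ∑ i, c i • w i
  mem : ∀ i, x i ∈ 𝒜 (w i)
  prime : ∀ i, Prime (x i)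
  non_assoc : ∀ i k, i ≠ k → ¬ Associated (x i) (x k)
  gen : Algebra.adjoin ℂ (Set.range x) = ⊤
  nonempty : ∀ i, ∃ p : R →ₐ[ℂ] ℂ, Semistable 𝒜 u p ∧ p (x i) = 0
  const : ∀ r ∈ 𝒜 0, ∃ c : ℂ, r = algebraMap ℂ R c
  ample : ∀ β : Cl ρ, ∃ m : ℕ, SemiampleF 𝒜 u (β + m • u)

/-- `F` is a normal projective variety, `ℚ`-factorial with free class group `Cl(F) = ℤ^ρ`, with ample
class `u`, such that the nef cone is spanned by the finitely many semiample classes `w i`. Here
`R = ⨁ H⁰(F, O_F(β))` need not be finitely generated. The conditions say: `F` is not empty, the only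
functions on `F` are the constants, the sheaf `O_F(β)` is trivial only for `β = 0`, every class becomes
effective and semiample when a multiple of `u` is added, the `w i` are nonzero semiample classes, and
all semiample classes are in the cone which they span. -/
structure IsNefPolyhedral {n : ℕ} (w : Fin n → Cl ρ) (u : Cl ρ) : Prop where
  point : ∃ p : R →ₐ[ℂ] ℂ, Semistable 𝒜 u p
  const : ∀ r ∈ 𝒜 0, ∃ c : ℂ, r = algebraMap ℂ R c
  unit : ∀ β, ∀ r ∈ 𝒜 β, IsUnit r → β = 0
  sections : ∀ β : Cl ρ, ∃ m : ℕ, (∃ r ∈ 𝒜 (β + m • u), r ≠ 0) ∧ ∃ r ∈ 𝒜 (m • u), r ≠ 0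
  ample : ∀ β : Cl ρ, ∃ m : ℕ, SemiampleF 𝒜 u (β + m • u)
  ne_zero : ∀ i, w i ≠ 0
  semiample : ∀ i, SemiampleF 𝒜 u (w i)
  span : ∀ β : Cl ρ, SemiampleF 𝒜 u β → ∃ c : Fin n → ℝ, (∀ i, 0 ≤ c i) ∧
    ∀ k, (β k : ℝ) = ∑ i, c i * w i k

/-- The automorphism `φ` of `R` maps the piece of degree `β` into the piece of degree `σ β`: the
automorphism of `F` given by `φ` acts on `Cl(F)` by `σ`. -/
def Induces (φ : R ≃ₐ[ℂ] R) (σ : Cl ρ ≃+ Cl ρ) : Prop := ∀ β, ∀ r ∈ 𝒜 β, φ r ∈ 𝒜 (σ β)

/-- The automorphisms of `R` which are given by a scalar on each piece: they act trivially on `F`. -/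
def Scal : Subgroup (R ≃ₐ[ℂ] R) where
  carrier := {φ | ∀ β, ∃ c : ℂ, ∀ r ∈ 𝒜 β, φ r = c • r}
  one_mem' := fun _ => ⟨1, fun r _ => by rw [one_smul]; rfl⟩
  mul_mem' := fun {φ ψ} hφ hψ β => by
    obtain ⟨c, hc⟩ := hφ β
    obtain ⟨d, hd⟩ := hψ β
    refine ⟨c * d, fun r hr => ?_⟩
    change φ (ψ r) = _
    rw [hd r hr, map_smul, hc r hr, smul_smul, mul_comm]
  inv_mem' := fun {φ} hφ β => by
    obtain ⟨c, hc⟩ := hφ β
    refine ⟨c⁻¹, fun r hr => ?_⟩
    change φ.symm r = _
    rw [AlgEquiv.symm_apply_eq, map_smul, hc r hr, smul_smul]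
    by_cases h : c = 0
    · have h1 : φ r = 0 := by rw [hc r hr, h, zero_smul]
      have h2 : r = 0 := by rwa [map_eq_zero_iff _ φ.injective] at h1
      rw [h2, smul_zero]
    · rw [inv_mul_cancel₀ h, one_smul]

end Cox

/-- The pairs `(a, φ)`, where `a` is an affine transformation of `V` and `φ` is an automorphism of
`R`. -/
abbrev Elt (V R : Type*) [NormedAddCommGroup V] [NormedSpace ℂ V] [CommRing R] [Algebra ℂ R] :
    Type _ := (V ≃ᵃ[ℂ] V) × (R ≃ₐ[ℂ] R)

instance instGroupElt (V R : Type*) [NormedAddCommGroup V] [NormedSpace ℂ V] [CommRing R]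
    [Algebra ℂ R] : Group (Elt V R) := Prod.instGroup

/-- The groups of pairs `(a, φ)`. -/
abbrev Grp (V R : Type*) [NormedAddCommGroup V] [NormedSpace ℂ V] [CommRing R] [Algebra ℂ R] :
    Type _ := Subgroup (Elt V R)

section Sheaves

variable {V R : Type*} [NormedAddCommGroup V] [NormedSpace ℂ V] [CommRing R] [Algebra ℂ R]
  {ρ : ℕ}

/-- The group of the affine transformations `a` which occur in the pairs `(a, φ)`: the quotient
`V / Γ` by this group is the quotient `A / G`. -/
def base (Γ : Grp V R) : Subgroup (V ≃ᵃ[ℂ] V) := Γ.map (MonoidHom.fst _ _)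

variable (𝒜 : Cl ρ → Submodule ℂ R)

/-- The class `β` is invariant under `Γ`. -/
def Inv (Γ : Grp V R) (β : Cl ρ) : Prop := ∀ γ ∈ Γ, ∀ σ, Induces 𝒜 γ.2 σ → σ β = β

/-- `X = (V × F) / Γ` is the quotient of `A × F` by a finite group, where `A` is a complex torus: the
affine transformations form the group of a torus quotient, finitely many automorphisms of `F` occur,
and the ample class `u` is invariant. (The finite group acts diagonally; the action need not be
free.) -/
structure IsQuotient (u : Cl ρ) (Γ : Grp V R) : Prop where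
  torus : IsTorusQuotient (base Γ)
  finite : {φ : R ≃ₐ[ℂ] R | ∃ γ ∈ Γ, γ.2 = φ}.Finite
  perm : ∀ γ ∈ Γ, ∃ σ, Induces 𝒜 γ.2 σ
  inv : Inv 𝒜 Γ u

/-- The function `f` on `V` with values in `R` is holomorphic. (It is used for functions with values
in a homogeneous piece of `R`, which has finite dimension.) -/
def Holo (f : V → R) : Prop := ∀ ℓ : R →ₗ[ℂ] ℂ, Differentiable ℂ fun v => ℓ (f v)

/-- A reflexive sheaf of rank one on `X = (V × F) / Γ`: a class `deg` of `F` which is invariant under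
`Γ`, and a factor of automorphy `e` such that the elements of `Γ` which act trivially on `V × F` (they
act on `R` by a character `χ` of the torus) act trivially on the sheaf. (The reflexive sheaves of rank
one on `V × F` are the pullbacks of the sheaves `O_F(β)`.) -/
structure Sheaf (Γ : Grp V R) where
  deg : Cl ρ
  e : Γ → V → ℂ
  holo : ∀ γ, Differentiable ℂ (e γ)
  ne_zero : ∀ γ v, e γ v ≠ 0
  mul : ∀ (γ δ : Γ) (v : V), e (γ * δ) v = e γ (δ.1.1 v) * e δ v
  inv : Inv 𝒜 Γ deg
  triv : ∀ (γ : Γ) (χ : Multiplicative (Cl ρ) →* ℂ), γ.1.1 = 1 →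
    (∀ β, ∀ r ∈ 𝒜 β, γ.1.2 r = χ (Multiplicative.ofAdd β) • r) → ∀ v,
      e γ v * χ (Multiplicative.ofAdd deg) = 1

namespace Sheaf

variable {𝒜} {Γ : Grp V R}

/-- The global sections of the sheaf: the holomorphic functions `f` on `V` with values in
`𝒜 deg = H⁰(F, O_F(deg))` such that `f (a v) = e_γ(v) φ (f v)` for `γ = (a, φ)` in `Γ`. -/
structure IsSection (𝓛 : Sheaf 𝒜 Γ) (f : V → R) : Prop where
  mem : ∀ v, f v ∈ 𝒜 𝓛.deg
  holo : Holo f
  eq : ∀ (γ : Γ) (v : V), f (γ.1.1 v) = 𝓛.e γ v • γ.1.2 (f v)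

/-- The base locus of the sheaf has codimension at least two: it contains no divisor. Effective
divisors on `V × F` are given by holomorphic functions `E` on `V` with values in a homogeneous piece
of `R`, and such a divisor is contained in the divisor of the section `f` if `E v` divides `f v` for
all `v`. (For `E = 0` the condition says that there is a section which is not zero.) -/
def IsMovable (𝓛 : Sheaf 𝒜 Γ) : Prop :=
  ∀ (β : Cl ρ) (E : V → R), (∀ v, E v ∈ 𝒜 β) → Holo E →
    (∀ f, 𝓛.IsSection f → ∀ v, E v ∣ f v) → ∀ v, IsUnit (E v)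

/-- The global sections of the reflexive tensor power `𝓛^{[m]}`. -/
structure IsPowSection (𝓛 : Sheaf 𝒜 Γ) (m : ℕ) (f : V → R) : Prop where
  mem : ∀ v, f v ∈ 𝒜 (m • 𝓛.deg)
  holo : Holo f
  eq : ∀ (γ : Γ) (v : V), f (γ.1.1 v) = 𝓛.e γ v ^ m • γ.1.2 (f v)

/-- The sheaf is semiample: some positive power has at each point of `X` a section which does not
vanish there. The points of `X` are given by the pairs `(v, p)`, where `p` is semistable. -/
def IsSemiample (𝓛 : Sheaf 𝒜 Γ) (u : Cl ρ) : Prop :=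
  ∃ m : ℕ, 0 < m ∧ ∀ (v : V) (p : R →ₐ[ℂ] ℂ), Semistable 𝒜 u p →
    ∃ f, 𝓛.IsPowSection m f ∧ p (f v) ≠ 0

/-- `H` is the Chern form of the sheaf in the direction of `V`: for some entire function `F` the
formula `|s|² exp (- π H(v,v) - 2 Re F(v))`, where `| |` is a metric of `O_F(deg)` which is invariant
under the finite group of the automorphisms of `F`, defines a metric of the sheaf. -/
def IsChern (𝓛 : Sheaf 𝒜 Γ) (H : V → V → ℂ) : Prop :=
  IsHermitian H ∧ ∃ F : V → ℂ, Differentiable ℂ F ∧ ∀ (γ : Γ) (v : V),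
    ‖𝓛.e γ v‖ ^ 2 = Real.exp (Real.pi * (H (γ.1.1 v) (γ.1.1 v)).re + 2 * (F (γ.1.1 v)).re
      - (Real.pi * (H v v).re + 2 * (F v).re))

end Sheaf

/-- An effective divisor with real coefficients on `X`: `Δ = ∑ i, r i • div (s i)`, where `s i` is a
section, not identically zero, of the sheaf `L i` with Chern form `H i`. -/
structure EffDiv (Γ : Grp V R) (ι : Type*) where
  L : ι → Sheaf 𝒜 Γ
  H : ι → V → V → ℂ
  s : ι → V → R
  r : ι → ℝ
  chern : ∀ i, (L i).IsChern (H i)
  sect : ∀ i, (L i).IsSection (s i)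
  ne_zero : ∀ i, ∃ v, s i v ≠ 0
  nonneg : ∀ i, 0 ≤ r i

/-- The automorphism of `X` given by the affine transformation `f` of `V` and the identity of `F` maps
the divisors of all the sections `s i` with `r i ≠ 0` to themselves, and so the divisor `Δ`. -/
def EffDiv.Fixed {𝒜 : Cl ρ → Submodule ℂ R} {Γ : Grp V R} {ι : Type*} (Δ : EffDiv 𝒜 Γ ι)
    (f : V ≃ᵃ[ℂ] V) : Prop :=
  ∀ i, Δ.r i ≠ 0 → ∃ h : V → ℂ, Differentiable ℂ h ∧ (∀ v, h v ≠ 0) ∧
    ∀ v, Δ.s i (f v) = h v • Δ.s i v

/-- The group of the affine transformations `a` in the pairs `(a, φ)` of `Γ` such that `φ` acts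
trivially on `F`. -/
def vert (Γ : Grp V R) : Subgroup (V ≃ᵃ[ℂ] V) :=
  (Γ ⊓ (Scal 𝒜).comap (MonoidHom.snd _ _)).map (MonoidHom.fst _ _)

/-- `HK` is the Chern form of the canonical divisor of the torus quotient `V / Γ₀`. Here `η` defines
the ramification divisor of `V → V / Γ₀`; the canonical forms on `V / Γ₀` are given by the functions
`g` such that `g η dv` is invariant, and `|g|² exp (- π HK(v,v) - 2 Re F(v))` is the square of the norm
of such a form for a metric with constant curvature. -/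
def IsCanonicalForm (Γ₀ : Subgroup (V ≃ᵃ[ℂ] V)) (HK : V → V → ℂ) : Prop :=
  IsHermitian HK ∧ ∃ η F : V → ℂ, IsRamification Γ₀ η ∧ Differentiable ℂ F ∧ ∀ γ ∈ Γ₀, ∀ v,
    ‖η (γ v)‖ ^ 2 * Real.exp (Real.pi * (HK (γ v) (γ v)).re + 2 * (F (γ v)).re) =
      ‖η v‖ ^ 2 * Real.exp (Real.pi * (HK v v).re + 2 * (F v).re)

/-- `K_X + Δ` is numerically trivial on the curves of the form `C × {point}` which are contracted by
`X → Z`, if `E` is the kernel of `V → W` and `Z = W / Γ'`. Let `V / Γ₀` be the quotient by the group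
`vert`; `X` is the quotient of `(V / Γ₀) × F` by a group for which the projections of the fixed
divisors to `V / Γ₀` are surjective. So the restriction of `K_X` to these curves is that of the
canonical divisor of `V / Γ₀`, which has the Chern form `HK`. -/
def NumTrivial {E : Type*} [NormedAddCommGroup E] [NormedSpace ℂ E] {𝒜 : Cl ρ → Submodule ℂ R}
    {Γ : Grp V R} {ι : Type*} [Fintype ι] (Δ : EffDiv 𝒜 Γ ι) (j : E →ₗ[ℂ] V) : Prop :=
  ∃ HK : V → V → ℂ, IsCanonicalForm (vert 𝒜 Γ) HK ∧
    ∀ u w, HK (j u) (j w) + ∑ i, (Δ.r i : ℂ) * Δ.H i (j u) (j w) = 0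

/-- The pair `(f, id)` normalises `Γ`, so that it induces an automorphism of `X`. -/
def Normalizes (Γ : Grp V R) (f : V ≃ᵃ[ℂ] V) : Prop :=
  ∀ γ, γ ∈ Γ ↔ (f, 1) * γ * (f, 1)⁻¹ ∈ Γ

end Sheaves

/-! ### Numerical classes -/

section Classes

variable {V E R : Type*} [NormedAddCommGroup V] [NormedSpace ℂ V]
  [NormedAddCommGroup E] [NormedSpace ℂ E] [CommRing R] [Algebra ℂ R] {ρ : ℕ}

/-- The pairs of a form on `E` and a real class of `F`. -/
abbrev Pairs (E : Type*) (ρ : ℕ) : Type _ := (E → E → ℂ) × (Fin ρ → ℝ)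

/-- `x` is the class of the sheaf `𝓛` in `N^1(X/Z)`: the restriction to `E` of the Chern form, and the
degree. -/
def IsClass {𝒜 : Cl ρ → Submodule ℂ R} {Γ : Grp V R} (j : E →ₗ[ℂ] V) (𝓛 : Sheaf 𝒜 Γ)
    (x : Pairs E ρ) : Prop :=
  (∃ H : V → V → ℂ, 𝓛.IsChern H ∧ ∀ u w, x.1 u w = H (j u) (j w)) ∧ ∀ i, x.2 i = 𝓛.deg i

variable (𝒜 : Cl ρ → Submodule ℂ R) (Γ : Grp V R) (j : E →ₗ[ℂ] V)

/-- The real vector space spanned by the classes of the reflexive sheaves of rank one. -/
noncomputable def N1s : Submodule ℝ (Pairs E ρ) :=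
  Submodule.span ℝ {x | ∃ 𝓛 : Sheaf 𝒜 Γ, IsClass j 𝓛 x}

/-- The space `N^1(X/Z)` of numerical classes with real coefficients: the real vector space spanned by
the classes of the reflexive sheaves of rank one (`X` is `ℚ`-factorial). -/
def N1 : Type _ := N1s 𝒜 Γ j

noncomputable instance : AddCommGroup (N1 𝒜 Γ j) := Submodule.addCommGroup (N1s 𝒜 Γ j)

noncomputable instance : Module ℝ (N1 𝒜 Γ j) := Submodule.module (N1s 𝒜 Γ j)

noncomputable instance : TopologicalSpace (N1 𝒜 Γ j) :=
  instTopologicalSpaceSubtype (p := fun h => h ∈ N1s 𝒜 Γ j)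

variable {𝒜 Γ j}

/-- The hermitian form and the real class of `F` which make up the class `x`. -/
def val (x : N1 𝒜 Γ j) : Pairs E ρ := x.1

variable (𝒜 Γ j)

/-- The integral classes: the classes of reflexive sheaves of rank one. -/
def integral : Set (N1 𝒜 Γ j) := {x | ∃ 𝓛 : Sheaf 𝒜 Γ, IsClass j 𝓛 (val x)}

/-- The classes of effective divisors: the classes of the sheaves which have a section, not
identically zero. -/
def effective : Set (N1 𝒜 Γ j) :=
  {x | ∃ (𝓛 : Sheaf 𝒜 Γ) (f : V → R), IsClass j 𝓛 (val x) ∧ 𝓛.IsSection f ∧ ∃ v, f v ≠ 0}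

/-- The classes of movable sheaves. -/
def movable : Set (N1 𝒜 Γ j) := {x | ∃ 𝓛 : Sheaf 𝒜 Γ, IsClass j 𝓛 (val x) ∧ 𝓛.IsMovable}

/-- The classes of semiample sheaves. -/
def semiample (u : Cl ρ) : Set (N1 𝒜 Γ j) :=
  {x | ∃ 𝓛 : Sheaf 𝒜 Γ, IsClass j 𝓛 (val x) ∧ 𝓛.IsSemiample u}

end Classes

/-- The convex cone spanned by the set `P`. -/
def coneHull {W : Type*} [AddCommGroup W] [Module ℝ W] (P : Set W) : Set W :=
  {x | ∃ S : Finset W, ↑S ⊆ P ∧ x ∈ cone S}

section Cones

variable {V E R : Type*} [NormedAddCommGroup V] [NormedSpace ℂ V]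
  [NormedAddCommGroup E] [NormedSpace ℂ E] [CommRing R] [Algebra ℂ R] {ρ : ℕ}
  (𝒜 : Cl ρ → Submodule ℂ R) (Γ : Grp V R) (j : E →ₗ[ℂ] V)

/-- The effective cone `Eff(X/Z)`: the convex cone spanned by the classes of effective divisors. (It
is not closed in general.) -/
def effCone : Set (N1 𝒜 Γ j) := coneHull (effective 𝒜 Γ j)

/-- The closed movable cone of `X/Z`: the closure of the convex cone spanned by the classes of movable
divisors. (A divisor `D` is movable relative to `Z` if and only if `D + f^* A` is movable for a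
sufficiently ample divisor `A` on `Z`; these divisors have the same class in `N^1(X/Z)`.) -/
def movCone : Set (N1 𝒜 Γ j) := closure (coneHull (movable 𝒜 Γ j))

/-- The nef cone of `X/Z`: the closure of the convex cone spanned by the classes of semiample
divisors. (Ample divisors are semiample and semiample divisors are nef, and the nef cone is the
closure of the ample cone. A divisor `D` is ample relative to `Z` if and only if `D + f^* A` is ample
for a sufficiently ample divisor `A` on `Z`.) -/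
def nefCone (u : Cl ρ) : Set (N1 𝒜 Γ j) := closure (coneHull (semiample 𝒜 Γ j u))

variable {𝒜 Γ j}

/-- `g` is the pullback on `N^1(X/Z)` by the automorphism of `X` induced by the affine transformation
`f` of `V` and the identity of `F`. -/
def IsPullback (f : V ≃ᵃ[ℂ] V) (g : N1 𝒜 Γ j ≃ₗ[ℝ] N1 𝒜 Γ j) : Prop :=
  ∀ x : N1 𝒜 Γ j, (∀ u w u' w' : E, j u' = f.linear (j u) → j w' = f.linear (j w) →
    (val (g x)).1 u w = (val x).1 u' w') ∧ (val (g x)).2 = (val x).2

end Cones

end Pool.Agent.X324.CF
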