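import Pool.Agent.X324.CF.Pieces

/-!
# The data for the fundamental domain
-/

set_option autoImplicit false

namespace Pool.Agent.X324.CF

open Finset Filter Topology
open Pool.Agent.Y167 (cone CData)

section Gen

variable {W : Type*} [AddCommGroup W] [Module ℝ W]

/-- A finite spanning subset of a lattice inside a cone. -/
theorem exists_Y [FiniteDimensional ℝ W] {L : AddSubgroup W} {K : Set W} {y₀ : W}
    (hadd : ∀ x ∈ K, ∀ y ∈ K, x + y ∈ K) (hsmul : ∀ t : ℝ, 0 ≤ t → ∀ x ∈ K, t • x ∈ K)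
    (yL : y₀ ∈ L) (yK : y₀ ∈ K) (y_int : ∀ x : W, ∃ C : ℝ, 0 < C ∧ C • y₀ - x ∈ K)
    (hspan : Submodule.span ℝ (L : Set W) = ⊤) :
    ∃ Y : Finset W, (∀ y ∈ Y, y ∈ L ∧ y ∈ K) ∧ ∀ φ : W →ₗ[ℝ] W, (∀ y ∈ Y, φ y = 0) → φ = 0 := by
  classical
  obtain ⟨t, ht, htspan, htli⟩ := exists_linearIndependent ℝ (L : Set W)
  have htfin : t.Finite := htli.setFinite
  have hchoose : ∀ x : W, ∃ n : ℕ, (n : ℝ) • y₀ - x ∈ K := by
    intro x
    obtain ⟨C, hC, h1⟩ := y_int x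
    refine ⟨⌈C⌉₊, ?_⟩
    have h2 := hsmul ((⌈C⌉₊ : ℝ) - C) (sub_nonneg.2 (Nat.le_ceil C)) _ yK
    have h3 := hadd _ h2 _ h1
    have h4 : ((⌈C⌉₊ : ℝ) - C) • y₀ + (C • y₀ - x) = (⌈C⌉₊ : ℝ) • y₀ - x := by module
    rwa [h4] at h3
  choose nf hnf using hchoose
  refine ⟨insert y₀ (htfin.toFinset.image fun x => (nf x : ℝ) • y₀ - x), ?_, ?_⟩
  · intro y hy
    rcases Finset.mem_insert.1 hy with rfl | h
    · exact ⟨yL, yK⟩
    · obtain ⟨x, hx, rfl⟩ := Finset.mem_image.1 h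
      rw [htfin.mem_toFinset] at hx
      refine ⟨L.sub_mem ?_ (ht hx), hnf x⟩
      rw [Nat.cast_smul_eq_nsmul]
      exact L.nsmul_mem yL _
  · intro φ hφ
    have h0 : φ y₀ = 0 := hφ _ (Finset.mem_insert_self _ _)
    have h1 : ∀ x ∈ t, φ x = 0 := by
      intro x hx
      have h2 := hφ ((nf x : ℝ) • y₀ - x)
        (Finset.mem_insert_of_mem (Finset.mem_image_of_mem _ (htfin.mem_toFinset.2 hx)))
      rwa [map_sub, map_smul, h0, smul_zero, zero_sub, neg_eq_zero] at h2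
    have h2 : (⊤ : Submodule ℝ W) ≤ LinearMap.ker φ := by
      rw [← hspan, ← htspan, Submodule.span_le]
      intro x hx
      exact h1 x hx
    exact LinearMap.ker_eq_top.1 (top_le_iff.1 h2)

theorem cdata_zero {L : AddSubgroup W} {K : Set W} {ξ : W →ₗ[ℝ] ℝ} {y : W} {Y : Finset W}
    (D : CData L K ξ y Y) : (0 : W) ∈ K := by
  have h1 := D.smul 0 le_rfl _ D.y_N
  rwa [zero_smul] at h1

theorem cdata_span {L : AddSubgroup W} {K : Set W} {ξ : W →ₗ[ℝ] ℝ} {y : W} {Y : Finset W}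
    (D : CData L K ξ y Y) : Submodule.span ℝ (Y : Set W) = ⊤ := by
  by_contra hne
  obtain ⟨f, hf, hle⟩ := Submodule.exists_le_ker_of_lt_top _ (lt_top_iff_ne_top.2 hne)
  apply hf
  ext v
  by_contra hv
  have h1 := D.Y_span (f.smulRight v) (fun y hy => by
    rw [LinearMap.smulRight_apply]
    have h2 : f y = 0 := hle (Submodule.subset_span hy)
    rw [h2, zero_smul])
  have h2 := LinearMap.congr_fun h1 v
  rw [LinearMap.smulRight_apply, LinearMap.zero_apply] at h2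
  rcases smul_eq_zero.1 h2 with h3 | h3
  · exact hv h3
  · apply hv
    rw [h3]
    simp

/-- The data for a product. -/
theorem cdata_prod {W1 W2 : Type*} [AddCommGroup W1] [Module ℝ W1] [AddCommGroup W2] [Module ℝ W2]
    {L : AddSubgroup W} {L1 : AddSubgroup W1} {L2 : AddSubgroup W2} {K1 : Set W1} {K2 : Set W2}
    {ξ1 : W1 →ₗ[ℝ] ℝ} {ξ2 : W2 →ₗ[ℝ] ℝ} {y1 : W1} {y2 : W2} {Y1 : Finset W1} {Y2 : Finset W2}
    (D1 : CData L1 K1 ξ1 y1 Y1) (D2 : CData L2 K2 ξ2 y2 Y2)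
    (p1 : W →ₗ[ℝ] W1) (p2 : W →ₗ[ℝ] W2) (i1 : W1 →ₗ[ℝ] W) (i2 : W2 →ₗ[ℝ] W)
    (h11 : ∀ a, p1 (i1 a) = a) (h21 : ∀ a, p2 (i1 a) = 0) (h12 : ∀ b, p1 (i2 b) = 0)
    (h22 : ∀ b, p2 (i2 b) = b) (hs : ∀ x, i1 (p1 x) + i2 (p2 x) = x) {k : ℕ} (hk : 0 < k)
    (hL1 : ∀ x ∈ L, p1 x ∈ L1) (hL2 : ∀ x ∈ L, p2 x ∈ L2)
    (hi1 : ∀ a ∈ L1, (k : ℝ) • i1 a ∈ L) (hi2 : ∀ b ∈ L2, (k : ℝ) • i2 b ∈ L) :
    ∃ (ξ₀ : W →ₗ[ℝ] ℝ) (Y : Finset W),
      CData L {x | p1 x ∈ K1 ∧ p2 x ∈ K2} ξ₀ ((k : ℝ) • (i1 y1 + i2 y2)) Y := by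
  classical
  have hkr : (0 : ℝ) < k := by exact_mod_cast hk
  have z1 := cdata_zero D1
  have z2 := cdata_zero D2
  have hinj : ∀ x y : W, p1 x = p1 y → p2 x = p2 y → x = y := by
    intro x y h1 h2
    rw [← hs x, ← hs y, h1, h2]
  refine ⟨ξ1 ∘ₗ p1 + ξ2 ∘ₗ p2, Y1.image (fun a => (k : ℝ) • i1 a) ∪
    Y2.image (fun b => (k : ℝ) • i2 b), ?_⟩
  have hp1 : ∀ c : ℝ, ∀ x, p1 (c • ((k : ℝ) • (i1 y1 + i2 y2)) - x) = (c * k) • y1 - p1 x := by
    intro c x
    rw [map_sub, map_smul, map_smul, map_add, h11, h12, add_zero, smul_smul]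
  have hp2 : ∀ c : ℝ, ∀ x, p2 (c • ((k : ℝ) • (i1 y1 + i2 y2)) - x) = (c * k) • y2 - p2 x := by
    intro c x
    rw [map_sub, map_smul, map_smul, map_add, h21, h22, zero_add, smul_smul]
  refine
    { add := fun x hx y hy => ⟨by rw [map_add]; exact D1.add _ hx.1 _ hy.1, by
        rw [map_add]; exact D2.add _ hx.2 _ hy.2⟩
      smul := fun t ht x hx => ⟨by rw [map_smul]; exact D1.smul t ht _ hx.1, by
        rw [map_smul]; exact D2.smul t ht _ hx.2⟩
      xi_int := fun x hx => ?_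
      xi_pos := fun x hx hx0 => ?_
      fin := fun C => ?_
      y_L := ?_
      y_N := ?_
      y_int := fun x => ?_
      dom := fun η => ?_
      sep := fun x hx => ?_
      Y_mem := fun y hy => ?_
      Y_span := fun φ hφ => ?_ }
  · obtain ⟨a, ha⟩ := D1.xi_int _ (hL1 x hx)
    obtain ⟨b, hb⟩ := D2.xi_int _ (hL2 x hx)
    refine ⟨a + b, ?_⟩
    rw [LinearMap.add_apply, LinearMap.comp_apply, LinearMap.comp_apply, ha, hb]
    push_cast
    rfl
  · rw [LinearMap.add_apply, LinearMap.comp_apply, LinearMap.comp_apply]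
    have h1 := D1.xi_nonneg hx.1
    have h2 := D2.xi_nonneg hx.2
    by_cases hx1 : p1 x = 0
    · have hx2 : p2 x ≠ 0 := by
        intro h
        apply hx0
        apply hinj
        · rw [hx1, map_zero]
        · rw [h, map_zero]
      have h3 := D2.xi_pos _ hx.2 hx2
      linarith
    · have h3 := D1.xi_pos _ hx.1 hx1
      linarith
  · refine Set.Finite.of_finite_image (f := fun x => (p1 x, p2 x))
      (((D1.fin C).prod (D2.fin C)).subset ?_) ?_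
    · rintro _ ⟨x, ⟨hxL, hxK, hxC⟩, rfl⟩
      rw [LinearMap.add_apply, LinearMap.comp_apply, LinearMap.comp_apply] at hxC
      have h1 := D1.xi_nonneg hxK.1
      have h2 := D2.xi_nonneg hxK.2
      exact ⟨⟨hL1 x hxL, hxK.1, by linarith⟩, ⟨hL2 x hxL, hxK.2, by linarith⟩⟩
    · rintro x - y - hxy
      exact hinj x y (congrArg Prod.fst hxy) (congrArg Prod.snd hxy)
  · rw [smul_add]
    exact L.add_mem (hi1 _ D1.y_L) (hi2 _ D2.y_L)
  · refine ⟨?_, ?_⟩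
    · change p1 ((k : ℝ) • (i1 y1 + i2 y2)) ∈ K1
      rw [map_smul, map_add, h11, h12, add_zero]
      exact D1.smul _ hkr.le _ D1.y_N
    · change p2 ((k : ℝ) • (i1 y1 + i2 y2)) ∈ K2
      rw [map_smul, map_add, h21, h22, zero_add]
      exact D2.smul _ hkr.le _ D2.y_N
  · obtain ⟨C1, hC1, h1⟩ := D1.y_int (p1 x)
    obtain ⟨C2, hC2, h2⟩ := D2.y_int (p2 x)
    have hck : (C1 + C2) / k * k = C1 + C2 := div_mul_cancel₀ _ hkr.ne'
    refine ⟨(C1 + C2) / k, by positivity, ?_, ?_⟩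
    · rw [hp1, hck]
      have h3 := D1.add _ (D1.smul C2 hC2.le _ D1.y_N) _ h1
      have h4 : C2 • y1 + (C1 • y1 - p1 x) = (C1 + C2) • y1 - p1 x := by module
      rwa [h4] at h3
    · rw [hp2, hck]
      have h3 := D2.add _ (D2.smul C1 hC1.le _ D2.y_N) _ h2
      have h4 : C1 • y2 + (C2 • y2 - p2 x) = (C1 + C2) • y2 - p2 x := by module
      rwa [h4] at h3
  · obtain ⟨C1, h1⟩ := D1.dom (η ∘ₗ i1)
    obtain ⟨C2, h2⟩ := D2.dom (η ∘ₗ i2)
    refine ⟨|C1| + |C2|, fun x hx => ?_⟩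
    have h3 := h1 _ hx.1
    have h4 := h2 _ hx.2
    rw [LinearMap.comp_apply] at h3 h4
    have h5 : η x = η (i1 (p1 x)) + η (i2 (p2 x)) := by rw [← map_add, hs]
    have n1 := D1.xi_nonneg hx.1
    have n2 := D2.xi_nonneg hx.2
    rw [h5, LinearMap.add_apply, LinearMap.comp_apply, LinearMap.comp_apply]
    have h6 := abs_add_le (η (i1 (p1 x))) (η (i2 (p2 x)))
    have h7 : C1 * ξ1 (p1 x) ≤ |C1| * ξ1 (p1 x) := mul_le_mul_of_nonneg_right (le_abs_self _) n1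
    have h8 : C2 * ξ2 (p2 x) ≤ |C2| * ξ2 (p2 x) := mul_le_mul_of_nonneg_right (le_abs_self _) n2
    have h9 : 0 ≤ |C1| * ξ2 (p2 x) := mul_nonneg (abs_nonneg _) n2
    have h10 : 0 ≤ |C2| * ξ1 (p1 x) := mul_nonneg (abs_nonneg _) n1
    nlinarith
  · by_cases hx1 : p1 x = 0
    · have hx2 : p2 x ≠ 0 := by
        intro h
        apply hx
        apply hinj
        · rw [hx1, map_zero]
        · rw [h, map_zero]
      obtain ⟨η, h1, h2⟩ := D2.sep _ hx2
      exact ⟨η ∘ₗ p2, fun y hy => h1 _ (hL2 y hy), h2⟩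
    · obtain ⟨η, h1, h2⟩ := D1.sep _ hx1
      exact ⟨η ∘ₗ p1, fun y hy => h1 _ (hL1 y hy), h2⟩
  · rcases Finset.mem_union.1 hy with h | h
    · obtain ⟨a, ha, rfl⟩ := Finset.mem_image.1 h
      obtain ⟨h1, h2⟩ := D1.Y_mem a ha
      refine ⟨hi1 a h1, ?_, ?_⟩
      · rw [map_smul, h11]
        exact D1.smul _ hkr.le _ h2
      · rw [map_smul, h21, smul_zero]
        exact z2
    · obtain ⟨a, ha, rfl⟩ := Finset.mem_image.1 h
      obtain ⟨h1, h2⟩ := D2.Y_mem a ha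
      refine ⟨hi2 a h1, ?_, ?_⟩
      · rw [map_smul, h12, smul_zero]
        exact z1
      · rw [map_smul, h22]
        exact D2.smul _ hkr.le _ h2
  · have e1 : φ ∘ₗ i1 = 0 := by
      refine LinearMap.ext_on (cdata_span D1) fun a ha => ?_
      have h1 := hφ _ (Finset.mem_union_left _ (Finset.mem_image_of_mem _ ha))
      beta_reduce at h1
      rw [map_smul] at h1
      exact (smul_eq_zero.1 h1).resolve_left hkr.ne'
    have e2 : φ ∘ₗ i2 = 0 := by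
      refine LinearMap.ext_on (cdata_span D2) fun a ha => ?_
      have h1 := hφ _ (Finset.mem_union_right _ (Finset.mem_image_of_mem _ ha))
      beta_reduce at h1
      rw [map_smul] at h1
      exact (smul_eq_zero.1 h1).resolve_left hkr.ne'
    ext x
    rw [← hs x, map_add]
    have f1 := LinearMap.congr_fun e1 (p1 x)
    have f2 := LinearMap.congr_fun e2 (p2 x)
    rw [LinearMap.comp_apply, LinearMap.zero_apply] at f1 f2
    rw [f1, f2, add_zero, LinearMap.zero_apply]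

end Gen

variable {V R : Type*} [NormedAddCommGroup V] [NormedSpace ℂ V] [CommRing R] [IsDomain R]
  [Algebra ℂ R] {ρ n : ℕ} {𝒜 : Cl ρ → Submodule ℂ R} [GradedAlgebra 𝒜] {Γ : Grp V R}
  {x : Fin n → R} {w : Fin n → Cl ρ} {u : Cl ρ} {𝓘 : Finset (Finset (Fin n))}

omit [IsDomain R] [Algebra ℂ R] [CommRing R] [NormedSpace ℂ V] [NormedAddCommGroup V] in
theorem Fam.u_mem (hF : Fam w u 𝓘) {I : Finset (Fin n)} (hI : I ∈ 𝓘) : rv u ∈ CI w I := by
  obtain ⟨m, hm⟩ := hF.ample u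
  have h1 := hm I hI
  have h2 : rv (u + m • u) = ((m : ℝ) + 1) • rv u := by
    rw [rv_add, rv_nsmul]
    module
  rw [h2] at h1
  have h3 : (0 : ℝ) < (m : ℝ) + 1 := by positivity
  have h4 := CI_smul h1 (inv_nonneg.2 h3.le)
  rwa [smul_smul, inv_mul_cancel₀ h3.ne', one_smul] at h4

omit [IsDomain R] [Algebra ℂ R] [CommRing R] [NormedSpace ℂ V] [NormedAddCommGroup V] in
/-- Every real class becomes a member of the cones when a multiple of `u` is added. -/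
theorem Fam.real_ample (hF : Fam w u 𝓘) (b : Fin ρ → ℝ) :
    ∃ C : ℝ, 0 < C ∧ ∀ I ∈ 𝓘, C • rv u - b ∈ CI w I := by
  classical
  choose m hm using hF.ample
  refine ⟨∑ k, |b k| * ((m (Pi.single k 1) : ℝ) + m (-Pi.single k 1)) + 1, by positivity,
    fun I hI => ?_⟩
  have h1 : ∀ k, (|b k| * ((m (Pi.single k 1) : ℝ) + m (-Pi.single k 1))) • rv u
      - b k • rv (Pi.single k 1) ∈ CI w I := by
    intro k
    have hu := hF.u_mem hI
    rcases le_total 0 (b k) with h | h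
    · have h2 := CI_add (CI_smul (hm (-Pi.single k 1) I hI) h)
        (CI_smul hu (t := b k * m (Pi.single k 1)) (by positivity))
      have h3 : b k • rv (-Pi.single k 1 + m (-Pi.single k 1) • u)
          + (b k * m (Pi.single k 1)) • rv u
          = (|b k| * ((m (Pi.single k 1) : ℝ) + m (-Pi.single k 1))) • rv u
            - b k • rv (Pi.single k 1) := by
        rw [abs_of_nonneg h, rv_add, rv_neg, rv_nsmul]
        module
      rwa [h3] at h2
    · have h2 := CI_add (CI_smul (hm (Pi.single k 1) I hI) (neg_nonneg.2 h))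
        (CI_smul hu (t := -b k * m (-Pi.single k 1)) (mul_nonneg (neg_nonneg.2 h)
          (Nat.cast_nonneg _)))
      have h3 : (-b k) • rv (Pi.single k 1 + m (Pi.single k 1) • u)
          + (-b k * m (-Pi.single k 1)) • rv u
          = (|b k| * ((m (Pi.single k 1) : ℝ) + m (-Pi.single k 1))) • rv u
            - b k • rv (Pi.single k 1) := by
        rw [abs_of_nonpos h, rv_add, rv_nsmul]
        module
      rwa [h3] at h2
  have h2 : ∀ s : Finset (Fin ρ), (∑ k ∈ s, |b k| * ((m (Pi.single k 1) : ℝ)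
      + m (-Pi.single k 1))) • rv u - ∑ k ∈ s, b k • rv (Pi.single k 1) ∈ CI w I := by
    intro s
    induction s using Finset.induction_on with
    | empty => simpa using CI_zero
    | insert k s hk ih =>
      rw [Finset.sum_insert hk, Finset.sum_insert hk, add_smul, add_sub_add_comm]
      exact CI_add (h1 k) ih
  have h3 : ∑ k, b k • rv (Pi.single k 1 : Cl ρ) = b := by
    funext l
    rw [Finset.sum_apply, Finset.sum_eq_single l]
    · simp [rv]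
    · intro b' _ hb
      simp [rv, Pi.single_eq_of_ne (Ne.symm hb)]
    · intro h
      exact absurd (Finset.mem_univ _) h
  have h4 := h2 Finset.univ
  rw [h3] at h4
  rw [add_smul, one_smul, add_sub_right_comm]
  exact CI_add h4 (hF.u_mem hI)

/-- The lattice of invariant classes in the space of invariant classes. -/
noncomputable def L2 (𝒜 : Cl ρ → Submodule ℂ R) (Γ : Grp V R) : AddSubgroup (Bs 𝒜 Γ) :=
  (invL 𝒜 Γ).comap (Bs 𝒜 Γ).subtype.toAddMonoidHom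

omit [IsDomain R] [GradedAlgebra 𝒜] in
theorem span_L2 : Submodule.span ℝ (L2 𝒜 Γ : Set (Bs 𝒜 Γ)) = ⊤ := by
  rw [eq_top_iff]
  rintro ⟨b, hb⟩ -
  have h1 : ∀ b, ∀ hb : b ∈ Submodule.span ℝ (invL 𝒜 Γ : Set (Fin ρ → ℝ)),
      ∀ hb' : b ∈ Bs 𝒜 Γ, (⟨b, hb'⟩ : Bs 𝒜 Γ) ∈ Submodule.span ℝ (L2 𝒜 Γ : Set (Bs 𝒜 Γ)) := by
    intro b hb
    induction hb using Submodule.span_induction with
    | mem b hb => exact fun _ => Submodule.subset_span hb
    | zero => exact fun _ => Submodule.zero_mem _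
    | add a b ha hb h1 h2 => exact fun _ => Submodule.add_mem _ (h1 ha) (h2 hb)
    | smul c a ha h1 => exact fun _ => Submodule.smul_mem _ c (h1 ha)
  exact h1 b hb hb

/-- The data for the cone of classes of `F`. -/
theorem cdataF (D : Base 𝒜 w) (hQ : IsQuotient 𝒜 u Γ) (hF : Fam w u 𝓘) :
    ∃ (ξ : Bs 𝒜 Γ →ₗ[ℝ] ℝ) (Y : Finset (Bs 𝒜 Γ)),
      CData (L2 𝒜 Γ) {b | ∀ I ∈ 𝓘, b.1 ∈ CI w I} ξ
        ⟨rv u, Submodule.subset_span ⟨u, hQ.inv, rfl⟩⟩ Y := by
  classical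
  obtain ⟨ξ, hξ⟩ := exists_pos (w := w) D.pointed
  set y₀ : Bs 𝒜 Γ := ⟨rv u, Submodule.subset_span ⟨u, hQ.inv, rfl⟩⟩ with hy₀
  have hadd : ∀ a ∈ {b : Bs 𝒜 Γ | ∀ I ∈ 𝓘, b.1 ∈ CI w I}, ∀ b ∈ {b : Bs 𝒜 Γ | ∀ I ∈ 𝓘,
      b.1 ∈ CI w I}, a + b ∈ {b : Bs 𝒜 Γ | ∀ I ∈ 𝓘, b.1 ∈ CI w I} :=
    fun a ha b hb I hI => CI_add (ha I hI) (hb I hI)
  have hsmul : ∀ t : ℝ, 0 ≤ t → ∀ a ∈ {b : Bs 𝒜 Γ | ∀ I ∈ 𝓘, b.1 ∈ CI w I},
      t • a ∈ {b : Bs 𝒜 Γ | ∀ I ∈ 𝓘, b.1 ∈ CI w I} :=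
    fun t ht a ha I hI => CI_smul (ha I hI) ht
  have yL : y₀ ∈ L2 𝒜 Γ := ⟨u, hQ.inv, rfl⟩
  have yK : y₀ ∈ {b : Bs 𝒜 Γ | ∀ I ∈ 𝓘, b.1 ∈ CI w I} := fun I hI => hF.u_mem hI
  have yint : ∀ b : Bs 𝒜 Γ, ∃ C : ℝ, 0 < C ∧ C • y₀ - b ∈ {b : Bs 𝒜 Γ | ∀ I ∈ 𝓘,
      b.1 ∈ CI w I} := by
    intro b
    obtain ⟨C, hC, h1⟩ := hF.real_ample b.1
    exact ⟨C, hC, h1⟩
  obtain ⟨Y, hY1, hY2⟩ := exists_Y hadd hsmul yL yK yint span_L2
  have hval : ∀ c : Fin n → ℝ, dot (rv ξ) (∑ i, c i • rv (w i))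
      = ∑ i, c i * dot (rv ξ) (rv (w i)) := by
    intro c
    rw [map_sum]
    exact Finset.sum_congr rfl fun i _ => by rw [map_smul, smul_eq_mul]
  refine ⟨dot (rv ξ) ∘ₗ (Bs 𝒜 Γ).subtype, Y,
    { add := hadd
      smul := hsmul
      xi_int := fun b hb => ?_
      xi_pos := fun b hb hb0 => ?_
      fin := fun C => ?_
      y_L := yL
      y_N := yK
      y_int := yint
      dom := fun η => ?_
      sep := fun b hb => ?_
      Y_mem := hY1
      Y_span := hY2 }⟩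
  · obtain ⟨β, -, h1⟩ := hb
    have h2 : (dot (rv ξ) ∘ₗ (Bs 𝒜 Γ).subtype) b = dot (rv ξ) (rv β) := by
      rw [← h1]
      rfl
    rw [h2, dot_int]
    exact ⟨_, rfl⟩
  · change 0 < dot (rv ξ) b.1
    obtain ⟨c, hc, h1⟩ := hb _ hF.univ
    rw [h1, hval]
    refine Finset.sum_pos' (fun i _ => mul_nonneg (hc i) (hξ i).le) ?_
    by_contra hcon
    push Not at hcon
    apply hb0
    apply Subtype.ext
    rw [h1]
    refine Finset.sum_eq_zero fun i hi => ?_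
    have h2 : c i = 0 := by
      by_contra hne
      have h3 : 0 < c i := lt_of_le_of_ne (hc i) (Ne.symm hne)
      exact absurd (mul_pos h3 (hξ i)) (not_lt.2 (hcon i hi))
    rw [h2, zero_smul]
  · -- finiteness
    let B : ℝ := ∑ k : Fin ρ, ∑ i, |C| / dot (rv ξ) (rv (w i)) * |rv (w i) k|
    have hfin : (Set.Icc (fun _ : Fin ρ => -⌈B⌉) (fun _ => ⌈B⌉)).Finite := Set.finite_Icc _ _
    refine ((hfin.image rv).preimage (f := fun b : Bs 𝒜 Γ => b.1)
      Subtype.val_injective.injOn).subset ?_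
    rintro b ⟨⟨β, -, h1⟩, hb2, hb3⟩
    have h1' : b.1 = rv β := h1
    change dot (rv ξ) b.1 ≤ C at hb3
    obtain ⟨c, hc, h2⟩ := hb2 _ hF.univ
    have h3 : ∀ i, c i ≤ |C| / dot (rv ξ) (rv (w i)) := by
      intro i
      rw [le_div_iff₀ (hξ i)]
      rw [h2, hval] at hb3
      exact ((Finset.single_le_sum (f := fun i => c i * dot (rv ξ) (rv (w i)))
        (fun i _ => mul_nonneg (hc i) (hξ i).le) (Finset.mem_univ i)).trans hb3).trans
        (le_abs_self C)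
    have h4 : ∀ k, |(β k : ℝ)| ≤ B := by
      intro k
      have h5 : (β k : ℝ) = ∑ i, c i * rv (w i) k := by
        have h6 := congrFun (h1'.symm.trans h2) k
        rw [Finset.sum_apply] at h6
        exact h6
      rw [h5]
      refine (Finset.abs_sum_le_sum_abs _ _).trans ?_
      have h7 : ∑ i, |c i * rv (w i) k| ≤ ∑ i, |C| / dot (rv ξ) (rv (w i)) * |rv (w i) k| := by
        refine Finset.sum_le_sum fun i _ => ?_
        rw [abs_mul, abs_of_nonneg (hc i)]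
        exact mul_le_mul_of_nonneg_right (h3 i) (abs_nonneg _)
      refine h7.trans ?_
      exact Finset.single_le_sum (f := fun k => ∑ i, |C| / dot (rv ξ) (rv (w i)) * |rv (w i) k|)
        (fun k _ => Finset.sum_nonneg fun i _ =>
          mul_nonneg (div_nonneg (abs_nonneg _) (hξ i).le) (abs_nonneg _)) (Finset.mem_univ k)
    refine ⟨β, ⟨fun k => ?_, fun k => ?_⟩, h1'.symm⟩
    · have h5 := (abs_le.1 (h4 k)).1
      have h6 : (-(⌈B⌉ : ℝ)) ≤ β k := le_trans (neg_le_neg (Int.le_ceil B)) h5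
      exact_mod_cast h6
    · have h5 := (abs_le.1 (h4 k)).2
      have h6 : (β k : ℝ) ≤ ⌈B⌉ := h5.trans (Int.le_ceil B)
      exact_mod_cast h6
  · obtain ⟨η', hη'⟩ := LinearMap.exists_extend (p := Bs 𝒜 Γ) η
    refine ⟨∑ i, |η' (rv (w i))| / dot (rv ξ) (rv (w i)), fun b hb => ?_⟩
    change |η b| ≤ _ * dot (rv ξ) b.1
    have h0 : η b = η' b.1 := by rw [← hη']; rfl
    obtain ⟨c, hc, h2⟩ := hb _ hF.univ
    rw [h0, h2, map_sum, hval, Finset.sum_mul]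
    refine (Finset.abs_sum_le_sum_abs _ _).trans (Finset.sum_le_sum fun i _ => ?_)
    rw [map_smul, smul_eq_mul, abs_mul, abs_of_nonneg (hc i)]
    have h3 : c i * dot (rv ξ) (rv (w i)) ≤ ∑ i, c i * dot (rv ξ) (rv (w i)) :=
      Finset.single_le_sum (f := fun i => c i * dot (rv ξ) (rv (w i)))
        (fun i _ => mul_nonneg (hc i) (hξ i).le) (Finset.mem_univ i)
    calc c i * |η' (rv (w i))| = |η' (rv (w i))| / dot (rv ξ) (rv (w i)) *
          (c i * dot (rv ξ) (rv (w i))) := by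
          have := (hξ i).ne'
          field_simp
      _ ≤ _ := mul_le_mul_of_nonneg_left h3 (div_nonneg (abs_nonneg _) (hξ i).le)
  · have h1 : ∃ k, b.1 k ≠ 0 := by
      by_contra hcon
      push Not at hcon
      exact hb (Subtype.ext (funext hcon))
    obtain ⟨k, hk⟩ := h1
    refine ⟨LinearMap.proj k ∘ₗ (Bs 𝒜 Γ).subtype, fun y hy => ?_, hk⟩
    obtain ⟨β, -, h2⟩ := hy
    refine ⟨β k, ?_⟩
    have h3 : y.1 = rv β := h2
    change y.1 k = _
    rw [h3]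
    rfl

end Pool.Agent.X324.CF
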