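import Pool.Agent.X324.CF.Poly

/-!
# Sections on a Mori dream space
-/

set_option autoImplicit false

namespace Pool.Agent.X324.CF

open Finset

variable {ρ n : ℕ} {R : Type*} [CommRing R] [Algebra ℂ R] {𝒜 : Cl ρ → Submodule ℂ R}
  {x : Fin n → R} {w : Fin n → Cl ρ} {u : Cl ρ}

/-- A vector space over `ℂ` is not a finite union of proper subspaces. -/
theorem avoidC {E ι : Type*} [AddCommGroup E] [Module ℂ E] (s : Finset ι) (sub : ι → Submodule ℂ E)
    (h : ∀ i ∈ s, sub i ≠ ⊤) : ∃ x, ∀ i ∈ s, x ∉ sub i := by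
  classical
  have hnt : (⊤ : Submodule ℂ E) ∉ s.image sub := by
    rw [Finset.mem_image]
    rintro ⟨g, hg, hg2⟩
    exact h g hg hg2
  have hne := Subspace.biUnion_ne_univ_of_top_notMem hnt
  by_contra hcon
  push Not at hcon
  apply hne
  rw [Set.eq_univ_iff_forall]
  intro η
  obtain ⟨g, hg, hgη⟩ := hcon η
  simp only [Set.mem_iUnion]
  exact ⟨sub g, Finset.mem_image_of_mem _ hg, hgη⟩

/-- The monomials. -/
def mon (x : Fin n → R) (c : Fin n → ℕ) : R := ∏ i, x i ^ c i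

theorem mon_mem [GradedAlgebra 𝒜] (hx : ∀ i, x i ∈ 𝒜 (w i)) (c : Fin n → ℕ) :
    mon x c ∈ 𝒜 (∑ i, c i • w i) :=
  SetLike.prod_pow_mem_graded 𝒜 w x c fun i _ => hx i

theorem mem_span_mon [GradedAlgebra 𝒜] (hx : ∀ i, x i ∈ 𝒜 (w i))
    (hgen : Algebra.adjoin ℂ (Set.range x) = ⊤) {β : Cl ρ} {r : R} (hr : r ∈ 𝒜 β) :
    r ∈ Submodule.span ℂ {y | ∃ c : Fin n → ℕ, ∑ i, c i • w i = β ∧ y = mon x c} := by
  classical
  have h1 : ∀ r : R, GradedAlgebra.proj 𝒜 β r ∈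
      Submodule.span ℂ {y | ∃ c : Fin n → ℕ, ∑ i, c i • w i = β ∧ y = mon x c} := by
    intro r
    have h2 : r ∈ Algebra.adjoin ℂ (Set.range x) := by rw [hgen]; trivial
    rw [Algebra.adjoin_range_eq_range_aeval] at h2
    obtain ⟨P, rfl⟩ := h2
    change GradedAlgebra.proj 𝒜 β (MvPolynomial.aeval x P) ∈ _
    rw [MvPolynomial.aeval_def, MvPolynomial.eval₂_eq', map_sum]
    refine Submodule.sum_mem _ fun c _ => ?_
    rw [← Algebra.smul_def, map_smul]
    refine Submodule.smul_mem _ _ ?_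
    have h3 := mon_mem (𝒜 := 𝒜) hx (fun i => c i)
    rw [GradedAlgebra.proj_apply]
    change ((DirectSum.decompose 𝒜 (mon x fun i => c i) β : 𝒜 β) : R) ∈ _
    by_cases hc : ∑ i, c i • w i = β
    · rw [hc] at h3
      rw [DirectSum.decompose_of_mem_same 𝒜 h3]
      exact Submodule.subset_span ⟨_, hc, rfl⟩
    · rw [DirectSum.decompose_of_mem_ne 𝒜 h3 hc]
      exact Submodule.zero_mem _
  have h2 := h1 r
  rwa [GradedAlgebra.proj_apply, DirectSum.decompose_of_mem_same 𝒜 hr] at h2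

/-- A function which does not vanish at `p` gives a monomial in the variables which do not vanish
at `p`. -/
theorem exists_mon [GradedAlgebra 𝒜] (hx : ∀ i, x i ∈ 𝒜 (w i))
    (hgen : Algebra.adjoin ℂ (Set.range x) = ⊤) {β : Cl ρ} {r : R} (hr : r ∈ 𝒜 β)
    {p : R →ₐ[ℂ] ℂ} (hp : p r ≠ 0) :
    ∃ c : Fin n → ℕ, ∑ i, c i • w i = β ∧ ∀ i, p (x i) = 0 → c i = 0 := by
  by_contra hcon
  push Not at hcon
  apply hp
  have h1 := mem_span_mon hx hgen hr
  refine Submodule.span_induction (p := fun r _ => p r = 0) ?_ (map_zero p)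
    (fun a b _ _ ha hb => by rw [map_add, ha, hb, add_zero])
    (fun c a _ ha => by rw [map_smul, ha, smul_zero]) h1
  rintro _ ⟨c, hc, rfl⟩
  obtain ⟨i, hi, hci⟩ := hcon c hc
  rw [mon, map_prod]
  refine Finset.prod_eq_zero (Finset.mem_univ i) ?_
  rw [map_pow, hi, zero_pow hci]

theorem exists_mon_ne [GradedAlgebra 𝒜] (hx : ∀ i, x i ∈ 𝒜 (w i))
    (hgen : Algebra.adjoin ℂ (Set.range x) = ⊤) {β : Cl ρ} {r : R} (hr : r ∈ 𝒜 β)
    (h0 : r ≠ 0) : ∃ c : Fin n → ℕ, ∑ i, c i • w i = β := by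
  by_contra hcon
  push Not at hcon
  apply h0
  have h1 := mem_span_mon hx hgen hr
  refine Submodule.span_induction (p := fun r _ => r = 0) ?_ rfl
    (fun a b _ _ ha hb => by rw [ha, hb, add_zero])
    (fun c a _ ha => by rw [ha, smul_zero]) h1
  rintro _ ⟨c, hc, rfl⟩
  exact absurd hc (hcon c)

theorem dvd_of_no_mon [GradedAlgebra 𝒜] (hx : ∀ i, x i ∈ 𝒜 (w i))
    (hgen : Algebra.adjoin ℂ (Set.range x) = ⊤) {β : Cl ρ} {i : Fin n}
    (h : ∀ c : Fin n → ℕ, ∑ i, c i • w i = β → c i ≠ 0) {r : R} (hr : r ∈ 𝒜 β) : x i ∣ r := by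
  have h1 := mem_span_mon hx hgen hr
  refine Submodule.span_induction (p := fun r _ => x i ∣ r) ?_ (dvd_zero _)
    (fun a b _ _ ha hb => dvd_add ha hb)
    (fun c a _ ha => by rw [Algebra.smul_def]; exact Dvd.dvd.mul_left ha _) h1
  rintro _ ⟨c, hc, rfl⟩
  exact (dvd_pow_self _ (h c hc)).trans (Finset.dvd_prod_of_mem _ (Finset.mem_univ i))

omit [Algebra ℂ R] in
theorem mon_ne_zero [IsDomain R] (hx : ∀ i, Prime (x i)) (c : Fin n → ℕ) : mon x c ≠ 0 :=
  Finset.prod_ne_zero_iff.2 fun i _ => pow_ne_zero _ (hx i).ne_zero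

/-- The cone spanned by the degrees is pointed. -/
theorem pointed [IsDomain R] [GradedAlgebra 𝒜] (D : IsMoriDream 𝒜 x w u) (c : Fin n → ℕ)
    (hc : ∑ i, c i • w i = 0) : c = 0 := by
  have h1 := mon_mem (𝒜 := 𝒜) D.mem c
  rw [hc] at h1
  obtain ⟨a, ha⟩ := D.const _ h1
  have ha0 : a ≠ 0 := by
    rintro rfl
    rw [map_zero] at ha
    exact mon_ne_zero D.prime c ha
  have hunit : IsUnit (mon x c) := by
    rw [ha]
    exact (IsUnit.mk0 a ha0).map (algebraMap ℂ R)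
  funext i
  by_contra hci
  have h2 : x i ∣ mon x c :=
    (dvd_pow_self _ hci).trans (Finset.dvd_prod_of_mem _ (Finset.mem_univ i))
  exact (D.prime i).not_unit (isUnit_of_dvd_unit h2 hunit)

/-! ### Divisors of products of primes -/

theorem dvd_of_dvd_mul_pow [IsDomain R] {p h b : R} (hp : Prime p) (hno : ¬ p ∣ h) :
    ∀ k : ℕ, h ∣ p ^ k * b → h ∣ b := by
  intro k
  induction k with
  | zero => intro h1; rwa [pow_zero, one_mul] at h1
  | succ k ih =>
    rintro ⟨l, hl⟩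
    have h2 : p ∣ h * l := by
      rw [← hl, pow_succ]
      exact Dvd.dvd.mul_right (Dvd.intro_left _ rfl) _
    obtain ⟨l', rfl⟩ := (hp.dvd_or_dvd h2).resolve_left hno
    apply ih
    refine ⟨l', mul_left_cancel₀ hp.ne_zero ?_⟩
    rw [← mul_assoc, ← pow_succ', hl]
    ring

theorem unit_of_dvd_prod [IsDomain R] {ι : Type*} (s : Finset ι) (p : ι → R) (c : ι → ℕ)
    (hp : ∀ i ∈ s, Prime (p i)) {h : R} (hd : h ∣ ∏ i ∈ s, p i ^ c i)
    (hno : ∀ i ∈ s, ¬ p i ∣ h) : IsUnit h := by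
  classical
  induction s using Finset.induction_on with
  | empty => rw [Finset.prod_empty] at hd; exact isUnit_of_dvd_one hd
  | insert i s hi ih =>
    rw [Finset.prod_insert hi] at hd
    exact ih (fun j hj => hp j (Finset.mem_insert_of_mem hj))
      (dvd_of_dvd_mul_pow (hp i (Finset.mem_insert_self _ _)) (hno i (Finset.mem_insert_self _ _))
        _ hd) (fun j hj => hno j (Finset.mem_insert_of_mem hj))

/-- A prime divisor of a monomial is associated to one of the variables. -/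
theorem assoc_of_dvd_mon [IsDomain R] (hx : ∀ i, Prime (x i)) {q : R} (hq : Prime q)
    {c : Fin n → ℕ} (h : q ∣ mon x c) : ∃ i, c i ≠ 0 ∧ Associated q (x i) := by
  obtain ⟨i, -, hi⟩ := (hq.dvd_finset_prod_iff _).1 h
  refine ⟨i, ?_, hq.associated_of_dvd (hx i) (hq.dvd_of_dvd_pow hi)⟩
  intro hc
  rw [hc, pow_zero] at hi
  exact hq.not_unit (isUnit_of_dvd_one hi)

/-! ### The norm -/

section Norm

variable (K : Subgroup (R ≃ₐ[ℂ] R)) [Fintype K]

/-- The product of the conjugates. -/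
noncomputable def nrm (r : R) : R := ∏ φ : K, φ.1 r

variable {K}

theorem nrm_fix {ψ : R ≃ₐ[ℂ] R} (hψ : ψ ∈ K) (r : R) : ψ (nrm K r) = nrm K r := by
  rw [nrm, map_prod]
  exact Fintype.prod_equiv (Equiv.mulLeft (⟨ψ, hψ⟩ : K)) _ _ fun φ => rfl

theorem nrm_mem [GradedAlgebra 𝒜] {β : Cl ρ} (hβ : ∀ φ ∈ K, ∀ r ∈ 𝒜 β, φ r ∈ 𝒜 β) {r : R}
    (hr : r ∈ 𝒜 β) : nrm K r ∈ 𝒜 (Fintype.card K • β) := by
  have h1 := SetLike.prod_mem_graded 𝒜 (fun _ : K => β) (fun φ : K => φ.1 r) (F := Finset.univ)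
    fun φ _ => hβ φ.1 φ.2 r hr
  rwa [Finset.sum_const, Finset.card_univ] at h1

theorem nrm_ne_zero [IsDomain R] {r : R} (hr : r ≠ 0) : nrm K r ≠ 0 := by
  refine Finset.prod_ne_zero_iff.2 fun φ _ => ?_
  rwa [Ne, map_eq_zero_iff _ φ.1.injective]

/-- A function which does not vanish at the translates of the point `p`. -/
theorem exists_nonvanish {β : Cl ρ} {p : R →ₐ[ℂ] ℂ} (h : ∀ φ : K, ∃ r ∈ 𝒜 β, p (φ.1 r) ≠ 0) :
    ∃ r ∈ 𝒜 β, p (nrm K r) ≠ 0 := by
  classical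
  obtain ⟨r, hr⟩ := avoidC (E := 𝒜 β) (Finset.univ : Finset K)
    (fun φ => LinearMap.ker ((p.toLinearMap ∘ₗ φ.1.toLinearMap) ∘ₗ (𝒜 β).subtype)) (by
      intro φ _ htop
      obtain ⟨r, hr, hr0⟩ := h φ
      apply hr0
      have h1 : (⟨r, hr⟩ : 𝒜 β) ∈
          LinearMap.ker ((p.toLinearMap ∘ₗ φ.1.toLinearMap) ∘ₗ (𝒜 β).subtype) := by
        rw [htop]; trivial
      exact h1)
  refine ⟨r.1, r.2, ?_⟩
  rw [nrm, map_prod]
  exact Finset.prod_ne_zero_iff.2 fun φ hφ h0 => hr φ hφ h0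

/-- The norms of the elements of a piece have no common divisor. -/
theorem unit_of_dvd_nrm [IsDomain R] [GradedAlgebra 𝒜] (D : IsMoriDream 𝒜 x w u) {β : Cl ρ}
    (h0 : ∃ c : Fin n → ℕ, ∑ i, c i • w i = β)
    (hmon : ∀ i, ∃ c : Fin n → ℕ, ∑ i, c i • w i = β ∧ c i = 0) {h : R}
    (hh : ∀ r ∈ 𝒜 β, h ∣ nrm K r) : IsUnit h := by
  classical
  by_contra hcon
  obtain ⟨c₀, hc₀⟩ := h0
  have hmm : ∀ c : Fin n → ℕ, ∑ i, c i • w i = β → mon x c ∈ 𝒜 β := by
    intro c hc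
    have := mon_mem (𝒜 := 𝒜) D.mem c
    rwa [hc] at this
  -- a prime divisor of `h`
  have h1 : ∃ (φ₀ : K) (i : Fin n), φ₀.1 (x i) ∣ h := by
    by_contra hno
    push Not at hno
    apply hcon
    refine unit_of_dvd_prod (Finset.univ : Finset (K × Fin n)) (fun q => q.1.1 (x q.2))
      (fun q => c₀ q.2) (fun q _ => ?_) ?_ (fun q _ => hno q.1 q.2)
    · exact (MulEquiv.prime_iff (q.1.1 : R ≃* R)).2 (D.prime q.2)
    · have h2 := hh _ (hmm c₀ hc₀)
      rw [nrm] at h2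
      rw [← Finset.univ_product_univ, Finset.prod_product]
      convert h2 using 1
      refine Finset.prod_congr rfl fun φ _ => ?_
      rw [mon, map_prod]
      exact Finset.prod_congr rfl fun i _ => by rw [map_pow]
  obtain ⟨φ₀, i₁, hdiv⟩ := h1
  have hprime : ∀ ψ : K, Prime (ψ.1 (x i₁)) := fun ψ =>
    (MulEquiv.prime_iff (ψ.1 : R ≃* R)).2 (D.prime i₁)
  -- one of the conjugates divides all
  have h2 : ∃ ψ : K, ∀ r ∈ 𝒜 β, ψ.1 (x i₁) ∣ r := by
    by_contra hno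
    push Not at hno
    let sub : K → Submodule ℂ (𝒜 β) := fun ψ =>
      { carrier := {r | ψ.1 (x i₁) ∣ r.1}
        add_mem' := fun ha hb => dvd_add ha hb
        zero_mem' := dvd_zero _
        smul_mem' := fun c r hr => by
          change ψ.1 (x i₁) ∣ c • r.1
          rw [Algebra.smul_def]
          exact Dvd.dvd.mul_left hr _ }
    obtain ⟨r, hr⟩ := avoidC (Finset.univ : Finset K) sub (by
      intro ψ _ htop
      obtain ⟨r, hr, hr'⟩ := hno ψ
      apply hr'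
      have h3 : (⟨r, hr⟩ : 𝒜 β) ∈ sub ψ := by rw [htop]; trivial
      exact h3)
    have h4 := hdiv.trans (hh r.1 r.2)
    rw [nrm] at h4
    obtain ⟨φ, -, h5⟩ := ((hprime φ₀).dvd_finset_prod_iff _).1 h4
    obtain ⟨l, hl⟩ := h5
    refine hr (φ⁻¹ * φ₀) (Finset.mem_univ _) ⟨φ.1.symm l, ?_⟩
    have h6 : (φ⁻¹ * φ₀ : K).1 (x i₁) = φ.1.symm (φ₀.1 (x i₁)) := rfl
    rw [h6, ← map_mul, ← hl]
    exact (φ.1.symm_apply_apply _).symm
  obtain ⟨ψ, hψ⟩ := h2
  obtain ⟨i₂, -, ha⟩ := assoc_of_dvd_mon D.prime (hprime ψ) (hψ _ (hmm c₀ hc₀))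
  obtain ⟨c, hc, hc0⟩ := hmon i₂
  obtain ⟨i₃, hci, hb⟩ := assoc_of_dvd_mon D.prime (hprime ψ) (hψ _ (hmm c hc))
  refine D.non_assoc i₂ i₃ ?_ (ha.symm.trans hb)
  rintro rfl
  exact hci hc0

end Norm

/-! ### The conditions on the grading -/

/-- The degrees of the nonzero pieces generate the group, and the cone spanned by the `w i` is
pointed. -/
structure Base (𝒜 : Cl ρ → Submodule ℂ R) (w : Fin n → Cl ρ) : Prop where
  gens : ∀ H : AddSubgroup (Cl ρ), (∀ β, (∃ r ∈ 𝒜 β, r ≠ 0) → β ∈ H) → H = ⊤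
  pointed : ∀ c : Fin n → ℕ, ∑ i, c i • w i = 0 → c = 0

theorem IsMoriDream.base [IsDomain R] [GradedAlgebra 𝒜] (D : IsMoriDream 𝒜 x w u) :
    Base 𝒜 w where
  gens := fun H hH => by
    rw [eq_top_iff]
    intro β _
    obtain ⟨c, rfl⟩ := D.span β
    exact H.sum_mem fun i _ => H.zsmul_mem (hH _ ⟨x i, D.mem i, (D.prime i).ne_zero⟩) _
  pointed := pointed D

/-! ### Families of supports -/

/-- A family of subsets of the variables, which defines a cone of classes of `F` such that `u` is an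
interior point. -/
structure Fam (w : Fin n → Cl ρ) (u : Cl ρ) (𝓘 : Finset (Finset (Fin n))) : Prop where
  univ : Finset.univ ∈ 𝓘
  ample : ∀ β : Cl ρ, ∃ m : ℕ, ∀ I ∈ 𝓘, rv (β + m • u) ∈ CI w I

/-- A uniform multiple with monomials. -/
theorem exists_uniform {β : Cl ρ} (𝓘 : Finset (Finset (Fin n)))
    (h : ∀ I ∈ 𝓘, rv β ∈ CI w I) : ∃ m : ℕ, 0 < m ∧ ∀ I ∈ 𝓘, ∃ c : Fin n → ℕ,
      (∀ i, i ∉ I → c i = 0) ∧ m • β = ∑ i, c i • w i := by
  classical
  induction 𝓘 using Finset.induction_on with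
  | empty => exact ⟨1, one_pos, fun I hI => absurd hI (Finset.notMem_empty I)⟩
  | insert I 𝓘 hI ih =>
    obtain ⟨m, hm, h1⟩ := ih fun J hJ => h J (Finset.mem_insert_of_mem hJ)
    obtain ⟨k, hk, c, hc, hck⟩ := exists_nat (h I (Finset.mem_insert_self _ _))
    refine ⟨m * k, Nat.mul_pos hm hk, fun J hJ => ?_⟩
    rcases Finset.mem_insert.1 hJ with rfl | hJ
    · refine ⟨fun i => m * c i, fun i hi => by beta_reduce; rw [hc i hi, mul_zero], ?_⟩
      rw [mul_smul, hck, Finset.smul_sum]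
      exact Finset.sum_congr rfl fun i _ => by rw [mul_smul]
    · obtain ⟨d, hd, hdm⟩ := h1 J hJ
      refine ⟨fun i => k * d i, fun i hi => by beta_reduce; rw [hd i hi, mul_zero], ?_⟩
      rw [mul_comm m k, mul_smul, hdm, Finset.smul_sum]
      exact Finset.sum_congr rfl fun i _ => by rw [mul_smul]

open Classical in
/-- The variables which do not vanish at `p`. -/
noncomputable def supp (x : Fin n → R) (p : R →ₐ[ℂ] ℂ) : Finset (Fin n) :=
  Finset.univ.filter fun i => p (x i) ≠ 0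

theorem mem_supp {p : R →ₐ[ℂ] ℂ} {i : Fin n} : i ∈ supp x p ↔ p (x i) ≠ 0 := by
  classical
  simp [supp]

open Classical in
/-- The family which defines the nef cone of `F`. -/
noncomputable def nefF (𝒜 : Cl ρ → Submodule ℂ R) (x : Fin n → R) (u : Cl ρ) :
    Finset (Finset (Fin n)) :=
  insert Finset.univ (Finset.univ.filter fun I => ∃ p, Semistable 𝒜 u p ∧ supp x p = I)

/-- The family which defines the movable cone of `F`. -/
def movF (n : ℕ) : Finset (Finset (Fin n)) :=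
  insert Finset.univ (Finset.univ.image fun i => Finset.univ.erase i)

theorem semiample_CI [GradedAlgebra 𝒜] (D : IsMoriDream 𝒜 x w u) {β : Cl ρ}
    (h : SemiampleF 𝒜 u β) : ∀ I ∈ nefF 𝒜 x u, rv β ∈ CI w I := by
  classical
  obtain ⟨m, hm, h1⟩ := h
  have key : ∀ p, Semistable 𝒜 u p → rv β ∈ CI w (supp x p) := by
    intro p hp
    obtain ⟨r, hr, hr0⟩ := h1 p hp
    obtain ⟨c, hc, hc0⟩ := exists_mon D.mem D.gen hr hr0
    refine CI_of_nat hm (fun i hi => hc0 i ?_) hc.symm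
    rw [mem_supp] at hi
    push Not at hi
    exact hi
  intro I hI
  rcases Finset.mem_insert.1 hI with rfl | hI
  · obtain ⟨p, hp⟩ := D.point
    exact CI_mono (Finset.subset_univ _) (key p hp)
  · obtain ⟨p, hp, rfl⟩ := (Finset.mem_filter.1 hI).2
    exact key p hp

theorem fam_nef [GradedAlgebra 𝒜] (D : IsMoriDream 𝒜 x w u) : Fam w u (nefF 𝒜 x u) where
  univ := Finset.mem_insert_self _ _
  ample := fun β => by
    obtain ⟨m, hm⟩ := D.ample β
    exact ⟨m, semiample_CI D hm⟩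

theorem fam_mov [GradedAlgebra 𝒜] (D : IsMoriDream 𝒜 x w u) : Fam w u (movF n) where
  univ := Finset.mem_insert_self _ _
  ample := fun β => by
    classical
    obtain ⟨m, hm⟩ := D.ample β
    have h1 := semiample_CI D hm
    refine ⟨m, fun I hI => ?_⟩
    rcases Finset.mem_insert.1 hI with rfl | hI
    · exact h1 _ (Finset.mem_insert_self _ _)
    · obtain ⟨i, -, rfl⟩ := Finset.mem_image.1 hI
      obtain ⟨p, hp, hpi⟩ := D.nonempty i
      refine CI_mono ?_ (h1 (supp x p) (Finset.mem_insert_of_mem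
        (Finset.mem_filter.2 ⟨Finset.mem_univ _, p, hp, rfl⟩)))
      intro k hk
      rw [mem_supp] at hk
      refine Finset.mem_erase.2 ⟨?_, Finset.mem_univ _⟩
      rintro rfl
      exact hk hpi

end Pool.Agent.X324.CF
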