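import Pool.Agent.X324.CF.Aut2

/-!
# The general theorem
-/

set_option autoImplicit false

namespace Pool.Agent.X324.CF

open Finset Filter Topology
open Pool.Agent.W594.SYZ2 Pool.Agent.W594.SYZ2.TQ Pool.Agent.TH735.AQ
open Pool.Agent.Y167 (cone cone_add cone_smul cone_le cone_mono cone_sum mem_cone_self
  zero_mem_cone cone_image cone_ind cone_of_scaled mem_cone_of_sum Rel Pol Cp CData)
open Pool.Agent.Y167.CC (LinGrp Preserves IsFundDomain)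

variable {V E R : Type*} [NormedAddCommGroup V] [NormedSpace ℂ V] [FiniteDimensional ℂ V]
  [NormedAddCommGroup E] [NormedSpace ℂ E] [FiniteDimensional ℂ E] [CommRing R] [IsDomain R]
  [Algebra ℂ R] {ρ n : ℕ}
  {𝒜 : Cl ρ → Submodule ℂ R} [GradedAlgebra 𝒜] {Γ : Grp V R} {x : Fin n → R} {w : Fin n → Cl ρ}
  {u : Cl ρ} {j : E →ₗ[ℂ] V} {H₀ : V → V → ℂ} {𝓘 : Finset (Finset (Fin n))}

/-- Classes with positive definite form and degree in the cone. -/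
theorem interior_mem (D : Base 𝒜 w) (hQ : IsQuotient 𝒜 u Γ)
    (Rl : Rel (base Γ) j H₀) {P : Set (N1 𝒜 Γ j)} (hP : Good w 𝓘 P) {a : N1 𝒜 Γ j} {t : ℝ}
    (ht : 0 < t) (h : ∀ e, t * (H₀ (j e) (j e)).re ≤ ((val a).1 e e).re)
    (hI : ∀ I ∈ 𝓘, (val a).2 ∈ CI w I) : a ∈ coneHull (P ∩ effective 𝒜 Γ j) := by
  rw [← split D hQ a]
  refine hull_add ?_ ?_
  · exact i1_hull (P := P ∩ effective 𝒜 Γ j)
      (fun L hs a ha => ⟨hP.bpf L hs a ha, bpf_effective hs ha⟩) (interior_form Rl ht h)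
  · refine i2_hull (𝓘 := 𝓘) D hQ (fun β hβ hI => ?_) hI
    obtain ⟨M, hM, a, haP, hae, h2⟩ := hP.deg β hβ hI
    exact ⟨M, hM, a, ⟨haP, hae⟩, h2⟩

omit [FiniteDimensional ℂ V] [FiniteDimensional ℂ E] [IsDomain R] [GradedAlgebra 𝒜] in
theorem p1_i1 (hQ : IsQuotient 𝒜 u Γ) (a : Pool.Agent.Y167.N1 (base Γ) j) :
    p1 hQ (i1 a : N1 𝒜 Γ j) = a := rfl

omit [FiniteDimensional ℂ V] [FiniteDimensional ℂ E] [IsDomain R] [GradedAlgebra 𝒜] in
theorem p2_i1 (a : Pool.Agent.Y167.N1 (base Γ) j) :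
    p2 (i1 a : N1 𝒜 Γ j) = 0 := rfl

omit [FiniteDimensional ℂ V] [FiniteDimensional ℂ E] [IsDomain R] [GradedAlgebra 𝒜] in
theorem p1_i2 (D : Base 𝒜 w) (hQ : IsQuotient 𝒜 u Γ) (b : Bs 𝒜 Γ) :
    p1 hQ (i2 D hQ b : N1 𝒜 Γ j) = 0 := rfl

omit [FiniteDimensional ℂ V] [FiniteDimensional ℂ E] [IsDomain R] [GradedAlgebra 𝒜] in
theorem p2_i2 (D : Base 𝒜 w) (hQ : IsQuotient 𝒜 u Γ) (b : Bs 𝒜 Γ) :
    p2 (i2 D hQ b : N1 𝒜 Γ j) = b := rfl

/-- The decomposition of the space of classes. -/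
noncomputable def eqv (D : Base 𝒜 w) (hQ : IsQuotient 𝒜 u Γ) :
    N1 𝒜 Γ j ≃ₗ[ℝ] (Pool.Agent.Y167.N1 (base Γ) j × Bs 𝒜 Γ) :=
  { (p1 hQ).prod p2 with
    invFun := fun c => i1 c.1 + i2 D hQ c.2
    left_inv := fun a => split D hQ a
    right_inv := fun c => by
      refine Prod.ext ?_ ?_
      · change p1 hQ (i1 c.1 + i2 D hQ c.2) = c.1
        rw [map_add, p1_i1, p1_i2, add_zero]
      · change p2 (i1 c.1 + i2 D hQ c.2) = c.2
        rw [map_add, p2_i1, p2_i2, zero_add] }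

omit [FiniteDimensional ℂ E] [IsDomain R] [GradedAlgebra 𝒜] in
/-- The action of an automorphism. -/
theorem exists_pull2 (D : Base 𝒜 w) (hQ : IsQuotient 𝒜 u Γ) {f : V ≃ᵃ[ℂ] V}
    (hf : Pool.Agent.Y167.Normalizes (base Γ) f) {g : E ≃ₗ[ℂ] E}
    (hfg : ∀ e, f.linear (j e) = j (g e)) : ∃ G : N1 𝒜 Γ j ≃ₗ[ℝ] N1 𝒜 Γ j,
      (∀ a v w, (val (G a)).1 v w = (val a).1 (g v) (g w)) ∧ ∀ a, (val (G a)).2 = (val a).2 := by
  obtain ⟨gA, h1, -, -, -⟩ := Pool.Agent.Y167.exists_pull (j := j) hf hfg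
  let G : N1 𝒜 Γ j ≃ₗ[ℝ] N1 𝒜 Γ j := ((eqv D hQ).trans
    (LinearEquiv.prodCongr gA (LinearEquiv.refl ℝ (Bs 𝒜 Γ)))).trans (eqv D hQ).symm
  have hG : ∀ a, G a = i1 (gA (p1 hQ a)) + i2 D hQ (p2 a) := fun a => rfl
  refine ⟨G, fun a v w => ?_, fun a => ?_⟩
  · rw [hG]
    change (gA (p1 hQ a)).1 v w + 0 = _
    rw [h1, add_zero]
    rfl
  · rw [hG]
    change (0 : Fin ρ → ℝ) + (val a).2 = _
    rw [zero_add]

/-- Linear combinations are continuous. -/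
theorem continuous_sub_smul {W : Type*} {Q : Type*} [AddCommGroup Q] [Module ℝ Q]
    [TopologicalSpace Q] [ContinuousSub Q] [ContinuousSMul ℝ Q] [AddCommGroup W] [Module ℝ W]
    [TopologicalSpace W] {v : W → Q} (hv : Topology.IsInducing v) (h1 : ∀ a b, v (a - b) = v a - v b)
    (h2 : ∀ (t : ℝ) a, v (t • a) = t • v a) (a b : W) : Continuous fun t : ℝ => a - t • b := by
  rw [hv.continuous_iff]
  have h3 : v ∘ (fun t : ℝ => a - t • b) = fun t => v a - t • v b := by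
    funext t
    change v (a - t • b) = _
    rw [h1, h2]
  rw [h3]
  exact continuous_const.sub (continuous_id.smul continuous_const)

/-- The interior of a cone does not meet a set where a linear form is not positive. -/
theorem interior_inter {W : Type*} [AddCommGroup W] [Module ℝ W] [TopologicalSpace W]
    (hc : ∀ a b : W, Continuous fun t : ℝ => a - t • b) {A B : Set W} {φ : W →ₗ[ℝ] ℝ}
    (h0 : φ ≠ 0) (hA : ∀ a ∈ A, 0 ≤ φ a) (hB : ∀ b ∈ B, φ b ≤ 0) : interior A ∩ B = ∅ := by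
  rw [Set.eq_empty_iff_forall_notMem]
  rintro b ⟨hbA, hbB⟩
  have h1 := hB b hbB
  obtain ⟨w, hw⟩ : ∃ w, 0 < φ w := by
    by_contra hcon
    push Not at hcon
    apply h0
    ext w
    have e1 := hcon w
    have e2 := hcon (-w)
    rw [map_neg] at e2
    change φ w = 0
    linarith
  have hmem : ∀ᶠ t : ℝ in 𝓝 0, b - t • w ∈ interior A := by
    apply (hc b w).continuousAt.eventually_mem
    rw [zero_smul, sub_zero]
    exact isOpen_interior.mem_nhds hbA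
  obtain ⟨ε, hε, hball⟩ := Metric.eventually_nhds_iff.1 hmem
  have h2 := interior_subset (hball (y := ε / 2) (by
    rw [Real.dist_eq, sub_zero, abs_of_pos (by linarith)]
    linarith))
  have h3 := hA _ h2
  rw [map_sub, map_smul, smul_eq_mul] at h3
  have h4 : 0 < ε / 2 * φ w := by positivity
  linarith

/-- **The cone conjecture for `(A × F) / G`**, general form. -/
theorem core (D : Base 𝒜 w) (hQ : IsQuotient 𝒜 u Γ) (hF : Fam w u 𝓘)
    (Rl : Rel (base Γ) j H₀) {P : Set (N1 𝒜 Γ j)} (hP : Good w 𝓘 P)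
    {ι : Type*} [Fintype ι] (Δ : EffDiv 𝒜 Γ ι) (hΔ : NumTrivial Δ j)
    (𝒢 : LinGrp (N1 𝒜 Γ j)) (hint : Preserves 𝒢 (integral 𝒜 Γ j))
    (hcone : Preserves 𝒢 (closure (coneHull P) ∩ effCone 𝒜 Γ j))
    (haut : ∀ f : V ≃ᵃ[ℂ] V, Normalizes Γ f → (∀ v, ∃ e, f v = v + j e) → Δ.Fixed f →
      ∀ g : N1 𝒜 Γ j ≃ₗ[ℝ] N1 𝒜 Γ j, IsPullback f g → g ∈ 𝒢) :
    ∃ S : Finset (N1 𝒜 Γ j), ↑S ⊆ integral 𝒜 Γ j ∧
      cone S ⊆ closure (coneHull P) ∩ effCone 𝒜 Γ j ∧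
      IsFundDomain 𝒢 (closure (coneHull P) ∩ effCone 𝒜 Γ j) (cone S) := by
  classical
  have hu : ∀ I ∈ 𝓘, rv u ∈ CI w I := fun I hI => hF.u_mem hI
  have hcp := cp_eq D hQ hF Rl hP hu
  have hexp := expo_pos hQ
  have hexpr : (0 : ℝ) < expo Γ := by exact_mod_cast hexp
  have := hQ.fin_gal
  have hcard : 0 < Nat.card (gal Γ) := Nat.card_pos
  have hcardr : (0 : ℝ) < Nat.card (gal Γ) := by exact_mod_cast hcard
  -- the data for the form
  let M1 : AddSubgroup (Pool.Agent.Y167.N1 (base Γ) j) :=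
    { carrier := {a | Pool.Agent.Y167.Integral ((expo Γ : ℝ) • a)}
      add_mem' := fun {a b} ha hb => by
        change Pool.Agent.Y167.Integral ((expo Γ : ℝ) • (a + b))
        rw [smul_add]
        exact ha.add hb
      zero_mem' := by
        change Pool.Agent.Y167.Integral ((expo Γ : ℝ) • 0)
        rw [smul_zero]
        exact Pool.Agent.Y167.Integral.zero
      neg_mem' := fun {a} ha => by
        change Pool.Agent.Y167.Integral ((expo Γ : ℝ) • (-a))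
        rw [smul_neg]
        exact ha.neg }
  have hnat : ∀ (k : ℕ) (a : Pool.Agent.Y167.N1 (base Γ) j), Pool.Agent.Y167.Integral a →
      Pool.Agent.Y167.Integral ((k : ℝ) • a) := by
    intro k a ha
    have h1 := (Pool.Agent.Y167.intL (base Γ) j).nsmul_mem ha k
    rw [← Nat.cast_smul_eq_nsmul ℝ] at h1
    exact h1
  obtain ⟨ξ1, y1, Y1, D1, hy1⟩ := Pool.Agent.Y167.exists_cdata Rl M1 hexp
    (fun a ha => hnat _ _ (hnat _ _ ha)) (fun a ha => ha)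
  obtain ⟨ξ2, Y2, D2⟩ := cdataF D hQ hF
  set y2 : Bs 𝒜 Γ := ⟨rv u, Submodule.subset_span ⟨u, hQ.inv, rfl⟩⟩ with hy2
  have hk : 0 < expo Γ * Nat.card (gal Γ) := Nat.mul_pos hexp hcard
  have hnatI : ∀ (k : ℕ) (a : N1 𝒜 Γ j), a ∈ integral 𝒜 Γ j → (k : ℝ) • a ∈ integral 𝒜 Γ j := by
    intro k a ha
    have h1 := (intL 𝒜 Γ j).nsmul_mem ha k
    rw [← Nat.cast_smul_eq_nsmul ℝ] at h1
    exact h1
  obtain ⟨ξ₀, Y, DD⟩ := cdata_prod (L := intL 𝒜 Γ j) D1 D2 (p1 hQ) p2 i1 (i2 D hQ)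
    (fun a => p1_i1 hQ a) (fun a => p2_i1 a) (fun b => p1_i2 D hQ b) (fun b => p2_i2 D hQ b)
    (fun a => split D hQ a) hk
    (fun a ha => Int.p1 hQ ha)
    (fun a ha => by
      obtain ⟨β, hβ, h1⟩ := Int.p2 ha
      exact ⟨β, hβ, h1⟩)
    (fun a ha => by
      have h1 : ((expo Γ * Nat.card (gal Γ) : ℕ) : ℝ) • (i1 a : N1 𝒜 Γ j)
          = (Nat.card (gal Γ) : ℝ) • i1 ((expo Γ : ℝ) • a) := by
        rw [map_smul, smul_smul]
        push_cast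
        rw [mul_comm]
      rw [h1]
      exact hnatI _ _ (Int.i1 ha))
    (fun b hb => by
      obtain ⟨β, hβ, h2⟩ := hb
      have h1 : ((expo Γ * Nat.card (gal Γ) : ℕ) : ℝ) • (i2 D hQ b : N1 𝒜 Γ j)
          = (expo Γ : ℝ) • ((Nat.card (gal Γ) : ℝ) • i2 D hQ b) := by
        rw [smul_smul]
        push_cast
        rfl
      rw [h1]
      exact hnatI _ _ (Int.i2 D hQ hβ h2))
  have hset : {a : N1 𝒜 Γ j | p1 hQ a ∈ Pool.Agent.Y167.nefCone (base Γ) j ∧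
      p2 a ∈ {b : Bs 𝒜 Γ | ∀ I ∈ 𝓘, b.1 ∈ CI w I}} = KK 𝒜 Γ j w 𝓘 := rfl
  rw [hset] at DD
  set y₀ : N1 𝒜 Γ j := ((expo Γ * Nat.card (gal Γ) : ℕ) : ℝ) • (i1 y1 + i2 D hQ y2) with hy₀
  have hkr : (0 : ℝ) < ((expo Γ * Nat.card (gal Γ) : ℕ) : ℝ) := by exact_mod_cast hk
  -- form and degree of the interior point
  set K₁ : ℝ := ((expo Γ * Nat.card (gal Γ) : ℕ) : ℝ) * expo Γ with hK₁
  have hK₁pos : 0 < K₁ := mul_pos hkr hexpr
  have hyf : ∀ e, ((val y₀).1 e e).re = K₁ * (H₀ (j e) (j e)).re := by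
    intro e
    have h1 : (val y₀).1 e e = ((expo Γ * Nat.card (gal Γ) : ℕ) : ℝ) • (y1.1 e e + 0) := rfl
    have e1 : (expo Γ : ℂ) = ((expo Γ : ℝ) : ℂ) := by push_cast; rfl
    rw [h1, add_zero, hy1, Complex.smul_re, e1, Complex.re_ofReal_mul, smul_eq_mul, hK₁]
    ring
  have hyd : (val y₀).2 = ((expo Γ * Nat.card (gal Γ) : ℕ) : ℝ) • rv u := by
    change ((expo Γ * Nat.card (gal Γ) : ℕ) : ℝ) • ((0 : Fin ρ → ℝ) + rv u) = _
    rw [zero_add]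
  have hform : ∀ (a b : N1 𝒜 Γ j) (t : ℝ) (e : E), ((val (a + t • b)).1 e e).re
      = ((val a).1 e e).re + t * ((val b).1 e e).re := by
    intro a b t e
    change ((val a).1 e e + t • (val b).1 e e).re = _
    rw [Complex.add_re, Complex.smul_re, smul_eq_mul]
  -- the interior
  have hint2 : ∀ a : N1 𝒜 Γ j, (∃ t : ℝ, 0 < t ∧ a - t • y₀ ∈ KK 𝒜 Γ j w 𝓘) →
      (∃ t : ℝ, 0 < t ∧ ∀ e, t * (H₀ (j e) (j e)).re ≤ ((val a).1 e e).re) ∧
      ∀ I ∈ 𝓘, (val a).2 ∈ CI w I := by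
    rintro a ⟨t, ht, hat⟩
    refine ⟨⟨t * K₁, mul_pos ht hK₁pos, fun e => ?_⟩, fun I hI => ?_⟩
    · have h1 := hat.1 e
      have h2 : a - t • y₀ = a + (-t) • y₀ := by rw [neg_smul, sub_eq_add_neg]
      rw [h2, hform, hyf] at h1
      linarith
    · have h1 := hat.2 I hI
      have h2 : (val a).2 = (val (a - t • y₀)).2 + t • (val y₀).2 := by
        change _ = ((val a).2 - t • (val y₀).2) + t • (val y₀).2
        rw [sub_add_cancel]
      rw [h2, hyd]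
      exact CI_add h1 (CI_smul (CI_smul (hu I hI) hkr.le) ht.le)
  have hAmem : ∀ a : N1 𝒜 Γ j, (∃ t : ℝ, 0 < t ∧ a - t • y₀ ∈ KK 𝒜 Γ j w 𝓘) →
      a ∈ closure (coneHull P) ∩ effCone 𝒜 Γ j := by
    intro a ha
    obtain ⟨⟨t, ht, h1⟩, h2⟩ := hint2 a ha
    have h3 := interior_mem D hQ Rl hP ht h1 h2
    exact ⟨subset_closure (hull_le (fun b hb => hull_mem hb.1) h3),
      hull_le (fun b hb => hull_mem hb.2) h3⟩
  -- the group preserves the closed cone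
  have hclos := closure_eq D hQ hF Rl hP hu
  have hGK : ∀ g ∈ 𝒢, ∀ a ∈ KK 𝒜 Γ j w 𝓘, g a ∈ KK 𝒜 Γ j w 𝓘 := by
    intro g hg a ha
    have h1 : ∀ ε : ℝ, 0 < ε → g a + ε • g y₀ ∈ KK 𝒜 Γ j w 𝓘 := by
      intro ε hε
      have h2 := hcone g hg _ (hAmem (a + ε • y₀) ⟨ε, hε, by rwa [add_sub_cancel_right]⟩)
      rw [map_add, map_smul, hclos] at h2
      exact h2.1
    -- limits of values of linear forms
    have hlim : ∀ A B : ℝ, (∀ ε : ℝ, 0 < ε → 0 ≤ A + ε * B) → 0 ≤ A := by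
      intro A B h
      by_contra hcon
      push Not at hcon
      have h2 := h (-A / (2 * (|B| + 1))) (by
        have : 0 ≤ |B| := abs_nonneg B
        exact div_pos (by linarith) (by linarith))
      have h3 : B ≤ |B| := le_abs_self B
      have h4 : (0 : ℝ) < 2 * (|B| + 1) := by positivity
      have h5 : -A / (2 * (|B| + 1)) * B ≤ -A / 2 := by
        rw [div_mul_eq_mul_div, div_le_div_iff₀ h4 (by norm_num)]
        nlinarith
      linarith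
    refine ⟨fun e => ?_, fun I hI => ?_⟩
    · refine hlim _ ((val (g y₀)).1 e e).re fun ε hε => ?_
      have h2 := (h1 ε hε).1 e
      rwa [hform] at h2
    · obtain ⟨Yi, hYi⟩ := exists_ineq w I
      rw [hYi]
      intro y hy
      refine hlim _ (dot (rv y) (val (g y₀)).2) fun ε hε => ?_
      have h2 := (hYi _).1 ((h1 ε hε).2 I hI) y hy
      have h3 : (val (g a + ε • g y₀)).2 = (val (g a)).2 + ε • (val (g y₀)).2 := rfl
      rwa [h3, map_add, map_smul, smul_eq_mul] at h2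
  -- the covering
  obtain ⟨d, b, Pl⟩ := Rl.pol
  obtain ⟨F, hF', hFc⟩ := Pl.red
  obtain ⟨m₀, hm₀, hauts⟩ := exists_aut2 hQ Rl
  obtain ⟨𝓡, h𝓡f, h𝓡U, h𝓡⟩ := Pl.fin_idx (Pool.Agent.Y167.finite_opE Rl) (by
    rintro y ⟨γ, hγ, hx⟩ v hv
    change j (y v) ∈ latt (base Γ)
    rw [hx]
    exact latt_inv γ hγ hv) m₀ hm₀
  obtain ⟨SF, hSF, hSFc⟩ := exists_gensF 𝒜 Γ w 𝓘
  have hcl : ∀ z r, z ∈ F → r ∈ 𝓡 → ∃ (a : Pool.Agent.Y167.N1 (base Γ) j) (m : ℕ), 0 < m ∧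
      Pool.Agent.Y167.Integral a ∧ a ∈ Pool.Agent.Y167.nefCone (base Γ) j ∧
      ∀ v w, a.1 v w = m * z (r v) (r w) := by
    intro z r hz hr
    obtain ⟨hz1, hz2⟩ := hF' z hz
    have hrU := h𝓡U r hr
    have h1 : Pol.IsInt (Pool.Agent.Y167.lattE (base Γ) j) (Pool.Agent.Y167.opE (base Γ) j)
        (fun v w => z (r v) (r w)) := by
      refine ⟨⟨?_, ?_, ?_⟩, ?_, ?_⟩
      · intro u v w
        rw [map_add, hz1.herm.add_left]
      · intro c v w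
        rw [map_smul, hz1.herm.smul_left]
      · intro v w
        exact hz1.herm.symm _ _
      · intro g hg u w
        rw [hrU.comm g hg, hrU.comm g hg, hz1.inv g hg]
      · intro u hu w hw
        exact hz1.int _ (hrU.map u hu) _ (hrU.map w hw)
    obtain ⟨m, hm, L, H, hL, h2, -⟩ := Rl.exists_class h1 (fun v => hz2 (r v))
    obtain ⟨a, ha1, ha2⟩ := Pool.Agent.Y167.exists_int (j := j) (L := L)
      (h := fun u w => H (j u) (j w)) ⟨H, hL, fun _ _ => rfl⟩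
    refine ⟨a, m, hm, ha2, fun v => ?_, fun v w => ?_⟩
    · rw [ha1]
      change 0 ≤ (H (j v) (j v)).re
      rw [h2]
      have e1 : (m : ℂ) = ((m : ℝ) : ℂ) := by push_cast; rfl
      rw [e1, Complex.re_ofReal_mul]
      exact mul_nonneg (Nat.cast_nonneg _) (hz2 (r v))
    · rw [ha1]
      exact h2 v w
  choose! af mf hmf haf1 haf2 haf3 using hcl
  let iB : (Fin ρ → ℝ) → N1 𝒜 Γ j := fun s =>
    if hs : s ∈ Bs 𝒜 Γ then (Nat.card (gal Γ) : ℝ) • i2 D hQ ⟨s, hs⟩ else 0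
  have hiB : ∀ s, ∀ hs : s ∈ Bs 𝒜 Γ, iB s = (Nat.card (gal Γ) : ℝ) • i2 D hQ ⟨s, hs⟩ :=
    fun s hs => dif_pos hs
  have hSB : ∀ s ∈ SF, s ∈ Bs 𝒜 Γ := by
    intro s hs
    obtain ⟨⟨β, hβ, h1⟩, -⟩ := hSF s hs
    exact Submodule.subset_span ⟨β, hβ, h1⟩
  let F₂ : Finset (N1 𝒜 Γ j) := ((F ×ˢ h𝓡f.toFinset).image fun p => i1 (af p.1 p.2)) ∪ SF.image iB
  have hF₂ : ∀ a ∈ F₂, a ∈ intL 𝒜 Γ j ∧ a ∈ KK 𝒜 Γ j w 𝓘 := by
    intro a ha
    rcases Finset.mem_union.1 ha with ha | ha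
    · obtain ⟨p, hp, rfl⟩ := Finset.mem_image.1 ha
      rw [Finset.mem_product, h𝓡f.mem_toFinset] at hp
      exact ⟨Int.i1 (haf1 _ _ hp.1 hp.2), haf2 _ _ hp.1 hp.2, fun I _ => CI_zero⟩
    · obtain ⟨s, hs, rfl⟩ := Finset.mem_image.1 ha
      rw [hiB s (hSB s hs)]
      obtain ⟨⟨β, hβ, h1⟩, h2⟩ := hSF s hs
      refine ⟨Int.i2 D hQ hβ h1, KK_smul hcardr.le ⟨fun e => le_refl (0 : ℝ), h2⟩⟩
  have hcov : ∀ a : N1 𝒜 Γ j, (∃ t : ℝ, 0 < t ∧ a - t • y₀ ∈ KK 𝒜 Γ j w 𝓘) → ∃ g ∈ 𝒢,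
      g a ∈ cone F₂ := by
    intro a ha
    obtain ⟨⟨t, ht, h1⟩, h2⟩ := hint2 a ha
    obtain ⟨q, hu1, hu2, hu3, c, hc, hx⟩ := hFc (p1 hQ a).1
      (Pool.Agent.Y167.mem_span_int Rl (p1 hQ a)) ⟨t, ht, h1⟩
    obtain ⟨r, hr, q', hq', hqr⟩ := h𝓡 q ⟨hu1, hu2, hu3⟩
    obtain ⟨f, hf0, hf1, hf2, hf3⟩ := hauts q'.symm hq'.inv
    obtain ⟨G, hG1, hG2⟩ := exists_pull2 (j := j) D hQ hf1 hf2
    have hG𝒢 : G ∈ 𝒢 := by
      refine haut f hf0 (fun v => ?_) (fixed_of_good hQ Rl Δ hΔ hq'.inv hf3) G ?_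
      · obtain ⟨e, he⟩ := hf3 v
        exact ⟨_, he⟩
      · intro a
        refine ⟨fun v w v' w' hv hw => ?_, hG2 a⟩
        rw [hf2] at hv hw
        rw [hG1, Rl.inj hv, Rl.inj hw]
    refine ⟨G, hG𝒢, ?_⟩
    rw [← split D hQ (G a)]
    refine cone_add ?_ ?_
    · have h3 : p1 hQ (G a) = ∑ z ∈ F, (c z / mf z r) • af z r := by
        apply Subtype.ext
        funext v w
        have h4 : (∑ z ∈ F, (c z / mf z r) • af z r : Pool.Agent.Y167.N1 (base Γ) j).1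
            = ∑ z ∈ F, (c z / mf z r) • (af z r).1 := by
          rw [Submodule.coe_sum]
          rfl
        have h5 : (p1 hQ (G a)).1 v w = (p1 hQ a).1 (q'.symm v) (q'.symm w) := hG1 a v w
        rw [h5, hx, h4]
        simp only [Finset.sum_apply, Pi.smul_apply]
        refine Finset.sum_congr rfl fun z hz => ?_
        rw [hqr, hqr, q'.apply_symm_apply, q'.apply_symm_apply, haf3 z r hz hr, Complex.real_smul]
        have hm : ((mf z r : ℕ) : ℂ) ≠ 0 := by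
          have := hmf z r hz hr
          exact_mod_cast this.ne'
        push_cast
        field_simp
      rw [h3, map_sum]
      refine cone_sum _ _ fun z hz => ?_
      rw [map_smul]
      refine cone_smul (mem_cone_self (Finset.mem_union_left _ ?_))
        (div_nonneg (hc z) (Nat.cast_nonneg _))
      exact Finset.mem_image.2 ⟨(z, r), by
        rw [Finset.mem_product, h𝓡f.mem_toFinset]
        exact ⟨hz, hr⟩, rfl⟩
    · have h3 : p2 (G a) = p2 a := Subtype.ext (hG2 a)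
      rw [h3]
      have h4 : (p2 a).1 ∈ cone SF := hSFc _ (p2 a).2 h2
      obtain ⟨cs, hcs, h5⟩ := h4
      have h6 : (i2 D hQ (p2 a) : N1 𝒜 Γ j) = ∑ s ∈ SF, (cs s / Nat.card (gal Γ)) • iB s := by
        have h7 : p2 a = ∑ s : SF, cs s • (⟨s.1, hSB s.1 s.2⟩ : Bs 𝒜 Γ) := by
          apply Subtype.ext
          rw [h5, Submodule.coe_sum, ← Finset.sum_coe_sort SF]
          rfl
        rw [h7, map_sum, ← Finset.sum_coe_sort SF]
        refine Finset.sum_congr rfl fun s _ => ?_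
        rw [map_smul, hiB s.1 (hSB s.1 s.2), smul_smul, div_mul_cancel₀ _ hcardr.ne']
      rw [h6]
      refine cone_sum _ _ fun s hs => cone_smul (mem_cone_self (Finset.mem_union_right _
        (Finset.mem_image_of_mem _ hs))) (div_nonneg (hcs s) hcardr.le)
  obtain ⟨S, hS1, hS2, hS3⟩ := DD.domain 𝒢 (fun g hg a ha => hint g hg a ha) hGK F₂ hF₂ hcov
  rw [hcp]
  refine ⟨S, fun a ha => (hS1 a ha).1, fun a ha => ⟨S, hS1, ha⟩, ?_, fun g hg hg1 => ?_⟩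
  · ext a
    simp only [Set.mem_iUnion, Set.mem_image, exists_prop]
    rw [hS2]
    constructor
    · rintro ⟨g, hg, hga⟩
      exact ⟨g⁻¹, 𝒢.inv_mem hg, g a, hga, g.symm_apply_apply a⟩
    · rintro ⟨g, hg, y, hy, rfl⟩
      refine ⟨g⁻¹, 𝒢.inv_mem hg, ?_⟩
      have h1 : (g⁻¹ : N1 𝒜 Γ j ≃ₗ[ℝ] N1 𝒜 Γ j) (g y) = y := g.symm_apply_apply y
      rwa [h1]
  · obtain ⟨φ, hφ0, hφ1, hφ2⟩ := hS3 g hg hg1
    refine interior_inter (continuous_sub_smul (v := (val : N1 𝒜 Γ j → Pairs E ρ))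
      Topology.IsInducing.subtypeVal (fun _ _ => rfl) (fun _ _ => rfl)) hφ0 hφ1 ?_
    rintro _ ⟨y, hy, rfl⟩
    exact hφ2 y hy

end Pool.Agent.X324.CF
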