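import Pool.Agent.X324.CF.Dom2

/-!
# The Chern form of the canonical divisor vanishes in the directions parallel to all mirrors
-/

set_option autoImplicit false

namespace Pool.Agent.X324.CF

open Finset Filter Topology Asymptotics
open Pool.Agent.W594.SYZ2 Pool.Agent.W594.SYZ2.TQ Pool.Agent.TH735.AQ Pool.Agent.TH128.SYZ
open Pool.Agent.Y167

theorem canonical_zero {V : Type*} [NormedAddCommGroup V] [NormedSpace ℂ V]
    [FiniteDimensional ℂ V] {Γ : Subgroup (V ≃ᵃ[ℂ] V)} (hΓ : IsTorusQuotient Γ)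
    {HK : V → V → ℂ} (hc : IsCanonicalForm Γ HK) {w : V} (hw : MirrorFixed Γ w) :
    (HK w w).re = 0 := by
  have : ProperSpace V := FiniteDimensional.proper ℂ V
  obtain ⟨hH, ρ, F, hρ, hF, hFe⟩ := hc
  let N : V → ℝ := fun v => ‖ρ v‖ ^ 2 * Real.exp (Real.pi * (HK v v).re + 2 * (F v).re)
  have hNc : Continuous N := by
    have h1 : Continuous fun v => ρ v := hρ.holo.continuous
    exact (h1.norm.pow 2).mul (Real.continuous_exp.comp
      (((diag_continuous hH).const_mul Real.pi).add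
        ((Complex.continuous_re.comp hF.continuous).const_mul 2)))
  have hNinv : ∀ γ ∈ Γ, ∀ v, N (γ v) = N v := fun γ hγ v => hFe γ hγ v
  have hzero : ∀ γ ∈ Γ, ∀ v, ρ (γ v) = 0 → ρ v = 0 := by
    intro γ hγ v h
    have h1 := hNinv γ hγ v
    simp only [N] at h1
    rw [h, norm_zero, zero_pow two_ne_zero, zero_mul] at h1
    have h2 := (mul_eq_zero.1 h1.symm).resolve_right (Real.exp_ne_zero _)
    exact norm_eq_zero.1 (pow_eq_zero_iff two_ne_zero |>.1 h2)
  have hzw : ∀ (v : V) (z : ℂ), ρ v = 0 → ρ (v + z • w) = 0 := by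
    intro v z h
    rw [hρ.zero_iff] at h ⊢
    obtain ⟨γ, hγ, hne, ℓ, hℓ, hfix⟩ := h
    refine ⟨γ, hγ, hne, ℓ, hℓ, fun x hx => ?_⟩
    have h1 := hw γ hγ hne ⟨ℓ, hℓ, ℓ v, hfix⟩
    have h2 := hfix (x - z • w) (by rw [map_sub, hx, map_add]; ring)
    have h3 : x = (x - z • w) + z • w := by abel
    conv_lhs => rw [h3, act_add, h2, map_smul, h1]
    abel
  obtain ⟨v₀, hv₀⟩ := ram_ne_zero hρ
  have hopen : IsOpen {v | ρ v ≠ 0} := isOpen_ne_fun hρ.holo.continuous continuous_const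
  obtain ⟨ε, hε, hball⟩ := Metric.isOpen_iff.1 hopen v₀ hv₀
  let Q : Set V := {v | ∀ y, dist y v < ε → ρ y ≠ 0}
  have hQ : IsClosed Q := by
    rw [← isOpen_compl_iff, Metric.isOpen_iff]
    intro v hv
    simp only [Q, Set.mem_compl_iff, Set.mem_ofPred_eq, not_forall, not_not] at hv
    obtain ⟨y, hy, hy0⟩ := hv
    refine ⟨ε - dist y v, by linarith, fun v' hv' hQ => ?_⟩
    refine hQ y ?_ hy0
    rw [Metric.mem_ball] at hv'
    have := dist_triangle y v v'
    rw [dist_comm v v'] at this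
    linarith
  have hv₀Q : v₀ ∈ Q := fun y hy => hball hy
  have hzQ : ∀ z : ℂ, v₀ + z • w ∈ Q := by
    intro z y hy h0
    have h1 := hzw y (-z) h0
    refine hv₀Q _ ?_ h1
    rw [dist_eq_norm] at hy ⊢
    have : y + -z • w - v₀ = y - (v₀ + z • w) := by rw [neg_smul]; abel
    rwa [this]
  have hbQ : ∀ b ∈ latt Γ, ∀ v ∈ Q, b + v ∈ Q := by
    intro b hb v hv y hy h0
    have h1 := hzero _ (mem_latt.1 hb) (-b + y) (by
      change ρ (b + (-b + y)) = 0
      rwa [add_neg_cancel_left])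
    refine hv _ ?_ h1
    rw [dist_eq_norm] at hy ⊢
    have : -b + y - v = y - (b + v) := by abel
    rwa [this]
  obtain ⟨C, hC⟩ := cobounded (latt Γ) hΓ.span_top
  have hcomp : IsCompact (Metric.closedBall (0 : V) C ∩ Q) :=
    (isCompact_closedBall _ _).inter_right hQ
  have hne : (Metric.closedBall (0 : V) C ∩ Q).Nonempty := by
    obtain ⟨b, hb, hbC⟩ := hC v₀
    exact ⟨b + v₀, by rwa [mem_closedBall_zero_iff], hbQ b hb _ hv₀Q⟩
  obtain ⟨x₀, hx₀, hmin⟩ := hcomp.exists_isMinOn hne hNc.continuousOn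
  have hNpos : ∀ v, ρ v ≠ 0 → 0 < N v := by
    intro v hv
    have : 0 < ‖ρ v‖ := norm_pos_iff.2 hv
    simp only [N]
    positivity
  have hδ : 0 < N x₀ := hNpos _ (hx₀.2 x₀ (by rwa [dist_self]))
  have hlow : ∀ z : ℂ, N x₀ ≤ N (v₀ + z • w) := by
    intro z
    obtain ⟨b, hb, hbC⟩ := hC (v₀ + z • w)
    have h1 := hmin (⟨by rwa [mem_closedBall_zero_iff], hbQ b hb _ (hzQ z)⟩ :
      b + (v₀ + z • w) ∈ Metric.closedBall (0 : V) C ∩ Q)
    simp only [Set.mem_ofPred_eq] at h1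
    have h2 : N (b + (v₀ + z • w)) = N (v₀ + z • w) := hNinv _ (mem_latt.1 hb) _
    rwa [h2] at h1
  obtain ⟨B, hB⟩ := bounded_above hΓ hNc hNinv
  -- the entire function
  let φ : ℂ → ℂ := fun z => ρ (v₀ + z • w) *
    Complex.exp (F (v₀ + z • w) + Real.pi * (z * HK w v₀))
  have hline : Differentiable ℂ fun z : ℂ => v₀ + z • w :=
    (differentiable_id.smul_const w).const_add v₀
  have hφ : Differentiable ℂ φ :=
    (hρ.holo.comp hline).mul (((hF.comp hline).add
      ((differentiable_id.mul_const (HK w v₀)).const_mul (Real.pi : ℂ))).cexp)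
  have hφn : ∀ z, ‖φ z‖ ^ 2 = N (v₀ + z • w) *
      Real.exp (-(Real.pi * (HK v₀ v₀).re) - Real.pi * (HK w w).re * ‖z‖ ^ 2) := by
    intro z
    simp only [φ, N]
    rw [norm_mul, mul_pow, Complex.norm_exp, ← Real.exp_nat_mul, mul_assoc, ← Real.exp_add,
      h_diag_add hH, h_diag_smul hH, h_re_symm hH (z • w) v₀, hH.smul_left]
    congr 2
    simp only [Complex.add_re, Complex.re_ofReal_mul]
    push_cast
    ring
  have hφ0 : ∀ z, φ z ≠ 0 := fun z => by
    refine mul_ne_zero ?_ (Complex.exp_ne_zero _)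
    exact hzQ z _ (by rwa [dist_self])
  rcases lt_trichotomy (HK w w).re 0 with hlt | heq | hgt
  · exfalso
    have h1 := zero_of_gauss (g := fun z => (φ z)⁻¹) (hφ.inv hφ0)
      (C := (N x₀)⁻¹ * Real.exp (Real.pi * (HK v₀ v₀).re)) (a := Real.pi * -(HK w w).re)
      (mul_pos Real.pi_pos (by linarith)) (fun z => by
        rw [norm_inv, inv_pow, hφn, mul_inv, ← Real.exp_neg, mul_assoc (N x₀)⁻¹, ← Real.exp_add]
        refine mul_le_mul (inv_anti₀ hδ (hlow z)) (le_of_eq ?_) (Real.exp_pos _).le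
          (inv_nonneg.2 hδ.le)
        congr 1
        ring)
    exact inv_ne_zero (hφ0 0) h1
  · exact heq
  · exfalso
    have h1 := zero_of_gauss hφ
      (C := B * Real.exp (-(Real.pi * (HK v₀ v₀).re))) (a := Real.pi * (HK w w).re)
      (mul_pos Real.pi_pos hgt) (fun z => by
        rw [hφn, mul_assoc B, ← Real.exp_add]
        have e1 : -(Real.pi * (HK v₀ v₀).re) - Real.pi * (HK w w).re * ‖z‖ ^ 2
            = -(Real.pi * (HK v₀ v₀).re) + -(Real.pi * (HK w w).re * ‖z‖ ^ 2) := by ring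
        rw [e1]
        exact mul_le_mul_of_nonneg_right (hB _) (Real.exp_pos _).le)
    exact hφ0 0 h1

end Pool.Agent.X324.CF
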