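import Pool.Agent.X324.CF.Cls

/-!
# Description of the cones
-/

set_option autoImplicit false

namespace Pool.Agent.X324.CF

open Finset Filter Topology
open Pool.Agent.W594.SYZ2 Pool.Agent.W594.SYZ2.TQ Pool.Agent.TH735.AQ
open Pool.Agent.Y167 (cone cone_add cone_smul cone_le cone_mono cone_sum mem_cone_self
  zero_mem_cone cone_image cone_ind cone_of_scaled mem_cone_of_sum Rel Pol Cp)

variable {V E R : Type*} [NormedAddCommGroup V] [NormedSpace ℂ V] [FiniteDimensional ℂ V]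
  [NormedAddCommGroup E] [NormedSpace ℂ E] [FiniteDimensional ℂ E] [CommRing R] [IsDomain R]
  [Algebra ℂ R] {ρ n : ℕ}
  {𝒜 : Cl ρ → Submodule ℂ R} [GradedAlgebra 𝒜] {Γ : Grp V R} {x : Fin n → R} {w : Fin n → Cl ρ}
  {u : Cl ρ} {j : E →ₗ[ℂ] V} {H₀ : V → V → ℂ} {𝓘 : Finset (Finset (Fin n))}

/-- A set of classes which contains sufficiently many classes. -/
structure Good (w : Fin n → Cl ρ) (𝓘 : Finset (Finset (Fin n))) (P : Set (N1 𝒜 Γ j)) : Prop where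
  sub : P ⊆ KK 𝒜 Γ j w 𝓘
  bpf : ∀ L : LineBundle (base Γ), (∀ v, ∃ s, L.IsSection s ∧ s v ≠ 0) →
    ∀ a : N1 𝒜 Γ j, IsClass j (Sheaf.ofLB L : Sheaf 𝒜 Γ) (val a) → a ∈ P
  deg : ∀ β, Inv 𝒜 Γ β → (∀ I ∈ 𝓘, rv β ∈ CI w I) → ∃ M : ℕ, 0 < M ∧ ∃ a ∈ P,
    a ∈ effective 𝒜 Γ j ∧ val a = (0, (M : ℝ) • rv β)

section Deg

omit [FiniteDimensional ℂ V] [FiniteDimensional ℂ E] [IsDomain R] in
theorem mon_mem_of (D : IsMoriDream 𝒜 x w u) {c : Fin n → ℕ} {β : Cl ρ}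
    (h : β = ∑ i, c i • w i) : mon x c ∈ 𝒜 β := by
  rw [h]
  exact mon_mem D.mem c

omit [FiniteDimensional ℂ V] [FiniteDimensional ℂ E] [IsDomain R] [GradedAlgebra 𝒜] in
/-- The class of the sheaf of degree `card • m • β`. -/
theorem exists_degclass (D : Base 𝒜 w) (hQ : IsQuotient 𝒜 u Γ) {β : Cl ρ}
    (hβ : Inv 𝒜 Γ β) (m : ℕ) : ∃ a : N1 𝒜 Γ j,
      IsClass j (ofDeg D hQ (m • β) (hβ.nsmul m)) (val a) ∧
      val a = (0, ((Nat.card (gal Γ) * m : ℕ) : ℝ) • rv β) := by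
  have h1 := isClass_ofDeg (E := E) (j := j) D hQ (hβ.nsmul m)
  have h2 : ((0, (Nat.card (gal Γ) : ℝ) • rv (m • β)) : Pairs E ρ)
      = (0, ((Nat.card (gal Γ) * m : ℕ) : ℝ) • rv β) := by
    rw [rv_nsmul, smul_smul]
    push_cast
    rfl
  refine ⟨⟨(0, (Nat.card (gal Γ) : ℝ) • rv (m • β)), Submodule.subset_span ⟨_, h1⟩⟩, h1, h2⟩

omit [FiniteDimensional ℂ V] [FiniteDimensional ℂ E] in
theorem deg_movable (D : IsMoriDream 𝒜 x w u) (hQ : IsQuotient 𝒜 u Γ) {β : Cl ρ}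
    (hβ : Inv 𝒜 Γ β) (hI : ∀ I ∈ movF n, rv β ∈ CI w I) : ∃ M : ℕ, 0 < M ∧
      ∃ a ∈ movable 𝒜 Γ j, a ∈ effective 𝒜 Γ j ∧ val a = (0, (M : ℝ) • rv β) := by
  classical
  have := hQ.fin_gal
  have : Fintype (gal Γ) := Fintype.ofFinite _
  obtain ⟨m, hm, h1⟩ := exists_uniform (movF n) hI
  obtain ⟨a, ha1, ha2⟩ := exists_degclass (j := j) D.base hQ hβ m
  obtain ⟨c₀, -, hc₀⟩ := h1 _ (Finset.mem_insert_self _ _)
  refine ⟨Nat.card (gal Γ) * m, Nat.mul_pos Nat.card_pos hm, a, ⟨_, ha1, ?_⟩, ?_, ha2⟩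
  · intro β₀ F _ _ hdiv v
    refine unit_of_dvd_nrm (K := gal Γ) D (β := m • β) ⟨c₀, hc₀.symm⟩ (fun i => ?_)
      (fun r hr => hdiv _ (ofDeg_section hr) v)
    obtain ⟨c, hc, hcm⟩ := h1 (Finset.univ.erase i) (Finset.mem_insert_of_mem
      (Finset.mem_image_of_mem _ (Finset.mem_univ i)))
    exact ⟨c, hcm.symm, hc i (Finset.notMem_erase i _)⟩
  · exact ⟨_, _, ha1, ofDeg_section (mon_mem_of D hc₀), 0,
      nrm_ne_zero (mon_ne_zero D.prime c₀)⟩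

omit [FiniteDimensional ℂ V] [FiniteDimensional ℂ E] in
theorem deg_semiample (D : IsMoriDream 𝒜 x w u) (hQ : IsQuotient 𝒜 u Γ) {β : Cl ρ}
    (hβ : Inv 𝒜 Γ β) (hI : ∀ I ∈ nefF 𝒜 x u, rv β ∈ CI w I) : ∃ M : ℕ, 0 < M ∧
      ∃ a ∈ semiample 𝒜 Γ j u, a ∈ effective 𝒜 Γ j ∧ val a = (0, (M : ℝ) • rv β) := by
  classical
  have := hQ.fin_gal
  have : Fintype (gal Γ) := Fintype.ofFinite _
  obtain ⟨m, hm, h1⟩ := exists_uniform (nefF 𝒜 x u) hI
  obtain ⟨a, ha1, ha2⟩ := exists_degclass (j := j) D.base hQ hβ m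
  obtain ⟨c₀, -, hc₀⟩ := h1 _ (Finset.mem_insert_self _ _)
  refine ⟨Nat.card (gal Γ) * m, Nat.mul_pos Nat.card_pos hm, a,
    ⟨_, ha1, 1, one_pos, fun v p hp => ?_⟩, ?_, ha2⟩
  · obtain ⟨r, hr, hr0⟩ := exists_nonvanish (K := gal Γ) (𝒜 := 𝒜) (β := m • β) (p := p) (by
      intro φ
      have hq := semistable_comp hQ hp φ.2
      obtain ⟨c, hc, hcm⟩ := h1 (supp x (p.comp (φ.1 : R →ₐ[ℂ] R)))
        (Finset.mem_insert_of_mem (Finset.mem_filter.2 ⟨Finset.mem_univ _, _, hq, rfl⟩))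
      refine ⟨mon x c, mon_mem_of D hcm, ?_⟩
      have h2 : p (φ.1 (mon x c)) = ∏ i, (p.comp (φ.1 : R →ₐ[ℂ] R)) (x i) ^ c i := by
        have h3 : p (φ.1 (mon x c)) = (p.comp (φ.1 : R →ₐ[ℂ] R)) (mon x c) := rfl
        rw [h3, mon, map_prod]
        exact Finset.prod_congr rfl fun i _ => by rw [map_pow]
      rw [h2]
      refine Finset.prod_ne_zero_iff.2 fun i _ => ?_
      by_cases hi : i ∈ supp x (p.comp (φ.1 : R →ₐ[ℂ] R))
      · exact pow_ne_zero _ (mem_supp.1 hi)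
      · rw [hc i hi, pow_zero]
        exact one_ne_zero)
    exact ⟨_, Sheaf.pow_one_section (ofDeg_section hr), hr0⟩
  · exact ⟨_, _, ha1, ofDeg_section (mon_mem_of D hc₀), 0,
      nrm_ne_zero (mon_ne_zero D.prime c₀)⟩

end Deg

omit [FiniteDimensional ℂ E] in
theorem good_movable (D : IsMoriDream 𝒜 x w u) (hQ : IsQuotient 𝒜 u Γ) :
    Good w (movF n) (movable 𝒜 Γ j) where
  sub := movable_sub D hQ
  bpf := fun _ hs _ ha => bpf_movable hs ha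
  deg := fun _ hβ hI => deg_movable D hQ hβ hI

omit [FiniteDimensional ℂ E] in
theorem good_semiample (D : IsMoriDream 𝒜 x w u) (hQ : IsQuotient 𝒜 u Γ) :
    Good w (nefF 𝒜 x u) (semiample 𝒜 Γ j u) where
  sub := semiample_sub D hQ
  bpf := fun _ hs _ ha => bpf_semiample hs ha
  deg := fun _ hβ hI => deg_semiample D hQ hβ hI

/-! ### Forms -/

omit [IsDomain R] [Algebra ℂ R] [CommRing R] in
/-- The set of classes of base point free line bundles. -/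
def bpfSet (Γ₀ : Subgroup (V ≃ᵃ[ℂ] V)) (j : E →ₗ[ℂ] V) : Set (Pool.Agent.Y167.N1 Γ₀ j) :=
  {a | ∃ L : LineBundle Γ₀, Pool.Agent.Y167.IsClass j L a.1 ∧
    ∀ v, ∃ s, L.IsSection s ∧ s v ≠ 0}

/-- Positive definite classes are combinations of classes of base point free line bundles. -/
theorem interior_form {Γ₀ : Subgroup (V ≃ᵃ[ℂ] V)} (Rl : Rel Γ₀ j H₀)
    {a : Pool.Agent.Y167.N1 Γ₀ j} {t : ℝ} (ht : 0 < t)
    (h : ∀ e, t * (H₀ (j e) (j e)).re ≤ (a.1 e e).re) : a ∈ coneHull (bpfSet Γ₀ j) := by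
  classical
  obtain ⟨d, b, P⟩ := Rl.pol
  obtain ⟨F, hF, hFc⟩ := P.red
  obtain ⟨g, hu1, hu2, hu3, c, hc, hx⟩ := hFc a.1 (Pool.Agent.Y167.mem_span_int Rl a) ⟨t, ht, h⟩
  have hcl : ∀ z, z ∈ F → ∃ (y : Pool.Agent.Y167.N1 Γ₀ j) (m : ℕ), 0 < m ∧ y ∈ bpfSet Γ₀ j ∧
      ∀ v w, y.1 v w = m * z (g v) (g w) := by
    intro z hz
    obtain ⟨hz1, hz2⟩ := hF z hz
    have h1 : Pol.IsInt (Pool.Agent.Y167.lattE Γ₀ j) (Pool.Agent.Y167.opE Γ₀ j)
        (fun v w => z (g v) (g w)) := by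
      refine ⟨⟨?_, ?_, ?_⟩, ?_, ?_⟩
      · intro u v w
        rw [map_add, hz1.herm.add_left]
      · intro c v w
        rw [map_smul, hz1.herm.smul_left]
      · intro v w
        exact hz1.herm.symm _ _
      · intro q hq u w
        rw [hu3 q hq, hu3 q hq, hz1.inv q hq]
      · intro u hu w hw
        exact hz1.int _ (hu1 u hu) _ (hu1 w hw)
    obtain ⟨m, hm, L, H, hL, h2, hs⟩ := Rl.exists_class h1 (fun v => hz2 (g v))
    obtain ⟨y, hy1, hy2⟩ := Pool.Agent.Y167.exists_int (j := j) (L := L)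
      (h := fun u w => H (j u) (j w)) ⟨H, hL, fun _ _ => rfl⟩
    refine ⟨y, m, hm, ⟨L, ⟨H, hL, fun u w => by rw [hy1]⟩, hs⟩, fun v w => ?_⟩
    rw [hy1]
    exact h2 v w
  choose! yf mf hmf hyf1 hyf2 using hcl
  refine ⟨F.image yf, ?_, ?_⟩
  · intro y hy
    obtain ⟨z, hz, rfl⟩ := Finset.mem_image.1 (Finset.mem_coe.1 hy)
    exact hyf1 z hz
  · have h1 : a = ∑ z ∈ F, (c z / mf z) • yf z := by
      apply Subtype.ext
      funext v w
      have h2 : (∑ z ∈ F, (c z / mf z) • yf z : Pool.Agent.Y167.N1 Γ₀ j).1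
          = ∑ z ∈ F, (c z / mf z) • (yf z).1 := by
        rw [Submodule.coe_sum]
        rfl
      rw [hx, h2]
      simp only [Finset.sum_apply, Pi.smul_apply]
      refine Finset.sum_congr rfl fun z hz => ?_
      rw [hyf2 z hz, Complex.real_smul]
      have hm : ((mf z : ℕ) : ℂ) ≠ 0 := by
        have := hmf z hz
        exact_mod_cast this.ne'
      push_cast
      field_simp
    rw [h1]
    exact mem_cone_of_sum F _ _ (fun z hz => Finset.mem_image_of_mem _ hz)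
      (fun z _ => div_nonneg (hc z) (Nat.cast_nonneg _))

omit [FiniteDimensional ℂ E] [IsDomain R] [FiniteDimensional ℂ V] [GradedAlgebra 𝒜] in
/-- The classes of base point free line bundles, as classes of sheaves. -/
theorem i1_hull {P : Set (N1 𝒜 Γ j)}
    (hP : ∀ L : LineBundle (base Γ), (∀ v, ∃ s, L.IsSection s ∧ s v ≠ 0) →
      ∀ a : N1 𝒜 Γ j, IsClass j (Sheaf.ofLB L : Sheaf 𝒜 Γ) (val a) → a ∈ P)
    {a : Pool.Agent.Y167.N1 (base Γ) j} (ha : a ∈ coneHull (bpfSet (base Γ) j)) :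
    (i1 a : N1 𝒜 Γ j) ∈ coneHull P := by
  refine hull_ind (p := fun a => (i1 a : N1 𝒜 Γ j) ∈ coneHull P) ?_ ?_ ?_ ?_ ha
  · rw [map_zero]; exact hull_zero
  · intro a b h1 h2
    rw [map_add]
    exact hull_add h1 h2
  · intro t a ht h1
    rw [map_smul]
    exact hull_smul ht h1
  · rintro a ⟨L, hL, hs⟩
    exact hull_mem (hP L hs _ (isClass_ofLB hL))

omit [FiniteDimensional ℂ E] in
/-- Integral nef forms are combinations of classes of base point free line bundles. -/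
theorem nef_form {Γ₀ : Subgroup (V ≃ᵃ[ℂ] V)} [FiniteDimensional ℂ E] (Rl : Rel Γ₀ j H₀)
    {a : Pool.Agent.Y167.N1 Γ₀ j} (ha : Pool.Agent.Y167.Integral a)
    (hn : a ∈ Pool.Agent.Y167.nefCone Γ₀ j) : a ∈ coneHull (bpfSet Γ₀ j) := by
  obtain ⟨m, hm, L, hL, hs⟩ := Pool.Agent.Y167.exists_eff Rl ha hn
  have hmr : (0 : ℝ) < m := by exact_mod_cast hm
  exact hull_scaled hmr ⟨L, hL, hs⟩

/-! ### The cone of `F` -/

omit [FiniteDimensional ℂ V] [FiniteDimensional ℂ E] [IsDomain R] [GradedAlgebra 𝒜] in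
/-- The invariant classes in the cone of the family are generated by finitely many integral ones. -/
theorem exists_gensF (𝒜 : Cl ρ → Submodule ℂ R) (Γ : Grp V R) (w : Fin n → Cl ρ)
    (𝓘 : Finset (Finset (Fin n))) : ∃ S : Finset (Fin ρ → ℝ),
      (∀ a ∈ S, (∃ β, Inv 𝒜 Γ β ∧ a = rv β) ∧ ∀ I ∈ 𝓘, a ∈ CI w I) ∧
      ∀ b ∈ Bs 𝒜 Γ, (∀ I ∈ 𝓘, b ∈ CI w I) → b ∈ cone S := by
  classical
  choose Y hY using exists_ineq w
  obtain ⟨S, hS, h⟩ := exists_gens (invL 𝒜 Γ) (𝓘.biUnion fun I => (Y I).image fun y => dot (rv y))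
    (by
      intro φ hφ b hb
      obtain ⟨I, -, h1⟩ := Finset.mem_biUnion.1 hφ
      obtain ⟨y, -, rfl⟩ := Finset.mem_image.1 h1
      obtain ⟨β, -, rfl⟩ := hb
      exact ⟨_, dot_int _ _⟩)
  refine ⟨S, fun a ha => ⟨hS a ha, fun I hI => ?_⟩, fun b hb hbI => ?_⟩
  · rw [hY I]
    intro y hy
    exact ((h a).1 (mem_cone_self ha)).2 _ (Finset.mem_biUnion.2 ⟨I, hI,
      Finset.mem_image_of_mem _ hy⟩)
  · rw [h]
    refine ⟨hb, fun φ hφ => ?_⟩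
    obtain ⟨I, hI, h1⟩ := Finset.mem_biUnion.1 hφ
    obtain ⟨y, hy, rfl⟩ := Finset.mem_image.1 h1
    exact (hY I b).1 (hbI I hI) y hy

omit [FiniteDimensional ℂ V] [FiniteDimensional ℂ E] [IsDomain R] [GradedAlgebra 𝒜] in
/-- The classes of degree in the cone of the family and with form zero. -/
theorem i2_hull (D : Base 𝒜 w) (hQ : IsQuotient 𝒜 u Γ) {P : Set (N1 𝒜 Γ j)}
    (hP : ∀ β, Inv 𝒜 Γ β → (∀ I ∈ 𝓘, rv β ∈ CI w I) → ∃ M : ℕ, 0 < M ∧ ∃ a ∈ P,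
      val a = (0, (M : ℝ) • rv β))
    {b : Bs 𝒜 Γ} (hb : ∀ I ∈ 𝓘, b.1 ∈ CI w I) : (i2 D hQ b : N1 𝒜 Γ j) ∈ coneHull P := by
  classical
  obtain ⟨S, hS, h⟩ := exists_gensF 𝒜 Γ w 𝓘
  have h1 : ∀ b, b ∈ cone S → ∃ a : N1 𝒜 Γ j, a ∈ coneHull P ∧ val a = (0, b) := by
    intro b hb
    refine cone_ind (p := fun b => ∃ a : N1 𝒜 Γ j, a ∈ coneHull P ∧ val a = (0, b)) ?_ ?_ ?_ ?_ hb
    · exact ⟨0, hull_zero, rfl⟩
    · rintro b c ⟨a, ha, h1⟩ ⟨a', ha', h2⟩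
      refine ⟨a + a', hull_add ha ha', ?_⟩
      change val a + val a' = _
      rw [h1, h2, Prod.mk_add_mk, add_zero]
    · rintro t b ht ⟨a, ha, h1⟩
      refine ⟨t • a, hull_smul ht ha, ?_⟩
      change t • val a = _
      rw [h1, Prod.smul_mk, smul_zero]
    · intro s hs
      obtain ⟨⟨β, hβ, rfl⟩, h2⟩ := hS s hs
      obtain ⟨M, hM, a, ha, h3⟩ := hP β hβ h2
      have hMr : (0 : ℝ) < M := by exact_mod_cast hM
      refine ⟨(M : ℝ)⁻¹ • a, hull_smul (inv_nonneg.2 hMr.le) (hull_mem ha), ?_⟩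
      change (M : ℝ)⁻¹ • val a = _
      rw [h3, Prod.smul_mk, smul_zero, smul_smul, inv_mul_cancel₀ hMr.ne', one_smul]
  obtain ⟨a, ha, h2⟩ := h1 b.1 (h b.1 b.2 hb)
  have h3 : i2 D hQ b = a := by
    apply val_ext
    rw [h2, val_i2]
  rw [h3]
  exact ha

/-! ### The closed cone -/

/-- `KK` is contained in the closure of the cone spanned by a good set. -/
theorem KK_sub_closure (D : Base 𝒜 w) (hQ : IsQuotient 𝒜 u Γ)
    (hF : Fam w u 𝓘) (Rl : Rel (base Γ) j H₀) {P : Set (N1 𝒜 Γ j)} (hP : Good w 𝓘 P)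
    (hu : ∀ I ∈ 𝓘, rv u ∈ CI w I) : KK 𝒜 Γ j w 𝓘 ⊆ closure (coneHull P) := by
  intro a ha
  obtain ⟨y, hy, hy'⟩ := Pool.Agent.Y167.exists_ample Rl
  let y₀ : N1 𝒜 Γ j := i1 y + i2 D hQ ⟨rv u, Submodule.subset_span ⟨u, hQ.inv, rfl⟩⟩
  have key : ∀ ε : ℝ, 0 < ε → a + ε • y₀ ∈ coneHull P := by
    intro ε hε
    rw [← split D hQ (a + ε • y₀)]
    refine hull_add ?_ ?_
    · refine i1_hull hP.bpf (interior_form Rl hε fun e => ?_)
      have h1 : (p1 hQ (a + ε • y₀)).1 e e = (val a).1 e e + ε • H₀ (j e) (j e) := by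
        change (val a).1 e e + ε • (y.1 e e + 0) = _
        rw [add_zero, hy']
      rw [h1, Complex.add_re, Complex.smul_re, smul_eq_mul]
      linarith [ha.1 e]
    · refine i2_hull (𝓘 := 𝓘) D hQ (fun β hβ hI => ?_) (fun I hI => ?_)
      · obtain ⟨M, hM, a, haP, -, h2⟩ := hP.deg β hβ hI
        exact ⟨M, hM, a, haP, h2⟩
      · have h1 : (p2 (a + ε • y₀)).1 = (val a).2 + ε • rv u := by
          change (val a).2 + ε • ((0 : Fin ρ → ℝ) + rv u) = _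
          rw [zero_add]
        rw [h1]
        exact CI_add (ha.2 I hI) (CI_smul (hu I hI) hε.le)
  have h2 : Tendsto (fun k : ℕ => a + (1 / ((k : ℝ) + 1)) • y₀) atTop (𝓝 a) := by
    have hind : Topology.IsInducing (val : N1 𝒜 Γ j → Pairs E ρ) :=
      Topology.IsInducing.subtypeVal
    rw [hind.tendsto_nhds_iff]
    have h3 : (val : N1 𝒜 Γ j → Pairs E ρ) ∘ (fun k : ℕ => a + (1 / ((k : ℝ) + 1)) • y₀)
        = fun k : ℕ => val a + (1 / ((k : ℝ) + 1)) • val y₀ := rfl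
    rw [h3]
    have h4 : Tendsto (fun k : ℕ => (1 / ((k : ℝ) + 1)) • val y₀) atTop (𝓝 ((0 : ℝ) • val y₀)) :=
      (tendsto_one_div_add_atTop_nhds_zero_nat (𝕜 := ℝ)).smul_const _
    rw [zero_smul] at h4
    have h5 := h4.const_add (val a)
    rwa [add_zero] at h5
  exact mem_closure_of_tendsto h2 (Eventually.of_forall fun k => key _ (by positivity))

theorem closure_eq (D : Base 𝒜 w) (hQ : IsQuotient 𝒜 u Γ)
    (hF : Fam w u 𝓘) (Rl : Rel (base Γ) j H₀) {P : Set (N1 𝒜 Γ j)} (hP : Good w 𝓘 P)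
    (hu : ∀ I ∈ 𝓘, rv u ∈ CI w I) : closure (coneHull P) = KK 𝒜 Γ j w 𝓘 :=
  Set.Subset.antisymm (closure_sub hP.sub) (KK_sub_closure D hQ hF Rl hP hu)

omit [FiniteDimensional ℂ V] [FiniteDimensional ℂ E] [IsDomain R] [GradedAlgebra 𝒜] in
theorem KK_form (hQ : IsQuotient 𝒜 u Γ) {a : N1 𝒜 Γ j} (ha : a ∈ KK 𝒜 Γ j w 𝓘) :
    p1 hQ a ∈ Pool.Agent.Y167.nefCone (base Γ) j := ha.1

/-- The classes in the closed cone which are effective form the convex hull of the rational points of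
the closed cone. -/
theorem cp_eq (D : Base 𝒜 w) (hQ : IsQuotient 𝒜 u Γ)
    (hF : Fam w u 𝓘) (Rl : Rel (base Γ) j H₀) {P : Set (N1 𝒜 Γ j)} (hP : Good w 𝓘 P)
    (hu : ∀ I ∈ 𝓘, rv u ∈ CI w I) :
    closure (coneHull P) ∩ effCone 𝒜 Γ j = Cp (intL 𝒜 Γ j) (KK 𝒜 Γ j w 𝓘) := by
  classical
  have hexp := expo_pos hQ
  have hexpr : (0 : ℝ) < expo Γ := by exact_mod_cast hexp
  have hcard : (0 : ℝ) < Nat.card (gal Γ) := by
    have := hQ.fin_gal
    have : 0 < Nat.card (gal Γ) := Nat.card_pos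
    exact_mod_cast this
  have hmix : ∀ a ∈ integral 𝒜 Γ j, a ∈ KK 𝒜 Γ j w 𝓘 → a ∈ coneHull (P ∩ effective 𝒜 Γ j) := by
    intro a ha haK
    rw [← split D hQ a]
    refine hull_add ?_ ?_
    · have h1 := nef_form Rl (Int.p1 hQ ha) (Pool.Agent.Y167.nef_smul hexpr.le (KK_form hQ haK))
      have h2 := i1_hull (P := P ∩ effective 𝒜 Γ j)
        (fun L hs a ha => ⟨hP.bpf L hs a ha, bpf_effective hs ha⟩) h1
      rw [map_smul] at h2
      have h3 := hull_smul (inv_nonneg.2 hexpr.le) h2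
      rwa [smul_smul, inv_mul_cancel₀ hexpr.ne', one_smul] at h3
    · refine i2_hull D hQ (fun β hβ hI => ?_) (fun I hI => haK.2 I hI)
      obtain ⟨M, hM, a, haP, hae, h2⟩ := hP.deg β hβ hI
      exact ⟨M, hM, a, ⟨haP, hae⟩, h2⟩
  apply Set.Subset.antisymm
  · rintro a ⟨haK, haE⟩
    rw [closure_eq D hQ hF Rl hP hu] at haK
    -- the form
    have h1 : ∀ a : N1 𝒜 Γ j, a ∈ effCone 𝒜 Γ j →
        (i1 (p1 hQ a) : N1 𝒜 Γ j) ∈ Cp (intL 𝒜 Γ j) (KK 𝒜 Γ j w 𝓘) := by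
      intro a ha
      refine hull_ind (p := fun a => (i1 (p1 hQ a) : N1 𝒜 Γ j) ∈
        Cp (intL 𝒜 Γ j) (KK 𝒜 Γ j w 𝓘)) ?_ ?_ ?_ ?_ ha
      · rw [map_zero, map_zero]
        exact ⟨∅, by simp, zero_mem_cone _⟩
      · rintro a b ⟨S, hS, h1⟩ ⟨T, hT, h2⟩
        rw [map_add, map_add]
        refine ⟨S ∪ T, fun c hc => ?_, cone_add (cone_mono Finset.subset_union_left h1)
          (cone_mono Finset.subset_union_right h2)⟩
        rcases Finset.mem_union.1 hc with h | h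
        · exact hS c h
        · exact hT c h
      · rintro t a ht ⟨S, hS, h1⟩
        rw [map_smul, map_smul]
        exact ⟨S, hS, cone_smul h1 ht⟩
      · intro a ha
        have h2 : Pool.Agent.Y167.Integral ((expo Γ : ℝ) • p1 hQ a) := by
          obtain ⟨𝓛, f, hc, -⟩ := ha
          exact ⟨_, isClass_toLB hQ hc⟩
        refine ⟨{i1 ((expo Γ : ℝ) • p1 hQ a)}, fun c hc => ?_, ?_⟩
        · rw [Finset.mem_singleton] at hc
          rw [hc]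
          refine ⟨Int.i1 h2, ?_⟩
          rw [map_smul]
          have h5 : ∀ e, 0 ≤ ((val a).1 e e).re := effective_form hQ ha
          exact KK_smul hexpr.le ⟨h5, fun I _ => CI_zero⟩
        · rw [map_smul]
          exact cone_of_scaled hexpr (Finset.mem_singleton_self _)
    obtain ⟨S, hS, hS1⟩ := h1 a haE
    obtain ⟨T, hT, hT1⟩ := exists_gensF 𝒜 Γ w 𝓘
    have h2 : (p2 a).1 ∈ cone T := hT1 _ (p2 a).2 haK.2
    have h3 : ∀ b, b ∈ cone T → ∃ a : N1 𝒜 Γ j, a ∈ Cp (intL 𝒜 Γ j) (KK 𝒜 Γ j w 𝓘) ∧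
        val a = (0, b) := by
      intro b hb
      refine cone_ind (p := fun b => ∃ a : N1 𝒜 Γ j, a ∈ Cp (intL 𝒜 Γ j) (KK 𝒜 Γ j w 𝓘) ∧
        val a = (0, b)) ?_ ?_ ?_ ?_ hb
      · exact ⟨0, ⟨∅, by simp, zero_mem_cone _⟩, rfl⟩
      · rintro b c ⟨a, ⟨S, hS, h1⟩, e1⟩ ⟨a', ⟨S', hS', h1'⟩, e2⟩
        refine ⟨a + a', ⟨S ∪ S', fun c hc => ?_, cone_add (cone_mono Finset.subset_union_left h1)
          (cone_mono Finset.subset_union_right h1')⟩, ?_⟩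
        · rcases Finset.mem_union.1 hc with h | h
          · exact hS c h
          · exact hS' c h
        · change val a + val a' = _
          rw [e1, e2, Prod.mk_add_mk, add_zero]
      · rintro t b ht ⟨a, ⟨S, hS, h1⟩, e1⟩
        refine ⟨t • a, ⟨S, hS, cone_smul h1 ht⟩, ?_⟩
        change t • val a = _
        rw [e1, Prod.smul_mk, smul_zero]
      · intro s hs
        obtain ⟨⟨β, hβ, rfl⟩, h4⟩ := hT s hs
        let b : Bs 𝒜 Γ := ⟨rv β, Submodule.subset_span ⟨β, hβ, rfl⟩⟩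
        refine ⟨i2 D hQ b, ⟨{(Nat.card (gal Γ) : ℝ) • i2 D hQ b}, fun c hc => ?_, ?_⟩, rfl⟩
        · rw [Finset.mem_singleton] at hc
          rw [hc]
          refine ⟨Int.i2 D hQ hβ rfl, KK_smul hcard.le ⟨fun e => le_refl (0 : ℝ), h4⟩⟩
        · exact cone_of_scaled hcard (Finset.mem_singleton_self _)
    obtain ⟨a', ⟨S', hS', h4⟩, h5⟩ := h3 _ h2
    have h6 : i2 D hQ (p2 a) = a' := val_ext (by rw [h5]; rfl)
    rw [← split D hQ a, h6]
    refine ⟨S ∪ S', fun c hc => ?_, cone_add (cone_mono Finset.subset_union_left hS1)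
      (cone_mono Finset.subset_union_right h4)⟩
    rcases Finset.mem_union.1 hc with h | h
    · exact hS c h
    · exact hS' c h
  · rintro a ⟨S, hS, ha⟩
    have h1 : a ∈ coneHull (P ∩ effective 𝒜 Γ j) :=
      hull_of_cone (fun b hb => hmix b (hS b hb).1 (hS b hb).2) ha
    refine ⟨subset_closure (hull_le (fun b hb => hull_mem hb.1) h1),
      hull_le (fun b hb => hull_mem hb.2) h1⟩

end Pool.Agent.X324.CF
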