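import Pool.Agent.X324.CF.PolyNef
import Pool.Agent.Y167.Plus

/-!
# Rational classes and faces
-/

set_option autoImplicit false

namespace Pool.Agent.X324.CF

open Finset Filter Topology
open Pool.Agent.W594.SYZ2 Pool.Agent.W594.SYZ2.TQ Pool.Agent.TH735.AQ
open Pool.Agent.Y167 (cone cone_add cone_smul cone_le cone_mono cone_sum mem_cone_self
  zero_mem_cone cone_image cone_ind cone_of_scaled mem_cone_of_sum Rel Pol Cp CData IsFace)
open Pool.Agent.Y167.CC (LinGrp Preserves IsFundDomain)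

variable {V E R : Type*} [NormedAddCommGroup V] [NormedSpace ℂ V] [FiniteDimensional ℂ V]
  [NormedAddCommGroup E] [NormedSpace ℂ E] [FiniteDimensional ℂ E] [CommRing R] [IsDomain R]
  [Algebra ℂ R] {ρ n : ℕ}
  {𝒜 : Cl ρ → Submodule ℂ R} [GradedAlgebra 𝒜] {Γ : Grp V R} {x : Fin n → R} {w : Fin n → Cl ρ}
  {u : Cl ρ} {j : E →ₗ[ℂ] V} {H₀ : V → V → ℂ} {𝓘 : Finset (Finset (Fin n))}

/-- The convex hull of the rational points of a convex cone. -/
theorem cp_eq_convexHull {W : Type*} [AddCommGroup W] [Module ℝ W] {L : AddSubgroup W} {K : Set W}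
    (h0 : (0 : W) ∈ K) (hsmul : ∀ t : ℝ, 0 ≤ t → ∀ x ∈ K, t • x ∈ K) :
    Cp L K = convexHull ℝ (K ∩ {x | ∃ n : ℕ, 0 < n ∧ (n : ℝ) • x ∈ L}) := by
  apply Set.Subset.antisymm
  · rintro x ⟨T, hT, c, hc, hxT⟩
    obtain ⟨N, hN⟩ := exists_nat_gt (∑ a ∈ T, c a)
    have h0' : 0 ≤ ∑ a ∈ T, c a := Finset.sum_nonneg fun a _ => hc a
    have hNr : (0 : ℝ) < N := lt_of_le_of_lt h0' hN
    have hconv := convex_convexHull ℝ (K ∩ {x | ∃ n : ℕ, 0 < n ∧ (n : ℝ) • x ∈ L})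
    have hzero : (0 : W) ∈ K ∩ {x | ∃ n : ℕ, 0 < n ∧ (n : ℝ) • x ∈ L} :=
      ⟨h0, 1, one_pos, by rw [smul_zero]; exact L.zero_mem⟩
    have hmem : ∀ a ∈ T, (N : ℝ) • a ∈ K ∩ {x | ∃ n : ℕ, 0 < n ∧ (n : ℝ) • x ∈ L} := by
      intro a ha
      refine ⟨hsmul _ hNr.le _ (hT a ha).2, 1, one_pos, ?_⟩
      rw [Nat.cast_one, one_smul, Nat.cast_smul_eq_nsmul]
      exact L.nsmul_mem (hT a ha).1 N
    have h2 : x = (1 - (∑ a ∈ T, c a) / N) • (0 : W)
        + ∑ a ∈ T, (c a / N) • ((N : ℝ) • a) := by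
      rw [smul_zero, zero_add, hxT]
      refine Finset.sum_congr rfl fun a _ => ?_
      rw [smul_smul, div_mul_cancel₀ _ hNr.ne']
    have h3 : ∑ o : Option T, (Option.elim o (1 - (∑ a ∈ T, c a) / N) fun a => c a / N) •
        (Option.elim o (0 : W) fun a => (N : ℝ) • (a : W)) = x := by
      rw [Fintype.sum_option, h2]
      congr 1
      exact Finset.sum_coe_sort T (fun a => (c a / N) • ((N : ℝ) • a))
    rw [← h3]
    refine hconv.sum_mem (fun o _ => ?_) ?_ (fun o _ => ?_)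
    · cases o with
      | none =>
        change 0 ≤ 1 - (∑ a ∈ T, c a) / N
        have := (div_lt_one hNr).2 hN
        linarith
      | some a =>
        change 0 ≤ c a / N
        exact div_nonneg (hc _) hNr.le
    · rw [Fintype.sum_option]
      change 1 - (∑ a ∈ T, c a) / N + ∑ a : T, c a / N = 1
      rw [Finset.sum_coe_sort T (fun a => c a / (N : ℝ)), ← Finset.sum_div]
      ring
    · cases o with
      | none => exact subset_convexHull ℝ _ hzero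
      | some a => exact subset_convexHull ℝ _ (hmem a a.2)
  · apply convexHull_min
    · rintro x ⟨hx, n, hn, h⟩
      have hnr : (0 : ℝ) < n := by exact_mod_cast hn
      refine ⟨{(n : ℝ) • x}, fun a ha => ?_, cone_of_scaled hnr (Finset.mem_singleton_self _)⟩
      rw [Finset.mem_singleton] at ha
      rw [ha]
      exact ⟨h, hsmul _ hnr.le _ hx⟩
    · rintro x ⟨S, hS, hx⟩ y ⟨T, hT, hy⟩ s t hs ht _
      classical
      refine ⟨S ∪ T, fun a ha => ?_, cone_add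
        (cone_mono Finset.subset_union_left (cone_smul hx hs))
        (cone_mono Finset.subset_union_right (cone_smul hy ht))⟩
      rcases Finset.mem_union.1 ha with h | h
      · exact hS a h
      · exact hT a h

/-- The cone is the convex hull of its rational classes. -/
theorem plus (D : Base 𝒜 w) (hQ : IsQuotient 𝒜 u Γ) (hF : Fam w u 𝓘)
    (Rl : Rel (base Γ) j H₀) {P : Set (N1 𝒜 Γ j)} (hP : Good w 𝓘 P) :
    closure (coneHull P) ∩ effCone 𝒜 Γ j = convexHull ℝ (closure (coneHull P) ∩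
      {x | ∃ n : ℕ, 0 < n ∧ (n : ℝ) • x ∈ integral 𝒜 Γ j}) := by
  have hu : ∀ I ∈ 𝓘, rv u ∈ CI w I := fun I hI => hF.u_mem hI
  rw [cp_eq D hQ hF Rl hP hu, closure_eq D hQ hF Rl hP hu,
    cp_eq_convexHull KK_zero fun t ht a ha => KK_smul ht ha]
  rfl

theorem finDim (D : Base 𝒜 w) (hQ : IsQuotient 𝒜 u Γ) (Rl : Rel (base Γ) j H₀) :
    FiniteDimensional ℝ (N1 𝒜 Γ j) := by
  have := Pool.Agent.Y167.finDim_N1 Rl
  exact (eqv (j := j) D hQ).symm.finiteDimensional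

omit [FiniteDimensional ℂ V] [FiniteDimensional ℂ E] [IsDomain R] [GradedAlgebra 𝒜] in
theorem effCone_add {a b : N1 𝒜 Γ j} (ha : a ∈ effCone 𝒜 Γ j) (hb : b ∈ effCone 𝒜 Γ j) :
    a + b ∈ effCone 𝒜 Γ j := hull_add ha hb

/-- The faces of the cone form finitely many orbits. -/
theorem faces (D : Base 𝒜 w) (hQ : IsQuotient 𝒜 u Γ) (hF : Fam w u 𝓘)
    (Rl : Rel (base Γ) j H₀) {P : Set (N1 𝒜 Γ j)} (hP : Good w 𝓘 P) (𝒢 : LinGrp (N1 𝒜 Γ j))
    (hcone : Preserves 𝒢 (closure (coneHull P) ∩ effCone 𝒜 Γ j)) {S : Finset (N1 𝒜 Γ j)}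
    (hS : cone S ⊆ closure (coneHull P) ∩ effCone 𝒜 Γ j)
    (hcov : IsFundDomain 𝒢 (closure (coneHull P) ∩ effCone 𝒜 Γ j) (cone S)) :
    ∃ 𝓕 : Set (Set (N1 𝒜 Γ j)), 𝓕.Finite ∧
      (∀ F ∈ 𝓕, IsFace F (closure (coneHull P) ∩ effCone 𝒜 Γ j)) ∧
      ∀ F, IsFace F (closure (coneHull P) ∩ effCone 𝒜 Γ j) →
        ∃ g ∈ 𝒢, ∃ F' ∈ 𝓕, F = g '' F' := by
  have := finDim (j := j) D hQ Rl
  have hu : ∀ I ∈ 𝓘, rv u ∈ CI w I := fun I hI => hF.u_mem hI
  have hcl := closure_eq D hQ hF Rl hP hu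
  refine Pool.Agent.Y167.finite_faces (A := closure (coneHull P) ∩ effCone 𝒜 Γ j)
    (fun a ha b hb => ⟨?_, hull_add ha.2 hb.2⟩) (fun a ha t ht => ⟨?_, hull_smul ht ha.2⟩)
    𝒢 hcone hS fun a ha => ?_
  · rw [hcl] at ha hb ⊢
    exact KK_add ha.1 hb.1
  · rw [hcl] at ha ⊢
    exact KK_smul ht ha.1
  · rw [hcov.1] at ha
    simp only [Set.mem_iUnion, Set.mem_image, exists_prop] at ha
    exact ha

/-! ### The positive forms given by an ample sheaf -/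

omit [IsDomain R] [GradedAlgebra 𝒜] in
theorem expo_form (hQ : IsQuotient 𝒜 u Γ) {H : V → V → ℂ} (hp : IsPositiveForm H) :
    IsPositiveForm (fun v w => (expo Γ : ℂ) * H v w) := by
  intro v hv
  have e1 : (expo Γ : ℂ) = ((expo Γ : ℝ) : ℂ) := by push_cast; rfl
  rw [e1, Complex.re_ofReal_mul]
  have h1 : (0 : ℝ) < expo Γ := by exact_mod_cast expo_pos hQ
  exact mul_pos h1 (hp v hv)

omit [IsDomain R] [GradedAlgebra 𝒜] in
/-- The data for a fibration. -/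
theorem rel_emb {W : Type*} [NormedAddCommGroup W] [NormedSpace ℂ W] [FiniteDimensional ℂ W]
    (hQ : IsQuotient 𝒜 u Γ) (hproj : ∃ (L : Sheaf 𝒜 Γ) (H : V → V → ℂ), L.IsChern H ∧
      IsPositiveForm H) {Γ' : Subgroup (W ≃ᵃ[ℂ] W)} {π : V →ₗ[ℂ] W}
    (hπ : IsFibration (base Γ) Γ' π) (hj : Function.Injective j)
    (hjr : LinearMap.range j = LinearMap.ker π) : ∃ H₀, Rel (base Γ) j H₀ := by
  obtain ⟨L, H, hc, hp⟩ := hproj
  exact ⟨_, Pool.Agent.Y167.rel_of_emb hj hjr hQ.torus hπ (L.toLB_chern hQ hc)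
    (expo_form hQ hp)⟩

omit [IsDomain R] [GradedAlgebra 𝒜] in
/-- The data in the absolute case. -/
theorem rel_id (hQ : IsQuotient 𝒜 u Γ) (hproj : ∃ (L : Sheaf 𝒜 Γ) (H : V → V → ℂ), L.IsChern H ∧
      IsPositiveForm H) : ∃ H₀, Rel (base Γ) (LinearMap.id : V →ₗ[ℂ] V) H₀ := by
  obtain ⟨L, H, hc, hp⟩ := hproj
  exact ⟨_, Pool.Agent.Y167.rel_abs hQ.torus (L.toLB_chern hQ hc) (expo_form hQ hp)⟩

end Pool.Agent.X324.CF
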