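import Pool.Agent.X324.CF.Defs
import Pool.Agent.H575R2.Farkas
import Pool.Agent.TH152.AC.Farkas

/-!
# Rational polyhedral cones
-/

set_option autoImplicit false

namespace Pool.Agent.X324.CF

open Finset Filter Topology
open Pool.Agent.Y167

variable {ρ n : ℕ}

/-- The real vector of an integral vector. -/
def rv (β : Cl ρ) : Fin ρ → ℝ := fun i => β i

theorem rv_apply (β : Cl ρ) (i : Fin ρ) : rv β i = β i := rfl

theorem rv_add (β β' : Cl ρ) : rv (β + β') = rv β + rv β' := by
  funext i; simp [rv]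

theorem rv_neg (β : Cl ρ) : rv (-β) = -rv β := by
  funext i; simp [rv]

theorem rv_sub (β β' : Cl ρ) : rv (β - β') = rv β - rv β' := by
  funext i; simp [rv]

theorem rv_zero : rv (0 : Cl ρ) = 0 := by
  funext i; simp [rv]

theorem rv_nsmul (k : ℕ) (β : Cl ρ) : rv (k • β) = (k : ℝ) • rv β := by
  funext i; simp [rv]

theorem rv_zsmul (k : ℤ) (β : Cl ρ) : rv (k • β) = (k : ℝ) • rv β := by
  funext i; simp [rv]

theorem rv_sum {ι : Type*} (s : Finset ι) (β : ι → Cl ρ) : rv (∑ i ∈ s, β i) = ∑ i ∈ s, rv (β i) := by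
  classical
  induction s using Finset.induction_on with
  | empty => simp [rv_zero]
  | insert i s hi ih => rw [Finset.sum_insert hi, Finset.sum_insert hi, rv_add, ih]

theorem rv_inj {β β' : Cl ρ} (h : rv β = rv β') : β = β' := by
  funext i
  have := congrFun h i
  simpa [rv] using this

/-- The linear form given by a vector. -/
noncomputable def dot (y : Fin ρ → ℝ) : (Fin ρ → ℝ) →ₗ[ℝ] ℝ where
  toFun x := ∑ i, y i * x i
  map_add' x x' := by
    simp only [Pi.add_apply, mul_add, Finset.sum_add_distrib]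
  map_smul' c x := by
    simp only [Pi.smul_apply, smul_eq_mul, RingHom.id_apply, Finset.mul_sum]
    exact Finset.sum_congr rfl fun i _ => by ring

theorem dot_apply (y x : Fin ρ → ℝ) : dot y x = ∑ i, y i * x i := rfl

theorem dot_comm (y x : Fin ρ → ℝ) : dot y x = dot x y := by
  simp only [dot_apply, mul_comm]

theorem dot_int (β β' : Cl ρ) : dot (rv β) (rv β') = ((∑ i, β i * β' i : ℤ) : ℝ) := by
  rw [dot_apply]
  push_cast
  rfl

theorem dot_single (x : Fin ρ → ℝ) (k : Fin ρ) : dot x (Pi.single k 1) = x k := by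
  classical
  rw [dot_apply, Finset.sum_eq_single k]
  · rw [Pi.single_eq_same, mul_one]
  · intro b _ hb
    rw [Pi.single_eq_of_ne hb, mul_zero]
  · intro h
    exact absurd (Finset.mem_univ _) h

theorem dot_continuous (y : Fin ρ → ℝ) : Continuous (dot y) := by
  have : (dot y : (Fin ρ → ℝ) → ℝ) = fun x => ∑ i, y i * x i := rfl
  rw [this]
  fun_prop

/-- The lattice of integral vectors. -/
def ZL (ρ : ℕ) : AddSubgroup (Fin ρ → ℝ) where
  carrier := {x | ∃ β : Cl ρ, x = rv β}
  zero_mem' := ⟨0, rv_zero.symm⟩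
  add_mem' := by
    rintro _ _ ⟨β, rfl⟩ ⟨β', rfl⟩
    exact ⟨β + β', (rv_add _ _).symm⟩
  neg_mem' := by
    rintro _ ⟨β, rfl⟩
    exact ⟨-β, (rv_neg _).symm⟩

section Cut

variable {W : Type*} [AddCommGroup W] [Module ℝ W]

/-- The part of a cone where finitely many integral linear forms are nonnegative. -/
theorem cut_fin (L : AddSubgroup W) (S : Finset W) (hS : ∀ a ∈ S, a ∈ L)
    (Φ : Finset (W →ₗ[ℝ] ℝ)) (hΦ : ∀ φ ∈ Φ, ∀ x ∈ L, ∃ n : ℤ, φ x = n) :
    ∃ S' : Finset W, (∀ a ∈ S', a ∈ L) ∧ ∀ x, x ∈ cone S' ↔ x ∈ cone S ∧ ∀ φ ∈ Φ, 0 ≤ φ x := by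
  classical
  induction Φ using Finset.induction_on with
  | empty => exact ⟨S, hS, fun x => by simp⟩
  | insert φ Φ _ ih =>
    obtain ⟨S1, hS1, h1⟩ := ih fun ψ hψ => hΦ ψ (Finset.mem_insert_of_mem hψ)
    obtain ⟨S2, hS2, h2⟩ := cone_cut S1 φ (fun a => a ∈ L) hS1 (by
      intro a ha b hb hpa hpb
      obtain ⟨m, hm⟩ := hΦ φ (Finset.mem_insert_self _ _) a (hS1 a ha)
      obtain ⟨n, hn⟩ := hΦ φ (Finset.mem_insert_self _ _) b (hS1 b hb)
      rw [hm, hn]
      refine L.sub_mem ?_ ?_
      · rw [Int.cast_smul_eq_zsmul]; exact L.zsmul_mem (hS1 b hb) m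
      · rw [Int.cast_smul_eq_zsmul]; exact L.zsmul_mem (hS1 a ha) n)
    refine ⟨S2, hS2, fun x => ?_⟩
    rw [h2, h1, Finset.forall_mem_insert]
    tauto

/-- A polyhedral cone in the span of a lattice is generated by finitely many lattice vectors. -/
theorem exists_gens [FiniteDimensional ℝ W] (L : AddSubgroup W)
    (Φ : Finset (W →ₗ[ℝ] ℝ)) (hΦ : ∀ φ ∈ Φ, ∀ x ∈ L, ∃ n : ℤ, φ x = n) :
    ∃ S : Finset W, (∀ a ∈ S, a ∈ L) ∧
      ∀ x, x ∈ cone S ↔ x ∈ Submodule.span ℝ (L : Set W) ∧ ∀ φ ∈ Φ, 0 ≤ φ x := by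
  classical
  obtain ⟨t, ht, htspan, htli⟩ := exists_linearIndependent ℝ (L : Set W)
  have htfin : t.Finite := htli.setFinite
  let S0 : Finset W := htfin.toFinset ∪ htfin.toFinset.image (fun x => -x)
  have hS0 : ∀ a ∈ S0, a ∈ L := by
    intro a ha
    rcases Finset.mem_union.1 ha with h | h
    · exact ht ((htfin.mem_toFinset).1 h)
    · obtain ⟨b, hb, rfl⟩ := Finset.mem_image.1 h
      exact L.neg_mem (ht ((htfin.mem_toFinset).1 hb))
  obtain ⟨S, hS, h⟩ := cut_fin L S0 hS0 Φ hΦ
  refine ⟨S, hS, fun x => ?_⟩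
  rw [h]
  refine and_congr_left fun hΦx => ⟨fun hx => ?_, fun hx => ?_⟩
  · refine cone_ind (p := fun x => x ∈ Submodule.span ℝ (L : Set W)) (Submodule.zero_mem _)
      (fun x y hx hy => Submodule.add_mem _ hx hy) (fun t x _ hx => Submodule.smul_mem _ t hx)
      (fun a ha => Submodule.subset_span (hS0 a ha)) hx
  · clear hΦx
    rw [← htspan] at hx
    induction hx using Submodule.span_induction with
    | mem x hx =>
      exact mem_cone_self (Finset.mem_union_left _ ((htfin.mem_toFinset).2 hx))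
    | zero => exact zero_mem_cone _
    | add x y _ _ hx hy => exact cone_add hx hy
    | smul c x _ hx =>
      have hneg : ∀ y, y ∈ cone S0 → -y ∈ cone S0 := by
        intro y hy
        refine cone_ind (p := fun y => -y ∈ cone S0) (by rw [neg_zero]; exact zero_mem_cone _)
          (fun x y hx hy => by rw [neg_add]; exact cone_add hx hy)
          (fun t x ht hx => by rw [← smul_neg]; exact cone_smul hx ht) (fun a ha => ?_) hy
        rcases Finset.mem_union.1 ha with h | h
        · exact mem_cone_self (Finset.mem_union_right _ (Finset.mem_image_of_mem _ h))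
        · obtain ⟨b, hb, rfl⟩ := Finset.mem_image.1 h
          rw [neg_neg]
          exact mem_cone_self (Finset.mem_union_left _ hb)
      rcases le_total 0 c with hc | hc
      · exact cone_smul hx hc
      · have h1 : c • x = (-c) • (-x) := by rw [smul_neg, neg_smul, neg_neg]
        rw [h1]
        exact cone_smul (hneg x hx) (by linarith)

end Cut

/-- The cone spanned by the vectors `w i`, `i ∈ I`. -/
def CI (w : Fin n → Cl ρ) (I : Finset (Fin n)) : Set (Fin ρ → ℝ) :=
  {x | ∃ c : Fin n → ℝ, (∀ i, 0 ≤ c i) ∧ x = ∑ i ∈ I, c i • rv (w i)}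

section CIs

variable {w : Fin n → Cl ρ} {I : Finset (Fin n)}

theorem CI_zero : (0 : Fin ρ → ℝ) ∈ CI w I := ⟨fun _ => 0, fun _ => le_refl _, by simp⟩

theorem CI_add {x y : Fin ρ → ℝ} (hx : x ∈ CI w I) (hy : y ∈ CI w I) : x + y ∈ CI w I := by
  obtain ⟨c, hc, rfl⟩ := hx
  obtain ⟨d, hd, rfl⟩ := hy
  refine ⟨fun a => c a + d a, fun a => add_nonneg (hc a) (hd a), ?_⟩
  rw [← Finset.sum_add_distrib]
  exact Finset.sum_congr rfl fun a _ => (add_smul _ _ _).symm

theorem CI_smul {x : Fin ρ → ℝ} (hx : x ∈ CI w I) {t : ℝ} (ht : 0 ≤ t) : t • x ∈ CI w I := by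
  obtain ⟨c, hc, rfl⟩ := hx
  refine ⟨fun a => t * c a, fun a => mul_nonneg ht (hc a), ?_⟩
  rw [Finset.smul_sum]
  exact Finset.sum_congr rfl fun a _ => by rw [smul_smul]

theorem CI_gen {i : Fin n} (hi : i ∈ I) : rv (w i) ∈ CI w I := by
  classical
  refine ⟨fun k => if k = i then 1 else 0, fun k => by
    show (0 : ℝ) ≤ if k = i then 1 else 0
    split_ifs <;> norm_num, ?_⟩
  simp [hi]

theorem CI_mono {J : Finset (Fin n)} (h : I ⊆ J) : CI w I ⊆ CI w J := by
  classical
  rintro _ ⟨c, hc, rfl⟩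
  refine ⟨fun i => if i ∈ I then c i else 0, fun i => by
    show (0 : ℝ) ≤ if i ∈ I then c i else 0
    split_ifs
    · exact hc i
    · exact le_refl _, ?_⟩
  rw [← Finset.sum_subset h]
  · exact Finset.sum_congr rfl fun i hi => by beta_reduce; rw [if_pos hi]
  · intro i _ hi
    beta_reduce
    rw [if_neg hi, zero_smul]

theorem CI_of_nat {β : Cl ρ} {k : ℕ} (hk : 0 < k) {c : Fin n → ℕ} (hc : ∀ i, i ∉ I → c i = 0)
    (h : k • β = ∑ i, c i • w i) : rv β ∈ CI w I := by
  have hkr : (0 : ℝ) < k := by exact_mod_cast hk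
  refine ⟨fun i => (c i : ℝ) / k, fun i => by positivity, ?_⟩
  have h1 := congrArg rv h
  rw [rv_nsmul, rv_sum] at h1
  have h2 : rv β = (k : ℝ)⁻¹ • ((k : ℝ) • rv β) := by
    rw [smul_smul, inv_mul_cancel₀ hkr.ne', one_smul]
  rw [h2, h1, Finset.smul_sum]
  symm
  rw [← Finset.sum_subset (Finset.subset_univ I)]
  · refine Finset.sum_congr rfl fun i _ => ?_
    rw [rv_nsmul, smul_smul]
    congr 1
    field_simp
  · intro i _ hi
    rw [hc i hi, zero_smul, rv_zero, smul_zero]

/-- The cone is defined by finitely many integral inequalities. -/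
theorem exists_ineq (w : Fin n → Cl ρ) (I : Finset (Fin n)) :
    ∃ Y : Finset (Cl ρ), ∀ x, x ∈ CI w I ↔ ∀ y ∈ Y, 0 ≤ dot (rv y) x := by
  classical
  obtain ⟨S, hS, h⟩ := exists_gens (ZL ρ) (I.image fun i => dot (rv (w i))) (by
    intro φ hφ x hx
    obtain ⟨i, -, rfl⟩ := Finset.mem_image.1 hφ
    obtain ⟨β, rfl⟩ := hx
    exact ⟨_, dot_int _ _⟩)
  have hspan : Submodule.span ℝ (ZL ρ : Set (Fin ρ → ℝ)) = ⊤ := by
    rw [eq_top_iff]
    intro x _
    have h1 : x = ∑ k, x k • rv (Pi.single k 1 : Cl ρ) := by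
      funext l
      rw [Finset.sum_apply, Finset.sum_eq_single l]
      · simp [rv]
      · intro b _ hb
        simp [rv, Pi.single_eq_of_ne (Ne.symm hb)]
      · intro h
        exact absurd (Finset.mem_univ _) h
    rw [h1]
    exact Submodule.sum_mem _ fun k _ => Submodule.smul_mem _ _ (Submodule.subset_span ⟨_, rfl⟩)
  have hc : ∀ a ∈ S, ∃ β : Cl ρ, a = rv β := fun a ha => hS a ha
  choose! f hf using hc
  refine ⟨S.image f, fun x => ⟨?_, fun hx => ?_⟩⟩
  · rintro ⟨c, hc, rfl⟩ y hy
    obtain ⟨a, ha, rfl⟩ := Finset.mem_image.1 hy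
    rw [← hf a ha, map_sum]
    refine Finset.sum_nonneg fun i hi => ?_
    rw [map_smul, smul_eq_mul]
    refine mul_nonneg (hc i) ?_
    have h1 := ((h a).1 (mem_cone_self ha)).2 _ (Finset.mem_image_of_mem _ hi)
    rwa [dot_comm] at h1
  · let e := I.equivFin
    obtain ⟨c, hc, hcx⟩ := H575R2.farkas_lin I.card (fun k => -dot (rv (w (e.symm k).1)))
      (-dot x) (by
        intro y hy
        have h1 : y ∈ cone S := by
          rw [h]
          refine ⟨by rw [hspan]; trivial, fun φ hφ => ?_⟩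
          obtain ⟨i, hi, rfl⟩ := Finset.mem_image.1 hφ
          have h2 := hy (e ⟨i, hi⟩)
          rw [Equiv.symm_apply_apply, LinearMap.neg_apply] at h2
          linarith
        rw [LinearMap.neg_apply]
        have h3 : 0 ≤ dot x y := by
          refine cone_ind (p := fun y => 0 ≤ dot x y) (by simp) (fun a b ha hb => by
            rw [map_add]; exact add_nonneg ha hb) (fun t a ht ha => by
            rw [map_smul, smul_eq_mul]; exact mul_nonneg ht ha) (fun a ha => ?_) h1
          have h4 := hx _ (Finset.mem_image_of_mem f ha)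
          rw [← hf a ha] at h4
          rwa [dot_comm]
        linarith)
    refine ⟨fun i => if hi : i ∈ I then c (e ⟨i, hi⟩) else 0, fun i => ?_, ?_⟩
    · show (0 : ℝ) ≤ if hi : i ∈ I then c (e ⟨i, hi⟩) else 0
      split_ifs
      · exact hc _
      · exact le_refl _
    · funext k
      have h1 := hcx (Pi.single k 1)
      simp only [LinearMap.neg_apply, dot_single, mul_neg, Finset.sum_neg_distrib, neg_inj] at h1
      rw [h1, Finset.sum_apply, ← Finset.sum_coe_sort I]
      refine Fintype.sum_equiv e.symm _ _ fun i => ?_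
      rw [Pi.smul_apply]
      beta_reduce
      rw [dif_pos (e.symm i).2, smul_eq_mul]
      congr 2
      rw [show (⟨(e.symm i).1, (e.symm i).2⟩ : I) = e.symm i from rfl, Equiv.apply_symm_apply]

theorem CI_closed (w : Fin n → Cl ρ) (I : Finset (Fin n)) : IsClosed (CI w I) := by
  obtain ⟨Y, hY⟩ := exists_ineq w I
  have h1 : CI w I = ⋂ y ∈ Y, {x | 0 ≤ dot (rv y) x} := by
    ext x
    rw [hY]
    simp
  rw [h1]
  exact isClosed_biInter fun y _ => isClosed_le continuous_const (dot_continuous _)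

end CIs

/-- Clearing denominators. -/
theorem clear_q {ι : Type*} [Fintype ι] (q : ι → ℚ) :
    ∃ d : ℕ, 0 < d ∧ ∀ i, ∃ z : ℤ, (d : ℚ) * q i = z := by
  classical
  refine ⟨∏ i, (q i).den, Finset.prod_pos fun i _ => (q i).den_pos, fun i => ?_⟩
  refine ⟨(∏ k ∈ Finset.univ.erase i, (q k).den : ℕ) * (q i).num, ?_⟩
  rw [← Finset.mul_prod_erase _ _ (Finset.mem_univ i)]
  push_cast
  have h1 : ((q i).den : ℚ) * q i = (q i).num := by
    rw [mul_comm]; exact Rat.mul_den_eq_num _
  rw [← h1]
  ring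

/-- An integral vector in the real cone has a multiple which is a natural combination. -/
theorem exists_nat {w : Fin n → Cl ρ} {I : Finset (Fin n)} {β : Cl ρ} (h : rv β ∈ CI w I) :
    ∃ k : ℕ, 0 < k ∧ ∃ c : Fin n → ℕ, (∀ i, i ∉ I → c i = 0) ∧ k • β = ∑ i, c i • w i := by
  classical
  let qd : (Fin ρ → ℚ) → ((Fin ρ → ℚ) →ₗ[ℚ] ℚ) := fun y =>
    { toFun := fun x => ∑ i, y i * x i
      map_add' := fun x x' => by simp only [Pi.add_apply, mul_add, Finset.sum_add_distrib]
      map_smul' := fun c x => by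
        simp only [Pi.smul_apply, smul_eq_mul, RingHom.id_apply, Finset.mul_sum]
        exact Finset.sum_congr rfl fun i _ => by ring }
  have hqd : ∀ y x, qd y x = ∑ i, y i * x i := fun y x => rfl
  let e := I.equivFin
  obtain ⟨b, hb, hbx⟩ := h
  obtain ⟨c, hc, hcx⟩ := Pool.Agent.TH152.AC.farkas_q I.card
    (fun k => qd (fun l => (w (e.symm k).1 l : ℚ))) (qd fun l => (β l : ℚ)) (by
      intro x hx
      have h1 : dot (rv β) (fun l => (x l : ℝ)) ≤ 0 := by
        rw [hbx, dot_comm, map_sum]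
        refine Finset.sum_nonpos fun i hi => ?_
        rw [map_smul, smul_eq_mul]
        refine mul_nonpos_of_nonneg_of_nonpos (hb i) ?_
        have h2 := hx (e ⟨i, hi⟩)
        simp only [Equiv.symm_apply_apply] at h2
        rw [hqd] at h2
        have h3 : ((∑ l, (w i l : ℚ) * x l : ℚ) : ℝ) ≤ 0 := by exact_mod_cast h2
        rw [dot_comm, dot_apply]
        push_cast at h3
        exact h3
      rw [hqd]
      have h4 : dot (rv β) (fun l => (x l : ℝ)) = ((∑ l, (β l : ℚ) * x l : ℚ) : ℝ) := by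
        rw [dot_apply]
        push_cast
        rfl
      rw [h4] at h1
      exact_mod_cast h1)
  obtain ⟨d, hd, hdz⟩ := clear_q c
  choose z hz using hdz
  have hz0 : ∀ k, 0 ≤ z k := by
    intro k
    have h1 : (0 : ℚ) ≤ z k := by
      rw [← hz]
      exact mul_nonneg (Nat.cast_nonneg _) (hc k)
    exact_mod_cast h1
  refine ⟨d, hd, fun i => if hi : i ∈ I then (z (e ⟨i, hi⟩)).toNat else 0, fun i hi =>
    dif_neg hi, ?_⟩
  funext l
  have h1 := hcx (Pi.single l 1)
  have hs : ∀ y : Fin ρ → ℚ, qd y (Pi.single l 1) = y l := by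
    intro y
    rw [hqd, Finset.sum_eq_single l]
    · rw [Pi.single_eq_same, mul_one]
    · intro b _ hb
      rw [Pi.single_eq_of_ne hb, mul_zero]
    · intro h
      exact absurd (Finset.mem_univ _) h
  simp only [hs] at h1
  have h2 : (d : ℚ) * β l = ∑ k, (z k : ℚ) * w (e.symm k).1 l := by
    rw [h1, Finset.mul_sum]
    refine Finset.sum_congr rfl fun k _ => ?_
    rw [← hz k]
    ring
  have h3 : (d : ℤ) * β l = ∑ k, z k * w (e.symm k).1 l := by exact_mod_cast h2
  rw [Pi.smul_apply, nsmul_eq_mul, h3, Finset.sum_apply]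
  symm
  rw [← Finset.sum_subset (Finset.subset_univ I)]
  · rw [← Finset.sum_coe_sort I]
    refine Fintype.sum_equiv e _ _ fun i => ?_
    rw [Equiv.symm_apply_apply, Pi.smul_apply]
    beta_reduce
    rw [dif_pos i.2, nsmul_eq_mul, Int.toNat_of_nonneg (hz0 _)]
  · intro i _ hi
    beta_reduce
    rw [dif_neg hi, zero_smul]
    rfl

/-- A pointed cone has a positive integral linear form. -/
theorem exists_pos {w : Fin n → Cl ρ} (h : ∀ c : Fin n → ℕ, ∑ i, c i • w i = 0 → c = 0) :
    ∃ ξ : Cl ρ, ∀ i, 0 < dot (rv ξ) (rv (w i)) := by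
  classical
  by_cases hex : ∃ (y : Fin ρ → ℚ) (t : ℚ), 0 < t ∧ ∀ i, t ≤ ∑ k, y k * w i k
  · obtain ⟨y, t, ht, hy⟩ := hex
    obtain ⟨d, hd, hdz⟩ := clear_q y
    choose z hz using hdz
    refine ⟨z, fun i => ?_⟩
    rw [dot_int]
    have h1 : (0 : ℚ) < ((∑ k, z k * w i k : ℤ) : ℚ) := by
      push_cast
      have h2 : ∑ k, (z k : ℚ) * (w i k : ℚ) = d * ∑ k, y k * w i k := by
        rw [Finset.mul_sum]
        refine Finset.sum_congr rfl fun k _ => ?_
        rw [← hz]
        ring
      rw [h2]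
      have h3 := hy i
      have h4 : (0 : ℚ) < d := by exact_mod_cast hd
      exact mul_pos h4 (lt_of_lt_of_le ht h3)
    exact_mod_cast h1
  · exfalso
    push Not at hex
    obtain ⟨c, hc, hcx⟩ := Pool.Agent.TH152.AC.farkas_q (U := (Fin ρ → ℚ) × ℚ) n
      (fun i =>
        { toFun := fun p => p.2 - ∑ k, p.1 k * w i k
          map_add' := fun p q => by
            simp only [Prod.snd_add, Prod.fst_add, Pi.add_apply, add_mul, Finset.sum_add_distrib]
            ring
          map_smul' := fun c p => by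
            simp only [Prod.smul_snd, Prod.smul_fst, Pi.smul_apply, smul_eq_mul, RingHom.id_apply,
              mul_sub, Finset.mul_sum]
            congr 1
            exact Finset.sum_congr rfl fun k _ => by ring })
      (LinearMap.snd ℚ _ _) (by
        rintro ⟨y, t⟩ hx
        change t ≤ 0
        by_contra ht
        push Not at ht
        obtain ⟨i, hi⟩ := hex y t ht
        have h1 : t - ∑ k, y k * w i k ≤ 0 := hx i
        linarith)
    have h1 : ∑ i, c i = 1 := by
      have h2 := hcx (0, 1)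
      simp at h2
      exact h2.symm
    have h2 : ∀ k, ∑ i, c i * w i k = 0 := by
      intro k
      have h3 := hcx (Pi.single k 1, 0)
      simp only [LinearMap.snd_apply, LinearMap.coe_mk, AddHom.coe_mk] at h3
      have h4 : ∀ i : Fin n, ∑ l, (Pi.single k (1 : ℚ) : Fin ρ → ℚ) l * (w i l : ℚ) = w i k := by
        intro i
        rw [Finset.sum_eq_single k]
        · rw [Pi.single_eq_same, one_mul]
        · intro b _ hb
          rw [Pi.single_eq_of_ne hb, zero_mul]
        · intro h
          exact absurd (Finset.mem_univ _) h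
      simp only [h4] at h3
      have h5 : ∑ i, c i * (0 - (w i k : ℚ)) = - ∑ i, c i * w i k := by
        rw [← Finset.sum_neg_distrib]
        exact Finset.sum_congr rfl fun i _ => by ring
      rw [h5] at h3
      linarith
    obtain ⟨d, hd, hdz⟩ := clear_q c
    choose z hz using hdz
    have hz0 : ∀ k, 0 ≤ z k := by
      intro k
      have h3 : (0 : ℚ) ≤ z k := by
        rw [← hz]
        exact mul_nonneg (Nat.cast_nonneg _) (hc k)
      exact_mod_cast h3
    have h3 := h (fun i => (z i).toNat) (by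
      funext k
      rw [Finset.sum_apply]
      simp only [Pi.smul_apply, nsmul_eq_mul]
      have h4 : ∑ i, ((z i).toNat : ℤ) * w i k = ∑ i, z i * w i k :=
        Finset.sum_congr rfl fun i _ => by rw [Int.toNat_of_nonneg (hz0 i)]
      rw [h4]
      have h5 : ((∑ i, z i * w i k : ℤ) : ℚ) = 0 := by
        push_cast
        have h6 : ∑ i, (z i : ℚ) * (w i k : ℚ) = d * ∑ i, c i * w i k := by
          rw [Finset.mul_sum]
          exact Finset.sum_congr rfl fun i _ => by rw [← hz]; ring
        rw [h6, h2, mul_zero]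
      exact_mod_cast h5)
    have h4 : ∀ i, z i = 0 := by
      intro i
      have h5 := congrFun h3 i
      simp only [Pi.zero_apply] at h5
      have h6 := Int.toNat_of_nonneg (hz0 i)
      rw [h5] at h6
      simpa using h6.symm
    have h5 : ∀ i, c i = 0 := by
      intro i
      have h6 := hz i
      rw [h4 i, Int.cast_zero] at h6
      have h7 : (d : ℚ) ≠ 0 := by exact_mod_cast hd.ne'
      exact (mul_eq_zero.1 h6).resolve_left h7
    rw [Finset.sum_congr rfl fun i _ => h5 i, Finset.sum_const_zero] at h1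
    exact zero_ne_one h1

end Pool.Agent.X324.CF
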