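import Pool.Agent.X324.CF.Main2

/-!
# Varieties `F` whose nef cone is spanned by finitely many semiample classes
-/

set_option autoImplicit false

namespace Pool.Agent.X324.CF

open Finset Filter Topology
open Pool.Agent.W594.SYZ2 Pool.Agent.W594.SYZ2.TQ Pool.Agent.TH735.AQ

section Semi

variable {ρ n : ℕ} {R : Type*} [CommRing R] [Algebra ℂ R] {𝒜 : Cl ρ → Submodule ℂ R}
  [GradedAlgebra 𝒜] {w : Fin n → Cl ρ} {u : Cl ρ}

theorem SemiampleF.zero : SemiampleF 𝒜 u 0 :=
  ⟨1, one_pos, fun p _ => ⟨1, by rw [smul_zero]; exact SetLike.GradedOne.one_mem, by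
    rw [map_one]; exact one_ne_zero⟩⟩

theorem SemiampleF.add {β β' : Cl ρ} (h : SemiampleF 𝒜 u β) (h' : SemiampleF 𝒜 u β') :
    SemiampleF 𝒜 u (β + β') := by
  obtain ⟨m, hm, h1⟩ := h
  obtain ⟨m', hm', h2⟩ := h'
  refine ⟨m * m', Nat.mul_pos hm hm', fun p hp => ?_⟩
  obtain ⟨r, hr, hr0⟩ := h1 p hp
  obtain ⟨s, hs, hs0⟩ := h2 p hp
  refine ⟨r ^ m' * s ^ m, ?_, ?_⟩
  · have e : (m * m') • (β + β') = m' • (m • β) + m • (m' • β') := by
      rw [smul_add, mul_comm m m', mul_smul, mul_comm m' m, mul_smul]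
    rw [e]
    exact SetLike.mul_mem_graded (SetLike.pow_mem_graded m' hr) (SetLike.pow_mem_graded m hs)
  · rw [map_mul, map_pow, map_pow]
    exact mul_ne_zero (pow_ne_zero _ hr0) (pow_ne_zero _ hs0)

theorem SemiampleF.nsmul {β : Cl ρ} (h : SemiampleF 𝒜 u β) (k : ℕ) : SemiampleF 𝒜 u (k • β) := by
  induction k with
  | zero => rw [zero_smul]; exact SemiampleF.zero
  | succ k ih => rw [succ_nsmul]; exact ih.add h

theorem SemiampleF.sum {ι : Type*} (s : Finset ι) (f : ι → Cl ρ)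
    (h : ∀ i ∈ s, SemiampleF 𝒜 u (f i)) : SemiampleF 𝒜 u (∑ i ∈ s, f i) := by
  classical
  induction s using Finset.induction_on with
  | empty => rw [Finset.sum_empty]; exact SemiampleF.zero
  | insert i s hi ih =>
    rw [Finset.sum_insert hi]
    exact (h i (Finset.mem_insert_self _ _)).add
      (ih fun j hj => h j (Finset.mem_insert_of_mem hj))

omit [GradedAlgebra 𝒜] in
theorem IsNefPolyhedral.mem_CI (D : IsNefPolyhedral 𝒜 w u) {β : Cl ρ} (h : SemiampleF 𝒜 u β) :
    rv β ∈ CI w Finset.univ := by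
  obtain ⟨c, hc, h1⟩ := D.span β h
  refine ⟨c, hc, funext fun k => ?_⟩
  rw [Finset.sum_apply]
  exact h1 k

theorem IsNefPolyhedral.base (D : IsNefPolyhedral 𝒜 w u) : Base 𝒜 w where
  gens := fun H hH => by
    rw [eq_top_iff]
    intro β _
    obtain ⟨m, h1, h2⟩ := D.sections β
    have h3 := H.sub_mem (hH _ h1) (hH _ h2)
    rwa [add_sub_cancel_right] at h3
  pointed := fun c hc => by
    classical
    by_contra hne
    have hex : ∃ i, c i ≠ 0 := by
      by_contra hcon
      push Not at hcon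
      exact hne (funext hcon)
    obtain ⟨i, hi⟩ := hex
    have hi1 : 1 ≤ c i := Nat.one_le_iff_ne_zero.2 hi
    -- the opposite class
    let d : Fin n → ℕ := fun k => if k = i then c k - 1 else c k
    have hsum : w i + ∑ k, d k • w k = 0 := by
      have h1 : ∀ k, c k • w k = (if k = i then w i else 0) + d k • w k := by
        intro k
        by_cases hk : k = i
        · subst hk
          simp only [d, if_true]
          have h2 : c k = 1 + (c k - 1) := by omega
          conv_lhs => rw [h2]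
          rw [add_smul, one_smul]
        · simp only [d, if_neg hk, zero_add]
      rw [Finset.sum_congr rfl fun k _ => h1 k, Finset.sum_add_distrib] at hc
      rwa [Finset.sum_ite_eq' Finset.univ i fun _ => w i, if_pos (Finset.mem_univ i)] at hc
    have hopp : SemiampleF 𝒜 u (-w i) := by
      have h1 : -w i = ∑ k, d k • w k := by
        rw [neg_eq_iff_add_eq_zero]
        exact hsum
      rw [h1]
      exact SemiampleF.sum _ _ fun k _ => (D.semiample k).nsmul _
    obtain ⟨m, hm, h1⟩ := D.semiample i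
    obtain ⟨m', hm', h2⟩ := hopp
    obtain ⟨p, hp⟩ := D.point
    obtain ⟨r, hr, hr0⟩ := h1 p hp
    obtain ⟨s, hs, hs0⟩ := h2 p hp
    have hr' := SetLike.pow_mem_graded m' hr
    have hs' := SetLike.pow_mem_graded m hs
    have h3 : r ^ m' * s ^ m ∈ 𝒜 0 := by
      have h4 := SetLike.mul_mem_graded hr' hs'
      have h5 : m' • (m • w i) + m • (m' • -w i) = 0 := by
        rw [smul_neg, smul_neg, smul_smul, smul_smul, mul_comm m' m, add_neg_cancel]
      rwa [h5] at h4
    obtain ⟨a, ha⟩ := D.const _ h3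
    have ha0 : a ≠ 0 := by
      rintro rfl
      rw [map_zero] at ha
      have h6 : p (r ^ m' * s ^ m) = 0 := by rw [ha, map_zero]
      rw [map_mul, map_pow, map_pow] at h6
      exact mul_ne_zero (pow_ne_zero _ hr0) (pow_ne_zero _ hs0) h6
    have hunit : IsUnit (r ^ m' * s ^ m) := by
      rw [ha]
      exact (IsUnit.mk0 a ha0).map (algebraMap ℂ R)
    have h7 := D.unit _ _ hr' (isUnit_of_mul_isUnit_left hunit)
    rw [smul_smul] at h7
    refine D.ne_zero i ?_
    have h8 : m' * m ≠ 0 := (Nat.mul_pos hm' hm).ne'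
    exact (smul_eq_zero.1 h7).resolve_left h8

theorem IsNefPolyhedral.fam (D : IsNefPolyhedral 𝒜 w u) : Fam w u {Finset.univ} where
  univ := Finset.mem_singleton_self _
  ample := fun β => by
    obtain ⟨m, hm⟩ := D.ample β
    refine ⟨m, fun I hI => ?_⟩
    rw [Finset.mem_singleton] at hI
    rw [hI]
    exact D.mem_CI hm

end Semi

variable {V E R : Type*} [NormedAddCommGroup V] [NormedSpace ℂ V] [FiniteDimensional ℂ V]
  [NormedAddCommGroup E] [NormedSpace ℂ E] [CommRing R] [IsDomain R]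
  [Algebra ℂ R] {ρ n : ℕ}
  {𝒜 : Cl ρ → Submodule ℂ R} [GradedAlgebra 𝒜] {Γ : Grp V R} {w : Fin n → Cl ρ}
  {u : Cl ρ} {j : E →ₗ[ℂ] V} {H₀ : V → V → ℂ}

theorem good_nef (D : IsNefPolyhedral 𝒜 w u) (hQ : IsQuotient 𝒜 u Γ) :
    Good w {Finset.univ} (semiample 𝒜 Γ j u) where
  sub := by
    rintro a ⟨𝓛, hc, m, hm, h1⟩
    have hmr : (0 : ℝ) < m := by exact_mod_cast hm
    have h3 : (val a).2 = rv 𝓛.deg := funext hc.2
    refine ⟨fun e => ?_, fun I hI => ?_⟩
    · obtain ⟨p, hp⟩ := D.point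
      obtain ⟨f, hf, hf0⟩ := h1 0 p hp
      obtain ⟨⟨H, hH, h2⟩, -⟩ := hc
      have h4 := Sheaf.nef_of_section hQ (Sheaf.chern_pow hH m) hf.sec ⟨0, fun h => hf0 (by
        rw [h, map_zero])⟩ (j e)
      have e2 : (m : ℂ) = ((m : ℝ) : ℂ) := by push_cast; rfl
      rw [e2, Complex.re_ofReal_mul] at h4
      rw [h2]
      exact nonneg_of_mul_nonneg_right h4 hmr
    · rw [Finset.mem_singleton] at hI
      rw [hI, h3]
      refine D.mem_CI ⟨m, hm, fun p hp => ?_⟩
      obtain ⟨f, hf, hf0⟩ := h1 0 p hp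
      exact ⟨f 0, hf.mem 0, hf0⟩
  bpf := fun _ hs _ ha => bpf_semiample hs ha
  deg := by
    classical
    intro β hβ hI
    have := hQ.fin_gal
    have : Fintype (gal Γ) := Fintype.ofFinite _
    obtain ⟨k, hk, c, -, hkc⟩ := exists_nat (hI _ (Finset.mem_singleton_self _))
    have hs : SemiampleF 𝒜 u (k • β) := by
      rw [hkc]
      exact SemiampleF.sum _ _ fun i _ => (D.semiample i).nsmul _
    obtain ⟨m, hm, h1⟩ := hs
    obtain ⟨a, ha1, ha2⟩ := exists_degclass (j := j) D.base hQ hβ (m * k)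
    have hbpf : ∀ p, Semistable 𝒜 u p → ∃ r ∈ 𝒜 ((m * k) • β), p (nrm (gal Γ) r) ≠ 0 := by
      intro p hp
      refine exists_nonvanish (K := gal Γ) (𝒜 := 𝒜) (β := (m * k) • β) (p := p) fun φ => ?_
      obtain ⟨r, hr, hr0⟩ := h1 _ (semistable_comp hQ hp φ.2)
      rw [← mul_smul] at hr
      exact ⟨r, hr, hr0⟩
    refine ⟨Nat.card (gal Γ) * (m * k), Nat.mul_pos Nat.card_pos (Nat.mul_pos hm hk), a,
      ⟨_, ha1, 1, one_pos, fun v p hp => ?_⟩, ?_, ha2⟩
    · obtain ⟨r, hr, hr0⟩ := hbpf p hp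
      exact ⟨_, Sheaf.pow_one_section (ofDeg_section hr), hr0⟩
    · obtain ⟨p, hp⟩ := D.point
      obtain ⟨r, hr, hr0⟩ := hbpf p hp
      refine ⟨_, _, ha1, ofDeg_section hr, 0, fun h => hr0 ?_⟩
      beta_reduce at h
      rw [h, map_zero]

end Pool.Agent.X324.CF
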