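import Pool.Agent.X324.CF.Gr

/-!
# Sheaves on `(V × F) / Γ` and line bundles on `V / base Γ`
-/

set_option autoImplicit false

namespace Pool.Agent.X324.CF

open Finset
open Pool.Agent.W594.SYZ2 Pool.Agent.W594.SYZ2.TQ Pool.Agent.TH735.AQ

variable {V E R : Type*} [NormedAddCommGroup V] [NormedSpace ℂ V]
  [NormedAddCommGroup E] [NormedSpace ℂ E] [CommRing R] [Algebra ℂ R] {ρ n : ℕ}
  {𝒜 : Cl ρ → Submodule ℂ R} {Γ : Grp V R} {x : Fin n → R} {w : Fin n → Cl ρ} {u : Cl ρ}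

/-- The reflexive tensor power `𝓛^{[m]}`. -/
def Sheaf.pow (𝓛 : Sheaf 𝒜 Γ) (m : ℕ) : Sheaf 𝒜 Γ where
  deg := m • 𝓛.deg
  e := fun γ v => 𝓛.e γ v ^ m
  holo := fun γ => (𝓛.holo γ).pow m
  ne_zero := fun γ v => pow_ne_zero m (𝓛.ne_zero γ v)
  mul := fun γ δ v => by rw [𝓛.mul, mul_pow]
  inv := fun γ hγ σ hσ => by rw [map_nsmul, 𝓛.inv γ hγ σ hσ]
  triv := fun γ χ h1 h2 v => by
    rw [ofAdd_nsmul, map_pow, ← mul_pow, 𝓛.triv γ χ h1 h2 v, one_pow]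

theorem Sheaf.IsPowSection.sec {𝓛 : Sheaf 𝒜 Γ} {m : ℕ} {f : V → R} (h : 𝓛.IsPowSection m f) :
    (𝓛.pow m).IsSection f := ⟨h.mem, h.holo, h.eq⟩

theorem Sheaf.IsSection.powSec {𝓛 : Sheaf 𝒜 Γ} {m : ℕ} {f : V → R} (h : (𝓛.pow m).IsSection f) :
    𝓛.IsPowSection m f := ⟨h.mem, h.holo, h.eq⟩

/-- The group of the automorphisms of `F`. -/
def gal (Γ : Grp V R) : Subgroup (R ≃ₐ[ℂ] R) := Γ.map (MonoidHom.snd _ _)

theorem mem_gal {γ : (V ≃ᵃ[ℂ] V) × (R ≃ₐ[ℂ] R)} (h : γ ∈ Γ) : γ.2 ∈ gal Γ := ⟨γ, h, rfl⟩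

theorem mem_base {γ : (V ≃ᵃ[ℂ] V) × (R ≃ₐ[ℂ] R)} (h : γ ∈ Γ) : γ.1 ∈ base Γ := ⟨γ, h, rfl⟩

theorem IsQuotient.fin_gal (hQ : IsQuotient 𝒜 u Γ) : Finite (gal Γ) := by
  have h1 : (gal Γ : Set (R ≃ₐ[ℂ] R)) = {φ : R ≃ₐ[ℂ] R | ∃ γ ∈ Γ, γ.2 = φ} := rfl
  have h2 := hQ.finite
  rw [← h1] at h2
  exact h2.to_subtype

theorem gal_mem (hQ : IsQuotient 𝒜 u Γ) {β : Cl ρ} (hβ : Inv 𝒜 Γ β) {φ : R ≃ₐ[ℂ] R}
    (hφ : φ ∈ gal Γ) {r : R} (hr : r ∈ 𝒜 β) : φ r ∈ 𝒜 β := by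
  obtain ⟨γ, hγ, rfl⟩ := hφ
  obtain ⟨σ, hσ⟩ := hQ.perm γ hγ
  have h1 := hσ β r hr
  rwa [hβ γ hγ σ hσ] at h1

theorem Inv.add {β β' : Cl ρ} (h : Inv 𝒜 Γ β) (h' : Inv 𝒜 Γ β') : Inv 𝒜 Γ (β + β') :=
  fun γ hγ σ hσ => by rw [map_add, h γ hγ σ hσ, h' γ hγ σ hσ]

theorem Inv.neg {β : Cl ρ} (h : Inv 𝒜 Γ β) : Inv 𝒜 Γ (-β) :=
  fun γ hγ σ hσ => by rw [map_neg, h γ hγ σ hσ]

theorem Inv.zero : Inv 𝒜 Γ 0 := fun γ hγ σ hσ => by rw [map_zero]

theorem Inv.nsmul {β : Cl ρ} (h : Inv 𝒜 Γ β) (k : ℕ) : Inv 𝒜 Γ (k • β) :=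
  fun γ hγ σ hσ => by rw [map_nsmul, h γ hγ σ hσ]

/-- The translate of a semistable point is semistable. -/
theorem semistable_comp (hQ : IsQuotient 𝒜 u Γ) {p : R →ₐ[ℂ] ℂ} (hp : Semistable 𝒜 u p)
    {φ : R ≃ₐ[ℂ] R} (hφ : φ ∈ gal Γ) : Semistable 𝒜 u (p.comp (φ : R →ₐ[ℂ] R)) := by
  obtain ⟨m, hm, r, hr, hr0⟩ := hp
  refine ⟨m, hm, φ.symm r, gal_mem hQ (hQ.inv.nsmul m) ((gal Γ).inv_mem hφ) hr, ?_⟩
  change p (φ (φ.symm r)) ≠ 0
  rwa [φ.apply_symm_apply]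

/-- The exponent of the finite groups. -/
noncomputable def expo (Γ : Grp V R) : ℕ := Nat.card (Lin (base Γ)) * Nat.card (gal Γ)

theorem expo_pos (hQ : IsQuotient 𝒜 u Γ) : 0 < expo Γ := by
  have := finite_Lin hQ.torus
  have := hQ.fin_gal
  exact Nat.mul_pos Nat.card_pos Nat.card_pos

theorem gal_pow (hQ : IsQuotient 𝒜 u Γ) {φ : R ≃ₐ[ℂ] R} (hφ : φ ∈ gal Γ) :
    φ ^ Nat.card (gal Γ) = 1 := by
  have := hQ.fin_gal
  have h1 : (⟨φ, hφ⟩ : gal Γ) ^ Nat.card (gal Γ) = 1 := pow_card_eq_one'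
  exact congrArg Subtype.val h1

theorem gal_pow_expo (hQ : IsQuotient 𝒜 u Γ) {φ : R ≃ₐ[ℂ] R} (hφ : φ ∈ gal Γ) :
    φ ^ expo Γ = 1 := by
  rw [expo, mul_comm, pow_mul, gal_pow hQ hφ, one_pow]

/-- An element which fixes a point of `V` has finite order. -/
theorem pow_expo (hQ : IsQuotient 𝒜 u Γ) {γ : (V ≃ᵃ[ℂ] V) × (R ≃ₐ[ℂ] R)} (hγ : γ ∈ Γ) {v : V}
    (hv : γ.1 v = v) : γ ^ expo Γ = 1 := by
  have := finite_Lin hQ.torus
  refine Prod.ext ?_ (gal_pow_expo hQ (mem_gal hγ))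
  change γ.1 ^ expo Γ = 1
  have h1 : γ.1 ^ Nat.card (Lin (base Γ)) = 1 := by
    let g : Lin (base Γ) := ⟨γ.1.linear, γ.1, mem_base hγ, rfl⟩
    have h2 : g ^ Nat.card (Lin (base Γ)) = 1 := pow_card_eq_one'
    have h3 : (γ.1 ^ Nat.card (Lin (base Γ))).linear = 1 := by
      have h4 := congrArg Subtype.val h2
      have h5 : (γ.1 ^ Nat.card (Lin (base Γ))).linear = γ.1.linear ^ Nat.card (Lin (base Γ)) :=
        map_pow AffineEquiv.linearHom γ.1 _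
      rw [h5]
      exact h4
    have h6 : ∀ k : ℕ, (γ.1 ^ k) v = v := by
      intro k
      induction k with
      | zero => rfl
      | succ k ih =>
        rw [pow_succ]
        change (γ.1 ^ k) (γ.1 v) = v
        rw [hv, ih]
    apply AffineEquiv.ext
    intro y
    have h7 : y = v + (y - v) := by abel
    conv_lhs => rw [h7]
    rw [act_add, h6, h3]
    change v + (y - v) = y
    abel
  rw [expo, pow_mul, h1, one_pow]

namespace Sheaf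

theorem e_one (𝓛 : Sheaf 𝒜 Γ) (v : V) : 𝓛.e 1 v = 1 := by
  have h1 := 𝓛.mul 1 1 v
  rw [one_mul] at h1
  have h2 : ((1 : Γ) : (V ≃ᵃ[ℂ] V) × (R ≃ₐ[ℂ] R)).1 v = v := rfl
  rw [h2] at h1
  exact (mul_eq_left₀ (𝓛.ne_zero 1 v)).1 h1.symm

theorem e_pow (𝓛 : Sheaf 𝒜 Γ) {γ : Γ} {v : V} (hv : γ.1.1 v = v) (k : ℕ) :
    𝓛.e (γ ^ k) v = 𝓛.e γ v ^ k := by
  induction k with
  | zero => rw [pow_zero, pow_zero, e_one]
  | succ k ih => rw [pow_succ, 𝓛.mul, hv, ih, pow_succ]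

theorem e_fix (hQ : IsQuotient 𝒜 u Γ) (𝓛 : Sheaf 𝒜 Γ) {γ : Γ} {v : V} (hv : γ.1.1 v = v) :
    𝓛.e γ v ^ expo Γ = 1 := by
  rw [← e_pow 𝓛 hv]
  have h1 : γ ^ expo Γ = 1 := Subtype.ext (pow_expo hQ γ.2 hv)
  rw [h1, e_one]

theorem e_indep (hQ : IsQuotient 𝒜 u Γ) (𝓛 : Sheaf 𝒜 Γ) {γ δ : Γ} (h : γ.1.1 = δ.1.1) (v : V) :
    𝓛.e γ v ^ expo Γ = 𝓛.e δ v ^ expo Γ := by
  have h1 : (γ⁻¹ * δ).1.1 = 1 := by
    change γ.1.1⁻¹ * δ.1.1 = 1
    rw [h, inv_mul_cancel]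
  have h2 : (γ⁻¹ * δ).1.1 v = v := by rw [h1]; rfl
  have h3 : δ = γ * (γ⁻¹ * δ) := by group
  have h4 : 𝓛.e δ v = 𝓛.e γ v * 𝓛.e (γ⁻¹ * δ) v := by
    conv_lhs => rw [h3]
    rw [𝓛.mul, h2]
  rw [h4, mul_pow, e_fix hQ 𝓛 h2, mul_one]

theorem exists_lift (b : base Γ) : ∃ γ : Γ, γ.1.1 = b := by
  obtain ⟨b, γ, hγ, rfl⟩ := b
  exact ⟨⟨γ, hγ⟩, rfl⟩

/-- A lift of an element of the base group. -/
noncomputable def lift (b : base Γ) : Γ := (exists_lift b).choose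

theorem lift_spec (b : base Γ) : (lift b).1.1 = b := (exists_lift b).choose_spec

/-- A power of the sheaf gives a line bundle on the quotient of `V`. -/
noncomputable def toLB (hQ : IsQuotient 𝒜 u Γ) (𝓛 : Sheaf 𝒜 Γ) : LineBundle (base Γ) where
  e := fun b v => 𝓛.e (lift b) v ^ expo Γ
  holo := fun b => (𝓛.holo _).pow _
  ne_zero := fun b v => pow_ne_zero _ (𝓛.ne_zero _ v)
  mul := fun b c v => by
    have h1 : (lift (b * c)).1.1 = (lift b * lift c).1.1 := by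
      rw [lift_spec]
      change _ = (lift b).1.1 * (lift c).1.1
      rw [lift_spec, lift_spec]
      rfl
    rw [e_indep hQ 𝓛 h1, 𝓛.mul, mul_pow, lift_spec]
  stab := fun b v hv => e_fix hQ 𝓛 (by rw [lift_spec]; exact hv)

theorem toLB_e (hQ : IsQuotient 𝒜 u Γ) (𝓛 : Sheaf 𝒜 Γ) (γ : Γ) (v : V) :
    (𝓛.toLB hQ).e ⟨γ.1.1, mem_base γ.2⟩ v = 𝓛.e γ v ^ expo Γ :=
  e_indep hQ 𝓛 (lift_spec _) v

theorem toLB_chern (hQ : IsQuotient 𝒜 u Γ) {𝓛 : Sheaf 𝒜 Γ} {H : V → V → ℂ} (h : 𝓛.IsChern H) :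
    IsChernForm (𝓛.toLB hQ) (fun v w => (expo Γ : ℂ) * H v w) := by
  obtain ⟨hH, F, hF, hFe⟩ := h
  refine ⟨⟨?_, ?_, ?_⟩, fun v => (expo Γ : ℂ) * F v, hF.const_mul _, ?_⟩
  · intro u v w
    rw [hH.add_left, mul_add]
  · intro c v w
    rw [hH.smul_left]
    ring
  · intro v w
    rw [map_mul, ← hH.symm, Complex.conj_natCast]
  · intro b v
    have h1 : (b : V ≃ᵃ[ℂ] V) = (lift b).1.1 := (lift_spec b).symm
    change ‖𝓛.e (lift b) v ^ expo Γ‖ ^ 2 = _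
    rw [norm_pow, ← pow_mul, mul_comm, pow_mul, hFe, ← Real.exp_nat_mul, h1]
    congr 1
    have e1 : ∀ z : ℂ, ((expo Γ : ℂ) * z).re = (expo Γ : ℝ) * z.re := by
      intro z
      have e2 : (expo Γ : ℂ) = ((expo Γ : ℝ) : ℂ) := by push_cast; rfl
      rw [e2, Complex.re_ofReal_mul]
    rw [e1, e1, e1, e1]
    ring

/-- The pullback of a line bundle on the quotient of `V`. -/
def ofLB (L : LineBundle (base Γ)) : Sheaf 𝒜 Γ where
  deg := 0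
  e := fun γ v => L.e ⟨γ.1.1, mem_base γ.2⟩ v
  holo := fun γ => L.holo _
  ne_zero := fun γ v => L.ne_zero _ v
  mul := fun γ δ v => L.mul ⟨γ.1.1, mem_base γ.2⟩ ⟨δ.1.1, mem_base δ.2⟩ v
  inv := Inv.zero
  triv := fun γ χ h1 _ v => by
    have h2 : L.e ⟨γ.1.1, mem_base γ.2⟩ v = 1 := L.stab _ _ (by
      change γ.1.1 v = v
      rw [h1]
      rfl)
    rw [h2, ofAdd_zero, map_one, mul_one]

theorem ofLB_chern {L : LineBundle (base Γ)} {H : V → V → ℂ} (h : IsChernForm L H) :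
    (ofLB L : Sheaf 𝒜 Γ).IsChern H := by
  obtain ⟨hH, F, hF, hFe⟩ := h
  exact ⟨hH, F, hF, fun γ v => hFe ⟨γ.1.1, mem_base γ.2⟩ v⟩

theorem ofLB_section [GradedAlgebra 𝒜] {L : LineBundle (base Γ)} {s : V → ℂ} (hs : L.IsSection s) :
    (ofLB L : Sheaf 𝒜 Γ).IsSection fun v => s v • (1 : R) where
  mem := fun v => (𝒜 0).smul_mem _ SetLike.GradedOne.one_mem
  holo := fun ℓ => by
    have h1 : (fun v => ℓ (s v • (1 : R))) = fun v => s v * ℓ 1 := by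
      funext v
      rw [map_smul, smul_eq_mul]
    rw [h1]
    exact hs.holo.mul_const _
  eq := fun γ v => by
    rw [map_smul, map_one, smul_smul]
    congr 1
    exact hs.eq ⟨γ.1.1, mem_base γ.2⟩ v

end Sheaf

/-- Sections of the first power. -/
theorem Sheaf.pow_one_section {𝓛 : Sheaf 𝒜 Γ} {f : V → R} (hf : 𝓛.IsSection f) :
    𝓛.IsPowSection 1 f where
  mem := fun v => by
    change f v ∈ 𝒜 (1 • 𝓛.deg)
    rw [one_smul]
    exact hf.mem v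
  holo := hf.holo
  eq := fun γ v => by
    change _ = (𝓛.e γ v) ^ 1 • _
    rw [pow_one]
    exact hf.eq γ v

/-! ### Sheaves with given degree -/

theorem holo_const (r : R) : Holo (fun _ : V => r) := fun _ => differentiable_const _

/-- A multiple of an invariant class with the trivial factor of automorphy. -/
noncomputable def ofDeg (D : Base 𝒜 w) (hQ : IsQuotient 𝒜 u Γ) (β : Cl ρ)
    (hβ : Inv 𝒜 Γ β) : Sheaf 𝒜 Γ where
  deg := Nat.card (gal Γ) • β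
  e := fun _ _ => 1
  holo := fun _ => differentiable_const _
  ne_zero := fun _ _ => one_ne_zero
  mul := fun _ _ _ => by rw [mul_one]
  inv := hβ.nsmul _
  triv := fun γ χ _ h2 _ => by
    have hpow : ∀ (β' : Cl ρ) (r : R), r ∈ 𝒜 β' → ∀ k : ℕ,
        (γ.1.2 ^ k) r = χ (Multiplicative.ofAdd β') ^ k • r := by
      intro β' r hr k
      induction k with
      | zero => rw [pow_zero, pow_zero, one_smul]; rfl
      | succ k ih =>
        rw [pow_succ']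
        change γ.1.2 ((γ.1.2 ^ k) r) = _
        rw [ih, map_smul, h2 _ r hr, smul_smul, pow_succ]
    let H : AddSubgroup (Cl ρ) :=
      { carrier := {β' | χ (Multiplicative.ofAdd β') ^ Nat.card (gal Γ) = 1}
        add_mem' := fun {a b} ha hb => by
          change χ (Multiplicative.ofAdd (a + b)) ^ Nat.card (gal Γ) = 1
          rw [ofAdd_add, map_mul, mul_pow, ha, hb, one_mul]
        zero_mem' := by
          change χ (Multiplicative.ofAdd 0) ^ Nat.card (gal Γ) = 1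
          rw [ofAdd_zero, map_one, one_pow]
        neg_mem' := fun {a} ha => by
          have h5 : χ (Multiplicative.ofAdd a) ^ Nat.card (gal Γ)
              * χ (Multiplicative.ofAdd (-a)) ^ Nat.card (gal Γ) = 1 := by
            rw [← mul_pow, ← map_mul, ← ofAdd_add, add_neg_cancel, ofAdd_zero, map_one, one_pow]
          have h6 : χ (Multiplicative.ofAdd a) ^ Nat.card (gal Γ) = 1 := ha
          rw [h6, one_mul] at h5
          exact h5 }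
    have h3 : H = ⊤ := D.gens H (by
      rintro β' ⟨r, hr, hr0⟩
      have h4 := hpow β' r hr (Nat.card (gal Γ))
      rw [gal_pow hQ (mem_gal γ.2)] at h4
      have h5 : (1 - χ (Multiplicative.ofAdd β') ^ Nat.card (gal Γ)) • r = 0 := by
        rw [sub_smul, one_smul, ← h4]
        exact sub_self _
      rcases smul_eq_zero.1 h5 with h6 | h6
      · exact (sub_eq_zero.1 h6).symm
      · exact absurd h6 hr0)
    have h4 : β ∈ H := by rw [h3]; trivial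
    rw [one_mul, ofAdd_nsmul, map_pow]
    exact h4

section OfDeg

variable {D : Base 𝒜 w} {hQ : IsQuotient 𝒜 u Γ} {β : Cl ρ} {hβ : Inv 𝒜 Γ β}

theorem ofDeg_chern : (ofDeg D hQ β hβ).IsChern (fun _ _ => 0) := by
  refine ⟨⟨fun _ _ _ => by rw [add_zero], fun _ _ _ => by rw [mul_zero], fun _ _ => by
    rw [map_zero]⟩, fun _ => 0, differentiable_const _, fun γ v => ?_⟩
  change ‖(1 : ℂ)‖ ^ 2 = _
  simp

theorem ofDeg_section [GradedAlgebra 𝒜] [Fintype (gal Γ)] {r : R} (hr : r ∈ 𝒜 β) :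
    (ofDeg D hQ β hβ).IsSection fun _ => nrm (gal Γ) r where
  mem := fun v => by
    have h1 := nrm_mem (𝒜 := 𝒜) (K := gal Γ) (fun φ hφ r hr => gal_mem hQ hβ hφ hr) hr
    rw [← Nat.card_eq_fintype_card] at h1
    exact h1
  holo := holo_const _
  eq := fun γ v => by
    change nrm (gal Γ) r = (1 : ℂ) • γ.1.2 (nrm (gal Γ) r)
    rw [nrm_fix (mem_gal γ.2), one_smul]

end OfDeg

/-! ### The group of translations -/

/-- The translations `t` such that `(t, 1)` is in `Γ`. -/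
def trans (Γ : Grp V R) : Subgroup (V ≃ᵃ[ℂ] V) where
  carrier := {t | (∃ b, t = AffineEquiv.constVAdd ℂ V b) ∧ (t, (1 : R ≃ₐ[ℂ] R)) ∈ Γ}
  one_mem' := ⟨⟨0, by ext v; simp⟩, Γ.one_mem⟩
  mul_mem' := by
    rintro _ _ ⟨⟨b, rfl⟩, hb⟩ ⟨⟨c, rfl⟩, hc⟩
    refine ⟨⟨b + c, by ext v; simp [add_assoc]⟩, ?_⟩
    have := Γ.mul_mem hb hc
    rwa [Prod.mk_mul_mk, one_mul] at this
  inv_mem' := by
    rintro _ ⟨⟨b, rfl⟩, hb⟩
    refine ⟨⟨-b, ?_⟩, ?_⟩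
    · rw [inv_eq_iff_mul_eq_one]
      ext v; simp
    · have := Γ.inv_mem hb
      rwa [Prod.inv_mk, inv_one] at this

theorem mem_latt_trans {b : V} : b ∈ latt (trans Γ) ↔
    (AffineEquiv.constVAdd ℂ V b, (1 : R ≃ₐ[ℂ] R)) ∈ Γ := by
  constructor
  · intro h
    exact h.2
  · intro h
    exact ⟨⟨b, rfl⟩, h⟩

theorem latt_trans_le : latt (trans Γ) ≤ latt (base Γ) := fun _ hb =>
  ⟨_, mem_latt_trans.1 hb, rfl⟩

theorem constVAdd_pow (b : V) (k : ℕ) :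
    (AffineEquiv.constVAdd ℂ V b) ^ k = AffineEquiv.constVAdd ℂ V (k • b) := by
  induction k with
  | zero => ext v; simp
  | succ k ih =>
    rw [pow_succ, ih]
    ext v
    simp [add_smul, add_assoc]

theorem card_smul_latt (hQ : IsQuotient 𝒜 u Γ) {b : V} (hb : b ∈ latt (base Γ)) :
    Nat.card (gal Γ) • b ∈ latt (trans Γ) := by
  obtain ⟨γ, hγ, h1⟩ := hb
  rw [mem_latt_trans]
  have h2 := Γ.pow_mem hγ (Nat.card (gal Γ))
  have h3 : γ ^ Nat.card (gal Γ) = (AffineEquiv.constVAdd ℂ V (Nat.card (gal Γ) • b), 1) := by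
    refine Prod.ext ?_ (gal_pow hQ (mem_gal hγ))
    change γ.1 ^ Nat.card (gal Γ) = _
    have h4 : γ.1 = AffineEquiv.constVAdd ℂ V b := h1
    rw [h4, constVAdd_pow]
  rwa [h3] at h2

theorem trans_torus (hQ : IsQuotient 𝒜 u Γ) : IsTorusQuotient (trans Γ) where
  discrete := by
    have hd := hQ.torus.discrete
    let f : latt (trans Γ) → latt (base Γ) := fun e => ⟨e.1, latt_trans_le e.2⟩
    have hf : Continuous f := continuous_subtype_val.subtype_mk _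
    exact DiscreteTopology.of_continuous_injective hf (fun e e' h =>
      Subtype.ext (congrArg (fun z : latt (base Γ) => z.1) h))
  span_top := by
    have := hQ.fin_gal
    rw [eq_top_iff, ← hQ.torus.span_top, Submodule.span_le]
    intro b hb
    have h1 := card_smul_latt hQ hb
    have h2 : (Nat.card (gal Γ) : ℝ) ≠ 0 := by
      have : 0 < Nat.card (gal Γ) := Nat.card_pos
      exact_mod_cast this.ne'
    have h3 : b = (Nat.card (gal Γ) : ℝ)⁻¹ • (Nat.card (gal Γ) • b) := by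
      rw [← Nat.cast_smul_eq_nsmul ℝ, smul_smul, inv_mul_cancel₀ h2, one_smul]
    rw [SetLike.mem_coe, h3]
    exact Submodule.smul_mem _ _ (Submodule.subset_span h1)
  finite_linear := by
    refine (Set.finite_singleton (1 : V ≃ₗ[ℂ] V)).subset ?_
    rintro _ ⟨_, ⟨⟨b, rfl⟩, -⟩, rfl⟩
    rfl

namespace Sheaf

/-- The restriction to the translations. -/
def resT (𝓛 : Sheaf 𝒜 Γ) : LineBundle (trans Γ) where
  e := fun t v => 𝓛.e ⟨(t.1, 1), t.2.2⟩ v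
  holo := fun t => 𝓛.holo _
  ne_zero := fun t v => 𝓛.ne_zero _ v
  mul := fun t s v => by
    have h1 : (⟨((t * s : trans Γ).1, 1), (t * s : trans Γ).2.2⟩ : Γ)
        = ⟨(t.1, 1), t.2.2⟩ * ⟨(s.1, 1), s.2.2⟩ := by
      apply Subtype.ext
      change (t.1 * s.1, (1 : R ≃ₐ[ℂ] R)) = (t.1 * s.1, 1 * 1)
      rw [one_mul]
    rw [h1, 𝓛.mul]
  stab := fun t v hv => by
    obtain ⟨t, ⟨b, rfl⟩, h⟩ := t
    have hb : b = 0 := by
      have h1 : b + v = v := hv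
      exact left_eq_add.1 (by rw [add_comm] at h1; exact h1.symm)
    subst hb
    have h1 : (⟨(AffineEquiv.constVAdd ℂ V (0 : V), 1), h⟩ : Γ) = 1 := by
      apply Subtype.ext
      refine Prod.ext ?_ rfl
      change AffineEquiv.constVAdd ℂ V (0 : V) = 1
      ext v; simp
    change 𝓛.e ⟨(AffineEquiv.constVAdd ℂ V (0 : V), 1), h⟩ v = 1
    rw [h1, e_one]

theorem resT_chern {𝓛 : Sheaf 𝒜 Γ} {H : V → V → ℂ} (h : 𝓛.IsChern H) :
    IsChernForm 𝓛.resT H := by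
  obtain ⟨hH, F, hF, hFe⟩ := h
  exact ⟨hH, F, hF, fun t v => hFe ⟨(t.1, 1), t.2.2⟩ v⟩

theorem resT_section {𝓛 : Sheaf 𝒜 Γ} {f : V → R} (hf : 𝓛.IsSection f) (ℓ : R →ₗ[ℂ] ℂ) :
    𝓛.resT.IsSection fun v => ℓ (f v) where
  holo := hf.holo ℓ
  eq := fun t v => by
    have h1 := hf.eq ⟨(t.1, 1), t.2.2⟩ v
    change f (t.1 v) = _ at h1
    rw [h1, map_smul, smul_eq_mul]
    rfl

/-- The Chern form of a sheaf with a section is semidefinite. -/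
theorem nef_of_section [FiniteDimensional ℂ V] (hQ : IsQuotient 𝒜 u Γ) {𝓛 : Sheaf 𝒜 Γ}
    {H : V → V → ℂ} (h : 𝓛.IsChern H) {f : V → R} (hf : 𝓛.IsSection f) (h0 : ∃ v, f v ≠ 0) :
    IsNefForm H := by
  obtain ⟨v, hv⟩ := h0
  have h1 : ∃ ℓ : R →ₗ[ℂ] ℂ, ℓ (f v) ≠ 0 := by
    by_contra hcon
    push Not at hcon
    exact hv ((Module.forall_dual_apply_eq_zero_iff ℂ _).1 hcon)
  obtain ⟨ℓ, hℓ⟩ := h1
  exact Pool.Agent.Y167.nef_of_section (trans_torus hQ) (resT_chern h) (resT_section hf ℓ)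
    ⟨v, hℓ⟩

/-- The tensor product. -/
def tensor (𝓛 𝓜 : Sheaf 𝒜 Γ) : Sheaf 𝒜 Γ where
  deg := 𝓛.deg + 𝓜.deg
  e := fun γ v => 𝓛.e γ v * 𝓜.e γ v
  holo := fun γ => (𝓛.holo γ).mul (𝓜.holo γ)
  ne_zero := fun γ v => mul_ne_zero (𝓛.ne_zero γ v) (𝓜.ne_zero γ v)
  mul := fun γ δ v => by rw [𝓛.mul, 𝓜.mul]; ring
  inv := 𝓛.inv.add 𝓜.inv
  triv := fun γ χ h1 h2 v => by
    rw [ofAdd_add, map_mul, mul_mul_mul_comm, 𝓛.triv γ χ h1 h2, 𝓜.triv γ χ h1 h2, one_mul]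

theorem chern_tensor {𝓛 𝓜 : Sheaf 𝒜 Γ} {H H' : V → V → ℂ} (h : 𝓛.IsChern H)
    (h' : 𝓜.IsChern H') : (𝓛.tensor 𝓜).IsChern (fun v w => H v w + H' v w) := by
  obtain ⟨hH, F, hF, hFe⟩ := h
  obtain ⟨hH', F', hF', hFe'⟩ := h'
  refine ⟨⟨?_, ?_, ?_⟩, fun v => F v + F' v, hF.add hF', ?_⟩
  · intro u v w
    rw [hH.add_left, hH'.add_left]
    ring
  · intro c v w
    rw [hH.smul_left, hH'.smul_left]
    ring
  · intro v w
    rw [map_add, ← hH.symm, ← hH'.symm]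
  · intro γ v
    change ‖𝓛.e γ v * 𝓜.e γ v‖ ^ 2 = _
    rw [norm_mul, mul_pow, hFe, hFe', ← Real.exp_add]
    congr 1
    simp only [Complex.add_re]
    ring

/-- The dual sheaf. -/
noncomputable def dual (𝓛 : Sheaf 𝒜 Γ) : Sheaf 𝒜 Γ where
  deg := -𝓛.deg
  e := fun γ v => (𝓛.e γ v)⁻¹
  holo := fun γ => (𝓛.holo γ).inv (𝓛.ne_zero γ)
  ne_zero := fun γ v => inv_ne_zero (𝓛.ne_zero γ v)
  mul := fun γ δ v => by rw [𝓛.mul, mul_inv]
  inv := 𝓛.inv.neg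
  triv := fun γ χ h1 h2 v => by
    have h3 := 𝓛.triv γ χ h1 h2 v
    have h4 : χ (Multiplicative.ofAdd 𝓛.deg) * χ (Multiplicative.ofAdd (-𝓛.deg)) = 1 := by
      rw [← map_mul, ← ofAdd_add, add_neg_cancel, ofAdd_zero, map_one]
    have h5 := 𝓛.ne_zero γ v
    field_simp
    calc χ (Multiplicative.ofAdd (-𝓛.deg))
        = (𝓛.e γ v * χ (Multiplicative.ofAdd 𝓛.deg)) * χ (Multiplicative.ofAdd (-𝓛.deg)) := by
          rw [h3, one_mul]
      _ = 𝓛.e γ v := by rw [mul_assoc, h4, mul_one]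

theorem chern_dual {𝓛 : Sheaf 𝒜 Γ} {H : V → V → ℂ} (h : 𝓛.IsChern H) :
    𝓛.dual.IsChern (fun v w => -H v w) := by
  obtain ⟨hH, F, hF, hFe⟩ := h
  refine ⟨⟨?_, ?_, ?_⟩, fun v => -F v, hF.neg, ?_⟩
  · intro u v w
    rw [hH.add_left]
    ring
  · intro c v w
    rw [hH.smul_left]
    ring
  · intro v w
    rw [map_neg, ← hH.symm]
  · intro γ v
    change ‖(𝓛.e γ v)⁻¹‖ ^ 2 = _
    rw [norm_inv, inv_pow, hFe, ← Real.exp_neg]
    congr 1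
    simp only [Complex.neg_re]
    ring

end Sheaf

end Pool.Agent.X324.CF
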